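import Pool.Agent.L5helper50.ACC.Gate

namespace Pool.Agent.L5helper50.ACC

open Finset

variable {n s : ℕ} {C : Circuit n s} {Hs : Finset (Fin s)} {R : Finset (Fin n)}
  {A : Fin s → Finset (Fin n)}

theorem Circuit.Hubs.good_prod (h : C.Hubs Hs R A) {m k : ℕ} [NeZero m]
    (hgate : ∀ g ∈ Hs, C.IsCount m k g) {ρ : ℝ} (hρ : 0 ≤ ρ)
    {θ : Fin n → Bool → ℂ} (hθ : Weight m ρ R θ) (z : Fin n → Bool) (P : Finset (Fin s))
    (J : Finset (Fin s)) (hJ : J ⊆ Hs) :
    Good m ρ R z θ ((m * 2 ^ k : ℝ) ^ J.card) (fun x => ∏ g ∈ J, ind C Hs P g (decide (g ∈ P)) x) := by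
  classical
  induction J using Finset.induction_on with
  | empty => simpa using Good.base hρ hθ
  | insert a J ha ih =>
    have h1 := ih ((subset_insert a J).trans hJ)
    have h2 := Good.mul_comb hρ (by positivity) h1
      (h.ind_gate P z (hgate a (hJ (mem_insert_self a J))) (decide (a ∈ P)))
    rw [card_insert_of_notMem ha, pow_succ]
    have h3 : (fun x => ∏ g ∈ insert a J, ind C Hs P g (decide (g ∈ P)) x)
        = fun x => (∏ g ∈ J, ind C Hs P g (decide (g ∈ P)) x) * ind C Hs P a (decide (a ∈ P)) x := by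
      funext x
      rw [prod_insert ha, mul_comm]
    rw [h3]
    exact h2

/-- The bound on a subcube. -/
theorem Circuit.Hubs.cube_bound (h : C.Hubs Hs R A) {m k : ℕ} [NeZero m]
    (hgate : ∀ g ∈ Hs, C.IsCount m k g) {ρ : ℝ} (hρ : 0 ≤ ρ)
    {θ : Fin n → Bool → ℂ} (hθ : Weight m ρ R θ) (z : Fin n → Bool) (o : Fin s)
    {F : (Fin n → Bool) → Bool} (hF : C.Determines Hs o F) :
    ‖∑ x ∈ cube R z, (if F x = true then (1 : ℂ) else 0) * ∏ i, θ i (x i)‖
      ≤ (2 * (m * 2 ^ k)) ^ Hs.card * (ρ ^ R.card * outer R θ z) := by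
  classical
  have h1 : ∑ x ∈ cube R z, (if F x = true then (1 : ℂ) else 0) * ∏ i, θ i (x i)
      = ∑ P ∈ Hs.powerset, ∑ x ∈ cube R z,
          (∏ g ∈ Hs, ind C Hs P g (decide (g ∈ P)) x) *
            (if C.phi Hs o F P (C.ev Hs P x o) = true then (1 : ℂ) else 0) *
              ∏ i, θ i (x i) := by
    rw [sum_comm]
    apply sum_congr rfl
    intro x _
    rw [C.sum_cons Hs o hF x, sum_mul]
    apply sum_congr rfl
    intro P _
    congr 2
    simp only [ind]
    rw [prod_ite_zero]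
    simp only [prod_const_one]
    exact if_congr Iff.rfl rfl rfl
  rw [h1]
  calc ‖∑ P ∈ Hs.powerset, ∑ x ∈ cube R z,
          (∏ g ∈ Hs, ind C Hs P g (decide (g ∈ P)) x) *
            (if C.phi Hs o F P (C.ev Hs P x o) = true then (1 : ℂ) else 0) *
              ∏ i, θ i (x i)‖
      ≤ ∑ P ∈ Hs.powerset, ((m * 2 ^ k : ℝ) ^ Hs.card * (ρ ^ R.card * outer R θ z)) := by
        refine (norm_sum_le _ _).trans (sum_le_sum fun P _ => ?_)
        apply h.good_prod hgate hρ hθ z P Hs (Subset.refl _)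
        apply El.of_loc (h.loc_ev P z o)
          (fun b => if C.phi Hs o F P b = true then (1 : ℂ) else 0)
        intro b
        split_ifs
        · exact Valid.one
        · exact Valid.zero
    _ = (2 * (m * 2 ^ k)) ^ Hs.card * (ρ ^ R.card * outer R θ z) := by
        rw [sum_const, card_powerset, nsmul_eq_mul]
        push_cast
        rw [mul_pow 2 (m * 2 ^ k : ℝ)]
        ring

theorem card_cube (R : Finset (Fin n)) (z : Fin n → Bool) : (cube R z).card = 2 ^ R.card := by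
  rw [cube, Fintype.card_piFinset]
  have : ∀ i, (if i ∈ R then univ else {z i} : Finset Bool).card = if i ∈ R then 2 else 1 := by
    intro i
    split_ifs <;> simp
  simp_rw [this]
  rw [prod_ite_mem, univ_inter, prod_const]

/-- The average over the subcubes. -/
theorem sum_cube (R : Finset (Fin n)) (Φ : (Fin n → Bool) → ℂ) :
    ∑ z : Fin n → Bool, ∑ x ∈ cube R z, Φ x = 2 ^ R.card * ∑ x : Fin n → Bool, Φ x := by
  classical
  have h1 : ∀ z : Fin n → Bool, ∑ x ∈ cube R z, Φ x
      = ∑ x : Fin n → Bool, if x ∈ cube R z then Φ x else 0 := by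
    intro z
    rw [sum_ite_mem, univ_inter]
  simp_rw [h1]
  rw [sum_comm, mul_sum]
  apply sum_congr rfl
  intro x _
  have h2 : ∀ z : Fin n → Bool, (x ∈ cube R z) ↔ (z ∈ cube R x) := by
    intro z
    rw [mem_cube, mem_cube]
    exact ⟨fun h i hi => (h i hi).symm, fun h i hi => (h i hi).symm⟩
  simp_rw [h2]
  rw [sum_ite_mem, univ_inter, sum_const, card_cube, nsmul_eq_mul]
  push_cast
  rfl

theorem sum_outer {m : ℕ} {ρ : ℝ} {R : Finset (Fin n)} {θ : Fin n → Bool → ℂ}
    (hθ : Weight m ρ R θ) : ∑ z : Fin n → Bool, outer R θ z ≤ 2 ^ R.card := by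
  have h1 : ∑ z : Fin n → Bool, outer R θ z
      = ∏ i, ∑ b : Bool, (if i ∈ R then (1 : ℝ) else ‖θ i b‖) := by
    rw [Finset.prod_univ_sum, Fintype.piFinset_univ]
    rfl
  rw [h1]
  have h2 : ∏ i, ∑ b : Bool, (if i ∈ R then (1 : ℝ) else ‖θ i b‖)
      ≤ ∏ i, (if i ∈ R then (2 : ℝ) else 1) := by
    apply prod_le_prod
    · intro i _
      apply sum_nonneg
      intro b _
      split_ifs
      · exact zero_le_one
      · exact norm_nonneg _
    · intro i _
      rw [Fintype.sum_bool]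
      by_cases hi : i ∈ R
      · simp only [if_pos hi]
        norm_num
      · simp only [if_neg hi]
        rw [add_comm]
        exact hθ.mass i
  refine h2.trans ?_
  rw [prod_ite_mem, univ_inter, prod_const]

/-- The global bound. -/
theorem Circuit.Hubs.bound (h : C.Hubs Hs R A) {m k : ℕ} [NeZero m]
    (hgate : ∀ g ∈ Hs, C.IsCount m k g) {ρ : ℝ} (hρ : 0 ≤ ρ)
    {θ : Fin n → Bool → ℂ} (hθ : Weight m ρ R θ) (o : Fin s)
    {F : (Fin n → Bool) → Bool} (hF : C.Determines Hs o F) :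
    ‖∑ x : Fin n → Bool, (if F x = true then (1 : ℂ) else 0) * ∏ i, θ i (x i)‖
      ≤ (2 * (m * 2 ^ k)) ^ Hs.card * ρ ^ R.card := by
  have h1 := sum_cube R (fun x => (if F x = true then (1 : ℂ) else 0) * ∏ i, θ i (x i))
  have h2 : ‖∑ z : Fin n → Bool, ∑ x ∈ cube R z,
      (if F x = true then (1 : ℂ) else 0) * ∏ i, θ i (x i)‖
      ≤ 2 ^ R.card * ((2 * (m * 2 ^ k)) ^ Hs.card * ρ ^ R.card) := by
    refine (norm_sum_le _ _).trans ?_
    refine (sum_le_sum fun z _ => h.cube_bound hgate hρ hθ z o hF).trans ?_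
    have h3 := sum_outer hθ
    have h4 : ∑ z : Fin n → Bool, (2 * (m * 2 ^ k) : ℝ) ^ Hs.card * (ρ ^ R.card * outer R θ z)
        = ((2 * (m * 2 ^ k)) ^ Hs.card * ρ ^ R.card) * ∑ z : Fin n → Bool, outer R θ z := by
      rw [mul_sum]
      apply sum_congr rfl
      intro z _
      ring
    rw [h4, mul_comm ((2 : ℝ) ^ R.card)]
    exact mul_le_mul_of_nonneg_left h3 (by positivity)
  rw [h1, norm_mul, norm_pow, Complex.norm_ofNat] at h2
  exact le_of_mul_le_mul_left h2 (by positivity)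

/-- Passing to a subset of `R`. -/
theorem Circuit.Hubs.mono (h : C.Hubs Hs R A) {R' : Finset (Fin n)} (hR : R' ⊆ R) :
    C.Hubs Hs R' (fun g => A g ∩ R') where
  sub := fun g _ => inter_subset_right
  card := fun g hg => (card_le_card inter_subset_left).trans (h.card g hg)
  inp := fun g hg i hi hiR => mem_inter.2 ⟨h.inp g hg i hi (hR hiR), hiR⟩
  gat := fun g hg u hu hgu => inter_subset_inter_right (h.gat g hg u hu hgu)

end Pool.Agent.L5helper50.ACC
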