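import Pool.Agent.L5helper50.ACC.Eval

namespace Pool.Agent.L5helper50.ACC

open Finset

variable {n s : ℕ}

/-- The `m`-th roots of unity and the numbers of norm at most `1/2`. -/
def Valid (m : ℕ) (u : ℂ) : Prop := ‖u‖ ≤ 1 / 2 ∨ u ^ m = 1

theorem Valid.norm_le {m : ℕ} [NeZero m] {u : ℂ} (hu : Valid m u) : ‖u‖ ≤ 1 := by
  rcases hu with hu | hu
  · linarith
  · exact (Complex.norm_eq_one_of_pow_eq_one hu (NeZero.ne m)).le

theorem Valid.mul {m : ℕ} [NeZero m] {u v : ℂ} (hu : Valid m u) (hv : Valid m v) :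
    Valid m (u * v) := by
  have hu1 := hu.norm_le
  have hv1 := hv.norm_le
  rcases hu with hu | hu
  · left
    rw [norm_mul]
    nlinarith [norm_nonneg u, norm_nonneg v]
  · rcases hv with hv | hv
    · left
      rw [norm_mul]
      nlinarith [norm_nonneg u, norm_nonneg v]
    · right; rw [mul_pow, hu, hv, one_mul]

theorem Valid.one {m : ℕ} : Valid m 1 := Or.inr (one_pow m)

theorem Valid.zero {m : ℕ} : Valid m 0 := Or.inl (by simp)

/-- The subcube of the points which agree with `z` outside `R`. -/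
def cube (R : Finset (Fin n)) (z : Fin n → Bool) : Finset (Fin n → Bool) :=
  Fintype.piFinset fun i => if i ∈ R then univ else {z i}

theorem mem_cube {R : Finset (Fin n)} {z x : Fin n → Bool} :
    x ∈ cube R z ↔ ∀ i ∉ R, x i = z i := by
  simp only [cube, Fintype.mem_piFinset]
  constructor
  · intro h i hi
    have := h i
    rw [if_neg hi] at this
    simpa using this
  · intro h i
    by_cases hi : i ∈ R
    · simp [hi]
    · simp [hi, h i hi]

/-- Elementary functions on a subcube. -/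
def El (m : ℕ) (R : Finset (Fin n)) (z : Fin n → Bool) (e : (Fin n → Bool) → ℂ) : Prop :=
  ∃ (u : ℂ) (φ : Fin n → Bool → ℂ), Valid m u ∧ (∀ i b, Valid m (φ i b)) ∧
    ∀ x ∈ cube R z, e x = u * ∏ i ∈ R, φ i (x i)

theorem El.const {m : ℕ} {R : Finset (Fin n)} {z : Fin n → Bool} {u : ℂ} (hu : Valid m u) :
    El m R z (fun _ => u) :=
  ⟨u, fun _ _ => 1, hu, fun _ _ => Valid.one, fun x _ => by simp⟩

theorem El.mul {m : ℕ} [NeZero m] {R : Finset (Fin n)} {z : Fin n → Bool} {e f : (Fin n → Bool) → ℂ}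
    (he : El m R z e) (hf : El m R z f) : El m R z (fun x => e x * f x) := by
  obtain ⟨u, φ, hu, hφ, h⟩ := he
  obtain ⟨v, ψ, hv, hψ, h'⟩ := hf
  refine ⟨u * v, fun i b => φ i b * ψ i b, hu.mul hv, fun i b => (hφ i b).mul (hψ i b), ?_⟩
  intro x hx
  beta_reduce
  rw [h x hx, h' x hx, prod_mul_distrib]
  ring

theorem El.prod {m : ℕ} [NeZero m] {R : Finset (Fin n)} {z : Fin n → Bool} {ι : Type} (J : Finset ι)
    (e : ι → (Fin n → Bool) → ℂ) (he : ∀ j ∈ J, El m R z (e j)) :
    El m R z (fun x => ∏ j ∈ J, e j x) := by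
  classical
  induction J using Finset.induction_on with
  | empty => simpa using El.const Valid.one
  | insert a J ha ih =>
    have h1 := (he a (mem_insert_self a J)).mul (ih fun j hj => he j (mem_insert_of_mem hj))
    obtain ⟨u, φ, hu, hφ, h⟩ := h1
    refine ⟨u, φ, hu, hφ, fun x hx => ?_⟩
    beta_reduce
    rw [prod_insert ha]
    exact h x hx

/-- `f` depends on at most one coordinate on the subcube. -/
def Loc (R : Finset (Fin n)) (z : Fin n → Bool) (f : (Fin n → Bool) → Bool) : Prop :=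
  ∃ A ⊆ R, A.card ≤ 1 ∧ ∀ x ∈ cube R z, ∀ y ∈ cube R z, (∀ i ∈ A, x i = y i) → f x = f y

theorem El.of_loc {m : ℕ} {R : Finset (Fin n)} {z : Fin n → Bool} {f : (Fin n → Bool) → Bool}
    (hf : Loc R z f) (v : Bool → ℂ) (hv : ∀ b, Valid m (v b)) :
    El m R z (fun x => v (f x)) := by
  classical
  obtain ⟨A, hAR, hA, h⟩ := hf
  have hz : z ∈ cube R z := mem_cube.2 fun i _ => rfl
  rcases Nat.lt_or_ge A.card 1 with h0 | h1
  · have hA0 : A = ∅ := card_eq_zero.1 (by omega)
    refine ⟨v (f z), fun _ _ => 1, hv _, fun _ _ => Valid.one, fun x hx => ?_⟩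
    beta_reduce
    rw [h x hx z hz (by simp [hA0])]
    simp
  · obtain ⟨j, rfl⟩ := card_eq_one.1 (le_antisymm hA h1)
    have hj : j ∈ R := hAR (mem_singleton_self j)
    refine ⟨1, fun i b => if i = j then v (f (Function.update z j b)) else 1, Valid.one, ?_, ?_⟩
    · intro i b
      dsimp only
      split_ifs
      · exact hv _
      · exact Valid.one
    · intro x hx
      rw [one_mul, prod_eq_single j]
      · beta_reduce
        rw [if_pos rfl]
        congr 1
        apply h x hx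
        · rw [mem_cube]
          intro i hi
          rw [Function.update_of_ne (by rintro rfl; exact hi hj)]
        · intro i hi
          rw [mem_singleton.1 hi]
          simp
      · intro b _ hb
        beta_reduce
        rw [if_neg hb]
      · intro hj'
        exact absurd hj hj'

/-- The weight function of the exponential sums. -/
structure Weight (m : ℕ) (ρ : ℝ) (R : Finset (Fin n)) (θ : Fin n → Bool → ℂ) : Prop where
  mass : ∀ i, ‖θ i false‖ + ‖θ i true‖ ≤ 1
  small : ∀ i ∈ R, ∀ u v : ℂ, Valid m u → Valid m v → ‖u * θ i false + v * θ i true‖ ≤ ρ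

/-- The weight of the part outside `R`. -/
noncomputable def outer (R : Finset (Fin n)) (θ : Fin n → Bool → ℂ) (z : Fin n → Bool) : ℝ :=
  ∏ i, if i ∈ R then 1 else ‖θ i (z i)‖

theorem outer_nonneg (R : Finset (Fin n)) (θ : Fin n → Bool → ℂ) (z : Fin n → Bool) :
    0 ≤ outer R θ z := by
  apply prod_nonneg
  intro i _
  split_ifs
  · exact zero_le_one
  · exact norm_nonneg _

/-- `f` pairs with all elementary functions up to `K ρ^|R|`. -/
def Good (m : ℕ) (ρ : ℝ) (R : Finset (Fin n)) (z : Fin n → Bool) (θ : Fin n → Bool → ℂ) (K : ℝ)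
    (f : (Fin n → Bool) → ℂ) : Prop :=
  ∀ e, El m R z e →
    ‖∑ x ∈ cube R z, f x * e x * ∏ i, θ i (x i)‖ ≤ K * (ρ ^ R.card * outer R θ z)

theorem Good.base {m : ℕ} [NeZero m] {ρ : ℝ} (hρ : 0 ≤ ρ) {R : Finset (Fin n)}
    {z : Fin n → Bool} {θ : Fin n → Bool → ℂ} (hθ : Weight m ρ R θ) :
    Good m ρ R z θ 1 (fun _ => 1) := by
  rintro e ⟨u, φ, hu, hφ, h⟩
  have h1 : ∑ x ∈ cube R z, (1 : ℂ) * e x * ∏ i, θ i (x i)
      = u * ∏ i, ∑ b ∈ (if i ∈ R then univ else {z i} : Finset Bool),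
          (if i ∈ R then φ i b else 1) * θ i b := by
    rw [Finset.prod_univ_sum, mul_sum]
    apply sum_congr rfl
    intro x hx
    rw [one_mul, h x hx, prod_mul_distrib, mul_assoc]
    congr 2
    rw [prod_ite_mem, univ_inter]
  rw [h1, norm_mul, norm_prod, one_mul]
  have h2 : ∏ i, ‖∑ b ∈ (if i ∈ R then univ else {z i} : Finset Bool),
          (if i ∈ R then φ i b else 1) * θ i b‖
      ≤ ∏ i, ((if i ∈ R then ρ else 1) * (if i ∈ R then 1 else ‖θ i (z i)‖)) := by
    apply prod_le_prod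
    · intro i _
      exact norm_nonneg _
    · intro i _
      by_cases hi : i ∈ R
      · simp only [if_pos hi, Fintype.sum_bool, mul_one]
        rw [add_comm]
        exact hθ.small i hi _ _ (hφ i false) (hφ i true)
      · simp only [if_neg hi, sum_singleton, one_mul]
        exact le_rfl
  have h3 : ∏ i, ((if i ∈ R then ρ else 1) * (if i ∈ R then 1 else ‖θ i (z i)‖))
      = ρ ^ R.card * outer R θ z := by
    rw [prod_mul_distrib, prod_ite_mem, univ_inter, prod_const]
    rfl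
  rw [h3] at h2
  calc ‖u‖ * _ ≤ 1 * (ρ ^ R.card * outer R θ z) := by
        apply mul_le_mul hu.norm_le h2
        · exact prod_nonneg fun i _ => norm_nonneg _
        · exact zero_le_one
    _ = _ := one_mul _

/-- `g` is a combination of elementary functions with total weight at most `K`. -/
def Comb (m : ℕ) (R : Finset (Fin n)) (z : Fin n → Bool) (K : ℝ) (g : (Fin n → Bool) → ℂ) :
    Prop :=
  ∃ (ι : Type) (J : Finset ι) (a : ι → ℂ) (e : ι → (Fin n → Bool) → ℂ),
    (∀ j ∈ J, El m R z (e j)) ∧ ∑ j ∈ J, ‖a j‖ ≤ K ∧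
    ∀ x ∈ cube R z, g x = ∑ j ∈ J, a j * e j x

section comb

variable {m : ℕ} {R : Finset (Fin n)} {z : Fin n → Bool} {K L : ℝ} {f g : (Fin n → Bool) → ℂ}

theorem Comb.congr (hf : Comb m R z K f) (h : ∀ x ∈ cube R z, g x = f x) : Comb m R z K g := by
  obtain ⟨ι, J, a, e, h1, h2, h3⟩ := hf
  exact ⟨ι, J, a, e, h1, h2, fun x hx => (h x hx).trans (h3 x hx)⟩

theorem Comb.mono (hf : Comb m R z K f) (h : K ≤ L) : Comb m R z L f := by
  obtain ⟨ι, J, a, e, h1, h2, h3⟩ := hf
  exact ⟨ι, J, a, e, h1, h2.trans h, h3⟩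

theorem Comb.of_el (hf : El m R z f) : Comb m R z 1 f :=
  ⟨Unit, {()}, fun _ => 1, fun _ => f, fun _ _ => hf, by simp, fun x _ => by simp⟩

theorem Comb.zero : Comb m R z 0 (fun _ => 0) :=
  ⟨Unit, ∅, fun _ => 1, fun _ _ => 1, fun _ h => absurd h (notMem_empty _), by simp,
    fun x _ => by simp⟩

theorem Comb.smul (c : ℂ) (hf : Comb m R z K f) : Comb m R z (‖c‖ * K) (fun x => c * f x) := by
  obtain ⟨ι, J, a, e, h1, h2, h3⟩ := hf
  refine ⟨ι, J, fun j => c * a j, e, h1, ?_, fun x hx => ?_⟩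
  · simp_rw [norm_mul]
    rw [← mul_sum]
    exact mul_le_mul_of_nonneg_left h2 (norm_nonneg _)
  · beta_reduce
    rw [h3 x hx, mul_sum]
    exact sum_congr rfl fun j _ => (mul_assoc _ _ _).symm

theorem Comb.add (hf : Comb m R z K f) (hg : Comb m R z L g) :
    Comb m R z (K + L) (fun x => f x + g x) := by
  obtain ⟨ι, J, a, e, h1, h2, h3⟩ := hf
  obtain ⟨ι', J', a', e', h1', h2', h3'⟩ := hg
  refine ⟨ι ⊕ ι', J.disjSum J', Sum.elim a a', Sum.elim e e', ?_, ?_, ?_⟩
  · rintro (j | j) hj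
    · exact h1 j (by simpa using hj)
    · exact h1' j (by simpa using hj)
  · rw [sum_disjSum]
    exact add_le_add h2 h2'
  · intro x hx
    beta_reduce
    rw [sum_disjSum, h3 x hx, h3' x hx]
    rfl

theorem Comb.sum {T : Type} (S : Finset T) (F : T → (Fin n → Bool) → ℂ) (B : T → ℝ)
    (h : ∀ t ∈ S, Comb m R z (B t) (F t)) :
    Comb m R z (∑ t ∈ S, B t) (fun x => ∑ t ∈ S, F t x) := by
  classical
  induction S using Finset.induction_on with
  | empty => simpa using Comb.zero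
  | insert a S ha ih =>
    have h1 := (h a (mem_insert_self a S)).add (ih fun t ht => h t (mem_insert_of_mem ht))
    rw [sum_insert ha]
    exact h1.congr fun x _ => sum_insert ha

theorem Comb.mul [NeZero m] (hf : Comb m R z K f) (hg : Comb m R z L g) (hK : 0 ≤ K) :
    Comb m R z (K * L) (fun x => f x * g x) := by
  obtain ⟨ι, J, a, e, h1, h2, h3⟩ := hf
  obtain ⟨ι', J', a', e', h1', h2', h3'⟩ := hg
  refine ⟨ι × ι', J ×ˢ J', fun p => a p.1 * a' p.2, fun p x => e p.1 x * e' p.2 x, ?_, ?_, ?_⟩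
  · intro p hp
    rw [mem_product] at hp
    exact (h1 p.1 hp.1).mul (h1' p.2 hp.2)
  · simp_rw [norm_mul]
    rw [sum_product]
    dsimp only
    rw [← sum_mul_sum]
    apply mul_le_mul h2 h2' (sum_nonneg fun j _ => norm_nonneg _) hK
  · intro x hx
    beta_reduce
    rw [sum_product, h3 x hx, h3' x hx, sum_mul_sum]
    apply sum_congr rfl
    intro j _
    apply sum_congr rfl
    intro j' _
    ring

end comb

theorem Good.mul_comb {m : ℕ} [NeZero m] {ρ : ℝ} (hρ : 0 ≤ ρ) {R : Finset (Fin n)}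
    {z : Fin n → Bool} {θ : Fin n → Bool → ℂ} {K : ℝ} (hK : 0 ≤ K) {f : (Fin n → Bool) → ℂ}
    (hf : Good m ρ R z θ K f) {M : ℝ} {g : (Fin n → Bool) → ℂ} (hg : Comb m R z M g) :
    Good m ρ R z θ (K * M) (fun x => f x * g x) := by
  obtain ⟨ι, J, a, e, he, hM, hg⟩ := hg
  intro e' he'
  have hout := outer_nonneg R θ z
  have h1 : ∑ x ∈ cube R z, f x * g x * e' x * ∏ i, θ i (x i)
      = ∑ j ∈ J, a j * ∑ x ∈ cube R z, f x * (e j x * e' x) * ∏ i, θ i (x i) := by
    simp_rw [Finset.mul_sum]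
    rw [sum_comm]
    apply sum_congr rfl
    intro x hx
    rw [hg x hx, Finset.mul_sum, sum_mul, sum_mul]
    apply sum_congr rfl
    intro j _
    ring
  rw [h1]
  calc ‖∑ j ∈ J, a j * ∑ x ∈ cube R z, f x * (e j x * e' x) * ∏ i, θ i (x i)‖
      ≤ ∑ j ∈ J, ‖a j * ∑ x ∈ cube R z, f x * (e j x * e' x) * ∏ i, θ i (x i)‖ :=
        norm_sum_le _ _
    _ ≤ ∑ j ∈ J, ‖a j‖ * (K * (ρ ^ R.card * outer R θ z)) := by
        apply sum_le_sum
        intro j hj
        rw [norm_mul]
        exact mul_le_mul_of_nonneg_left (hf _ ((he j hj).mul he')) (norm_nonneg _)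
    _ = (∑ j ∈ J, ‖a j‖) * (K * (ρ ^ R.card * outer R θ z)) := by rw [sum_mul]
    _ ≤ M * (K * (ρ ^ R.card * outer R θ z)) := by
        apply mul_le_mul_of_nonneg_right hM
        positivity
    _ = K * M * (ρ ^ R.card * outer R θ z) := by ring

end Pool.Agent.L5helper50.ACC
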