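import Pool.Agent.L5helper50.ACC.Model

namespace Pool.Agent.L5helper50.ACC

variable {n s : ℕ}

/-- Formal evaluation: the gates of `Hs` get the value `g ∈ P`. -/
def Circuit.ev (C : Circuit n s) (Hs P : Finset (Fin s)) (x : Fin n → Bool) (g : Fin s) : Bool :=
  if g ∈ Hs then decide (g ∈ P)
  else C.fn g (Sum.elim x (fun u => if h : u < g then C.ev Hs P x u else false))
termination_by g.val
decreasing_by exact h

theorem Circuit.ev_of_mem (C : Circuit n s) {Hs P : Finset (Fin s)} {x : Fin n → Bool} {g : Fin s}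
    (h : g ∈ Hs) : C.ev Hs P x g = decide (g ∈ P) := by
  rw [Circuit.ev]; simp [h]

theorem Circuit.ev_of_not_mem (C : Circuit n s) {Hs P : Finset (Fin s)} {x : Fin n → Bool}
    {g : Fin s} (h : g ∉ Hs) :
    C.ev Hs P x g = C.fn g (Sum.elim x (C.ev Hs P x)) := by
  rw [Circuit.ev, if_neg h]
  apply C.dep
  rintro (i | u) hi
  · rfl
  · simp [C.acyclic g u hi]

/-- Consistency of the guess `P`. -/
def Circuit.Cons (C : Circuit n s) (Hs P : Finset (Fin s)) (x : Fin n → Bool) : Prop :=
  ∀ g ∈ Hs, C.fn g (Sum.elim x (C.ev Hs P x)) = decide (g ∈ P)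

theorem Circuit.ev_of_cons (C : Circuit n s) {Hs P : Finset (Fin s)} {x : Fin n → Bool}
    (h : C.Cons Hs P x) (g : Fin s) : C.ev Hs P x g = C.val g x := by
  induction g using WellFoundedLT.induction with
  | _ g ih =>
    have key : C.fn g (Sum.elim x (C.ev Hs P x)) = C.val g x := by
      rw [C.val_eq]
      apply C.dep
      rintro (i | u) hi
      · rfl
      · exact ih u (C.acyclic g u hi)
    by_cases hg : g ∈ Hs
    · rw [C.ev_of_mem hg, ← h g hg, key]
    · rw [C.ev_of_not_mem hg, key]

theorem Circuit.ev_filter (C : Circuit n s) {Hs : Finset (Fin s)} {x : Fin n → Bool}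
    (g : Fin s) : C.ev Hs (Hs.filter fun u => C.val u x = true) x g = C.val g x := by
  induction g using WellFoundedLT.induction with
  | _ g ih =>
    by_cases hg : g ∈ Hs
    · rw [C.ev_of_mem hg]
      simp [hg]
    · rw [C.ev_of_not_mem hg, C.val_eq]
      apply C.dep
      rintro (i | u) hi
      · rfl
      · exact ih u (C.acyclic g u hi)

theorem Circuit.cons_filter (C : Circuit n s) {Hs : Finset (Fin s)} {x : Fin n → Bool} :
    C.Cons Hs (Hs.filter fun u => C.val u x = true) x := by
  intro g hg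
  have h1 : C.fn g (Sum.elim x (C.ev Hs (Hs.filter fun u => C.val u x = true) x))
      = C.val g x := by
    rw [C.val_eq]
    apply C.dep
    rintro (i | u) hi
    · rfl
    · exact C.ev_filter u
  rw [h1]
  simp [hg]

theorem Circuit.cons_unique (C : Circuit n s) {Hs P : Finset (Fin s)} {x : Fin n → Bool}
    (hP : P ⊆ Hs) (h : C.Cons Hs P x) : P = Hs.filter fun u => C.val u x = true := by
  ext g
  constructor
  · intro hg
    have h1 := C.ev_of_cons h g
    rw [C.ev_of_mem (hP hg)] at h1
    simp only [Finset.mem_filter]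
    refine ⟨hP hg, ?_⟩
    rw [← h1]
    simpa using hg
  · intro hg
    rw [Finset.mem_filter] at hg
    have h1 := C.ev_of_cons h g
    rw [C.ev_of_mem hg.1, hg.2] at h1
    simpa using h1

open Classical in
/-- The value of `F` as a function of the values of the hubs and of `o`. -/
noncomputable def Circuit.phi (C : Circuit n s) (Hs : Finset (Fin s)) (o : Fin s)
    (F : (Fin n → Bool) → Bool) (P : Finset (Fin s)) (b : Bool) : Bool :=
  decide (∃ x, (∀ g ∈ Hs, C.val g x = decide (g ∈ P)) ∧ C.val o x = b ∧ F x = true)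

theorem Circuit.phi_eq (C : Circuit n s) {Hs : Finset (Fin s)} {o : Fin s}
    {F : (Fin n → Bool) → Bool} (hF : C.Determines Hs o F) (x : Fin n → Bool) :
    C.phi Hs o F (Hs.filter fun u => C.val u x = true) (C.val o x) = F x := by
  unfold Circuit.phi
  by_cases h : F x = true
  · rw [h, decide_eq_true_eq]
    refine ⟨x, ?_, rfl, h⟩
    intro g hg
    simp [hg]
  · have h' : F x = false := by simpa using h
    rw [h', decide_eq_false_iff_not]
    rintro ⟨x', h1, h2, h3⟩
    apply h
    rw [← h3]
    apply hF x x' _ h2.symm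
    intro g hg
    rw [h1 g hg]
    simp [hg]

open Classical in
/-- The value of `F` as a sum over the guesses. -/
theorem Circuit.sum_cons (C : Circuit n s) (Hs : Finset (Fin s)) (o : Fin s)
    {F : (Fin n → Bool) → Bool} (hF : C.Determines Hs o F) (x : Fin n → Bool) :
    (if F x = true then (1 : ℂ) else 0)
      = ∑ P ∈ Hs.powerset, (if C.Cons Hs P x then (1 : ℂ) else 0) *
          (if C.phi Hs o F P (C.ev Hs P x o) = true then (1 : ℂ) else 0) := by
  rw [Finset.sum_eq_single (Hs.filter fun u => C.val u x = true)]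
  · rw [if_pos C.cons_filter, C.ev_filter, one_mul, C.phi_eq hF]
  · intro P hP hne
    rw [if_neg, zero_mul]
    intro h
    exact hne (C.cons_unique (Finset.mem_powerset.1 hP) h)
  · intro h
    exact absurd (Finset.mem_powerset.2 (Finset.filter_subset _ _)) h

theorem Circuit.Determines.mono {C : Circuit n s} {U V : Finset (Fin s)} {o : Fin s}
    {F : (Fin n → Bool) → Bool} (h : C.Determines U o F) (hUV : U ⊆ V) : C.Determines V o F :=
  fun x x' h1 h2 => h x x' (fun g hg => h1 g (hUV hg)) h2

/-- Locality of the gates outside `Hs`. -/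
theorem Circuit.ev_local (C : Circuit n s) {Hs P : Finset (Fin s)} {R : Finset (Fin n)}
    {A : Fin s → Finset (Fin n)}
    (hx : ∀ g ∉ Hs, ∀ i, Sum.inl i ∈ C.ch g → i ∈ R → i ∈ A g)
    (hc : ∀ g ∉ Hs, ∀ u ∉ Hs, Sum.inr u ∈ C.ch g → A u ⊆ A g)
    {x y : Fin n → Bool} (hxy : ∀ i ∉ R, x i = y i) (g : Fin s) (hg : g ∉ Hs)
    (hA : ∀ i ∈ A g, x i = y i) : C.ev Hs P x g = C.ev Hs P y g := by
  induction g using WellFoundedLT.induction with
  | _ g ih =>
    rw [C.ev_of_not_mem hg, C.ev_of_not_mem hg]
    apply C.dep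
    rintro (i | u) hi
    · by_cases hiR : i ∈ R
      · exact hA i (hx g hg i hi hiR)
      · exact hxy i hiR
    · change C.ev Hs P x u = C.ev Hs P y u
      by_cases hu : u ∈ Hs
      · rw [C.ev_of_mem hu, C.ev_of_mem hu]
      · exact ih u (C.acyclic g u hi) hu (fun i hi' => hA i (hc g hg u hu hi hi'))

end Pool.Agent.L5helper50.ACC
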