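import Pool.Agent.L5helper50.ACC.Bound

namespace Pool.Agent.L5helper50.ACC

open Finset

theorem norm_one_sub_pow_le {τ : ℂ} (hτ : ‖τ‖ = 1) (m : ℕ) : ‖1 - τ ^ m‖ ≤ m * ‖1 - τ‖ := by
  induction m with
  | zero => simp
  | succ k ih =>
    have h1 : 1 - τ ^ (k + 1) = (1 - τ ^ k) + τ ^ k * (1 - τ) := by ring
    rw [h1]
    calc ‖(1 - τ ^ k) + τ ^ k * (1 - τ)‖ ≤ ‖1 - τ ^ k‖ + ‖τ ^ k * (1 - τ)‖ := norm_add_le _ _
      _ ≤ k * ‖1 - τ‖ + ‖1 - τ‖ := by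
          rw [norm_mul, norm_pow, hτ, one_pow, one_mul]
          linarith
      _ = ((k + 1 : ℕ) : ℝ) * ‖1 - τ‖ := by push_cast; ring

/-- The contraction factor. -/
noncomputable def rho (m : ℕ) (η P : ℝ) : ℝ := Real.sqrt (1 - (η / m) ^ 2 / (4 * P))

section

variable {m : ℕ} {η P : ℝ}

theorem rho_aux (hm : 2 ≤ m) (hη0 : 0 < η) (hη2 : η ≤ 2) (hP : 1 ≤ P) :
    0 < (η / m) ^ 2 / (4 * P) ∧ (η / m) ^ 2 / (4 * P) ≤ 1 / (4 * P) ∧ 1 / (4 * P) ≤ 1 / 4 := by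
  have hmR : (2 : ℝ) ≤ m := by exact_mod_cast hm
  have hq : η / m ≤ 1 := by
    rw [div_le_one (by positivity)]
    linarith
  have hq0 : 0 < η / m := by positivity
  refine ⟨by positivity, ?_, ?_⟩
  · apply div_le_div_of_nonneg_right _ (by positivity)
    nlinarith
  · apply div_le_div_of_nonneg_left (by norm_num) (by norm_num)
    linarith

theorem rho_lt_one (hm : 2 ≤ m) (hη0 : 0 < η) (hη2 : η ≤ 2) (hP : 1 ≤ P) : rho m η P < 1 := by
  have h := rho_aux hm hη0 hη2 hP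
  unfold rho
  rw [Real.sqrt_lt' one_pos]
  linarith [h.1]

theorem rho_ge (hm : 2 ≤ m) (hη0 : 0 < η) (hη2 : η ≤ 2) (hP : 1 ≤ P) :
    1 - 1 / (4 * P) ≤ rho m η P := by
  have h := rho_aux hm hη0 hη2 hP
  have hP' : 0 < 1 / (4 * P) := by positivity
  unfold rho
  apply Real.le_sqrt_of_sq_le
  nlinarith [h.1, h.2.1, h.2.2]

theorem far_bound (hm : 2 ≤ m) (hη0 : 0 < η) (hη2 : η ≤ 2) (hP : 1 ≤ P) {lam : ℝ}
    (hl1 : 1 ≤ P * lam) (hl2 : lam ≤ P) {ω : ℂ}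
    (hω : ‖ω‖ = 1) (hfar : η ≤ ‖1 - ω ^ m‖) {u v : ℂ} (hu : Valid m u) (hv : Valid m v) :
    ‖u * ((1 / (1 + lam) : ℝ) : ℂ) + v * (((lam / (1 + lam) : ℝ) : ℂ) * ω)‖ ≤ rho m η P := by
  have : NeZero m := ⟨by omega⟩
  have hm0 : m ≠ 0 := by omega
  have hmR : (2 : ℝ) ≤ m := by exact_mod_cast hm
  have hlam : 0 < lam := by
    by_contra h
    push Not at h
    nlinarith
  have hs : 0 < 1 + lam := by linarith
  have haux := rho_aux hm hη0 hη2 hP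
  have hge := rho_ge hm hη0 hη2 hP
  have hu1 := hu.norm_le
  have hv1 := hv.norm_le
  have hc1 : ‖(((1 / (1 + lam) : ℝ)) : ℂ)‖ = 1 / (1 + lam) := by
    rw [Complex.norm_real, Real.norm_eq_abs, abs_of_pos (by positivity)]
  have hc2 : ‖(((lam / (1 + lam) : ℝ)) : ℂ) * ω‖ = lam / (1 + lam) := by
    rw [norm_mul, hω, mul_one, Complex.norm_real, Real.norm_eq_abs, abs_of_pos (by positivity)]
  have htri : ‖u * ((1 / (1 + lam) : ℝ) : ℂ) + v * (((lam / (1 + lam) : ℝ) : ℂ) * ω)‖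
      ≤ ‖u‖ * (1 / (1 + lam)) + ‖v‖ * (lam / (1 + lam)) := by
    refine (norm_add_le _ _).trans ?_
    rw [norm_mul, norm_mul, hc1, hc2]
  have hsum : 1 / (1 + lam) + lam / (1 + lam) = 1 := by field_simp
  have hp1 : 1 / (2 * P) ≤ 1 / (1 + lam) := by
    apply div_le_div_of_nonneg_left zero_le_one hs
    linarith
  have hp2 : 1 / (2 * P) ≤ lam / (1 + lam) := by
    rw [div_le_div_iff₀ (by positivity) hs]
    nlinarith
  have hPP : 1 / (2 * P) = 2 * (1 / (4 * P)) := by field_simp; ring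
  rcases hu with hu | hu
  · have h1 : ‖u‖ * (1 / (1 + lam)) ≤ 1 / 2 * (1 / (1 + lam)) :=
      mul_le_mul_of_nonneg_right hu (by positivity)
    have h2 : ‖v‖ * (lam / (1 + lam)) ≤ 1 * (lam / (1 + lam)) :=
      mul_le_mul_of_nonneg_right hv1 (by positivity)
    linarith
  rcases hv with hv | hv
  · have h1 : ‖u‖ * (1 / (1 + lam)) ≤ 1 * (1 / (1 + lam)) :=
      mul_le_mul_of_nonneg_right hu1 (by positivity)
    have h2 : ‖v‖ * (lam / (1 + lam)) ≤ 1 / 2 * (lam / (1 + lam)) :=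
      mul_le_mul_of_nonneg_right hv (by positivity)
    linarith
  have hun : ‖u‖ = 1 := Complex.norm_eq_one_of_pow_eq_one hu hm0
  have hvn : ‖v‖ = 1 := Complex.norm_eq_one_of_pow_eq_one hv hm0
  have hu0 : u ≠ 0 := by rintro rfl; simp at hun
  set τ : ℂ := v / u * ω with hτ
  have hτn : ‖τ‖ = 1 := by
    rw [hτ, norm_mul, norm_div, hun, hvn, hω]; norm_num
  have hτm : τ ^ m = ω ^ m := by
    rw [hτ, mul_pow, div_pow, hu, hv, div_one, one_mul]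
  have h1 : η ≤ m * ‖1 - τ‖ := by
    rw [← hτm] at hfar
    exact hfar.trans (norm_one_sub_pow_le hτn m)
  have hsC : ((1 + lam : ℝ) : ℂ) ≠ 0 := by exact_mod_cast hs.ne'
  have h2 : u * ((1 / (1 + lam) : ℝ) : ℂ) + v * (((lam / (1 + lam) : ℝ) : ℂ) * ω)
      = u * (((1 / (1 + lam) : ℝ) : ℂ) * (1 + lam * τ)) := by
    rw [hτ]
    push_cast
    push_cast at hsC
    field_simp
  rw [h2, norm_mul, hun, one_mul, norm_mul, hc1]
  have h4 : η / m ≤ ‖1 - τ‖ := by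
    rw [div_le_iff₀ (by positivity)]
    linarith
  have h5 : (η / m) ^ 2 ≤ ‖1 - τ‖ ^ 2 := pow_le_pow_left₀ (by positivity) h4 2
  have h3 : ‖1 + lam * τ‖ ^ 2 = (1 + lam) ^ 2 - lam * ‖1 - τ‖ ^ 2 := by
    have e1 : ‖τ‖ ^ 2 = 1 := by rw [hτn]; norm_num
    rw [Complex.sq_norm, Complex.normSq_apply] at e1 ⊢
    rw [Complex.sq_norm, Complex.normSq_apply]
    simp only [Complex.add_re, Complex.add_im, Complex.mul_re, Complex.mul_im, Complex.ofReal_re,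
      Complex.ofReal_im, Complex.one_re, Complex.one_im, Complex.sub_re, Complex.sub_im]
    nlinarith [e1]
  unfold rho
  apply Real.le_sqrt_of_sq_le
  rw [mul_pow, h3]
  have h6 : (1 + lam) ^ 2 ≤ 4 * P * lam := by nlinarith
  have h7 : (1 / (1 + lam)) ^ 2 * ((1 + lam) ^ 2 - lam * ‖1 - τ‖ ^ 2)
      = 1 - lam / (1 + lam) ^ 2 * ‖1 - τ‖ ^ 2 := by
    field_simp
  rw [h7]
  have h8 : 1 / (4 * P) ≤ lam / (1 + lam) ^ 2 := by
    rw [div_le_div_iff₀ (by positivity) (by positivity)]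
    linarith
  have h9 : (η / m) ^ 2 / (4 * P) ≤ lam / (1 + lam) ^ 2 * ‖1 - τ‖ ^ 2 := by
    calc (η / m) ^ 2 / (4 * P) = 1 / (4 * P) * (η / m) ^ 2 := by ring
      _ ≤ lam / (1 + lam) ^ 2 * ‖1 - τ‖ ^ 2 := by
        apply mul_le_mul h8 h5 (by positivity) (by positivity)
  linarith

end

end Pool.Agent.L5helper50.ACC
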