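import Pool.Agent.L5helper50.ACC.Global

/-!
# Residue classes of the number of ones
-/

set_option linter.all false

namespace Pool.Agent.L5helper50.ACC

open Finset

/-- roots of unity are not close to one -/
theorem root_far {z : ℂ} {q P : ℕ} (hq : 0 < q) (hqP : q ≤ P) (hz : z ^ q = 1) (hz1 : z ≠ 1) :
    1 / ((P : ℝ) + 1) ≤ ‖1 - z‖ := by
  have hn : ‖z‖ = 1 := by
    have h := congrArg norm hz
    rw [norm_pow, norm_one] at h
    exact (pow_eq_one_iff_of_nonneg (norm_nonneg z) hq.ne').1 h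
  have h0 : ∑ i ∈ range q, z ^ i = 0 := by
    have h1 : (1 - z) * ∑ i ∈ range q, z ^ i = 1 - z ^ q := mul_neg_geom_sum z q
    rw [hz, sub_self] at h1
    rcases mul_eq_zero.1 h1 with h2 | h2
    · exact absurd (sub_eq_zero.1 h2).symm hz1
    · exact h2
  have h1 : ∀ i : ℕ, ‖1 - z ^ i‖ ≤ (i : ℝ) * ‖1 - z‖ := by
    intro i
    rw [← mul_neg_geom_sum z i, norm_mul, mul_comm]
    refine mul_le_mul_of_nonneg_right ?_ (norm_nonneg _)
    refine (norm_sum_le _ _).trans ?_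
    have h2 : ∀ j ∈ range i, ‖z ^ j‖ ≤ 1 := by
      intro j _
      rw [norm_pow, hn, one_pow]
    refine (Finset.sum_le_sum h2).trans ?_
    simp
  have h2 : (q : ℝ) ≤ q * (q * ‖1 - z‖) := by
    have h3 : ∑ i ∈ range q, (1 - z ^ i) = q := by
      rw [Finset.sum_sub_distrib, h0]
      simp
    have h4 : ‖∑ i ∈ range q, (1 - z ^ i)‖ = q := by
      rw [h3]
      simp
    have h5 : ∀ i ∈ range q, ‖1 - z ^ i‖ ≤ (q : ℝ) * ‖1 - z‖ := by
      intro i hi
      refine (h1 i).trans (mul_le_mul_of_nonneg_right ?_ (norm_nonneg _))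
      exact_mod_cast (mem_range.1 hi).le
    calc (q : ℝ) = ‖∑ i ∈ range q, (1 - z ^ i)‖ := h4.symm
      _ ≤ ∑ i ∈ range q, ‖1 - z ^ i‖ := norm_sum_le _ _
      _ ≤ ∑ i ∈ range q, (q : ℝ) * ‖1 - z‖ := Finset.sum_le_sum h5
      _ = q * (q * ‖1 - z‖) := by rw [Finset.sum_const, card_range, nsmul_eq_mul]
  have hq' : (0 : ℝ) < q := by exact_mod_cast hq
  have h3 : 1 ≤ q * ‖1 - z‖ := by
    by_contra h
    push Not at h
    nlinarith
  have h4 : (q : ℝ) ≤ P := by exact_mod_cast hqP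
  rw [div_le_iff₀ (by positivity)]
  nlinarith [norm_nonneg (1 - z)]

theorem root_sum {z : ℂ} {q : ℕ} (hz : z ^ q = 1) :
    ∑ j ∈ range q, z ^ j = if z = 1 then (q : ℂ) else 0 := by
  by_cases h : z = 1
  · rw [if_pos h, h]
    simp
  · rw [if_neg h]
    have h1 : (1 - z) * ∑ i ∈ range q, z ^ i = 1 - z ^ q := mul_neg_geom_sum z q
    rw [hz, sub_self] at h1
    rcases mul_eq_zero.1 h1 with h2 | h2
    · exact absurd (sub_eq_zero.1 h2).symm h
    · exact h2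

theorem prod_theta {n : ℕ} (ω : ℂ) (x : Fin n → Bool) :
    ∏ i, (if x i = true then ω else 1) = ω ^ ones x := by
  rw [Finset.prod_ite, Finset.prod_const, Finset.prod_const_one, mul_one]
  rfl

/-- the number of points in a residue class, by characters -/
theorem card_residue {n q : ℕ} (hq : 0 < q) {ζ : ℂ} (hζ : IsPrimitiveRoot ζ q) (B : (Fin n → Bool) → Prop)
    [DecidablePred B] (r : ℕ) :
    (q : ℂ) * ((univ.filter fun x : Fin n → Bool => B x ∧ ones x ≡ r [MOD q]).card : ℂ) =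
      ∑ j ∈ range q, (ζ ^ (j * r))⁻¹ *
        ∑ x : Fin n → Bool, (if B x then (1 : ℂ) else 0) * (ζ ^ j) ^ ones x := by
  have hζ0 : ζ ≠ 0 := hζ.ne_zero hq.ne'
  have h1 : ∀ j ∈ range q, (ζ ^ (j * r))⁻¹ *
        ∑ x : Fin n → Bool, (if B x then (1 : ℂ) else 0) * (ζ ^ j) ^ ones x =
      ∑ x : Fin n → Bool, (if B x then (1 : ℂ) else 0) * (ζ ^ ((ones x : ℤ) - r)) ^ j := by
    intro j _
    rw [Finset.mul_sum]
    refine Finset.sum_congr rfl fun x _ => ?_
    have h2 : (ζ ^ ((ones x : ℤ) - r)) ^ j = (ζ ^ (j * r))⁻¹ * (ζ ^ j) ^ ones x := by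
      rw [← zpow_natCast, ← zpow_mul, ← pow_mul, ← zpow_natCast, ← zpow_natCast, ← zpow_neg,
        ← zpow_add₀ hζ0]
      congr 1
      push_cast
      ring
    rw [h2]
    ring
  rw [Finset.sum_congr rfl h1, Finset.sum_comm]
  have h3 : ∀ x : Fin n → Bool, ∑ j ∈ range q, (if B x then (1 : ℂ) else 0) *
      (ζ ^ ((ones x : ℤ) - r)) ^ j = if (B x ∧ ones x ≡ r [MOD q]) then (q : ℂ) else 0 := by
    intro x
    rw [← Finset.mul_sum, root_sum]
    · by_cases hB : B x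
      · by_cases hr : ones x ≡ r [MOD q]
        · have hw : ζ ^ ((ones x : ℤ) - r) = 1 :=
            (hζ.zpow_eq_one_iff_dvd _).2 (Nat.modEq_iff_dvd.1 hr.symm)
          have hc : B x ∧ ones x ≡ r [MOD q] := ⟨hB, hr⟩
          rw [if_pos hw, if_pos hB, if_pos hc, one_mul]
        · have hw : ¬ ζ ^ ((ones x : ℤ) - r) = 1 := fun h =>
            hr (Nat.modEq_iff_dvd.2 ((hζ.zpow_eq_one_iff_dvd _).1 h)).symm
          have hc : ¬ (B x ∧ ones x ≡ r [MOD q]) := fun h => hr h.2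
          rw [if_neg hw, if_neg hc, mul_zero]
      · have hc : ¬ (B x ∧ ones x ≡ r [MOD q]) := fun h => hB h.1
        rw [if_neg hB, if_neg hc, zero_mul]
    · rw [← zpow_natCast, ← zpow_mul, mul_comm, zpow_mul, zpow_natCast, hζ.pow_eq_one, one_zpow]
  rw [Finset.sum_congr rfl (fun x _ => h3 x), ← Finset.sum_filter, Finset.sum_const, nsmul_eq_mul,
    mul_comm]

theorem residues {m : ℕ} (hm : 2 ≤ m) (k c d P : ℕ) :
    ∃ δ : ℝ, 0 < δ ∧ ∃ n₀ : ℕ, ∀ (n s : ℕ) (C : Circuit n s) (U : Finset (Fin s)) (o : Fin s),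
      n₀ ≤ n → C.Sparse m k c d U → (U.card : ℝ) ≤ δ * n →
      ∀ F : (Fin n → Bool) → Bool, C.Determines U o F →
      ∀ (q r r' : ℕ), 0 < q → q ≤ P → r ≡ r' [MOD Nat.gcd q m] →
        |((univ.filter fun x : Fin n → Bool => F x = true ∧ ones x ≡ r [MOD q]).card : ℝ)
          - (univ.filter fun x : Fin n → Bool => F x = true ∧ ones x ≡ r' [MOD q]).card|
          ≤ (2 : ℝ) ^ ((1 - δ) * (n : ℝ)) := by
  have hη0 : (0 : ℝ) < 1 / ((P : ℝ) + 1) := by positivity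
  have hη2 : 1 / ((P : ℝ) + 1) ≤ 2 := by
    rw [div_le_iff₀ (by positivity)]
    have : (0 : ℝ) ≤ P := Nat.cast_nonneg P
    linarith
  obtain ⟨δ₀, hδ₀, n₀, hmain⟩ := main_bound hm k c d hη0 hη2
  refine ⟨δ₀ / 2, by positivity, max n₀ (⌈2 / δ₀⌉₊ + 1), ?_⟩
  intro n s C U o hn hC hU F hF q r r' hq hqP hrr
  have hn1 : n₀ ≤ n := (le_max_left _ _).trans hn
  have hn2 : ⌈2 / δ₀⌉₊ + 1 ≤ n := (le_max_right _ _).trans hn
  have hn3 : 0 < n := by omega
  have hn4 : 1 ≤ δ₀ / 2 * n := by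
    have h1 : 2 / δ₀ ≤ (n : ℝ) :=
      (Nat.le_ceil _).trans (by exact_mod_cast (Nat.le_succ _).trans hn2)
    rw [div_le_iff₀ hδ₀] at h1
    linarith
  have hn0 : (0 : ℝ) ≤ n := Nat.cast_nonneg n
  have hU' : (U.card : ℝ) ≤ δ₀ * n := by
    refine hU.trans (mul_le_mul_of_nonneg_right (by linarith) hn0)
  set ζ : ℂ := Complex.exp (2 * Real.pi * Complex.I / q) with hζdef
  have hζ : IsPrimitiveRoot ζ q := Complex.isPrimitiveRoot_exp q hq.ne'
  have hζ0 : ζ ≠ 0 := hζ.ne_zero hq.ne'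
  have hζn : ‖ζ‖ = 1 := by
    have h := congrArg norm hζ.pow_eq_one
    rw [norm_pow, norm_one] at h
    exact (pow_eq_one_iff_of_nonneg (norm_nonneg ζ) hq.ne').1 h
  set T : ℕ → ℂ := fun j => ∑ x : Fin n → Bool, (if F x = true then (1 : ℂ) else 0) *
    (ζ ^ j) ^ ones x with hT
  have hbound : ∀ j ∈ range q, ‖((ζ ^ (j * r))⁻¹ - (ζ ^ (j * r'))⁻¹) * T j‖ ≤
      2 * (2 : ℝ) ^ ((1 - δ₀) * (n : ℝ)) := by
    intro j _
    by_cases hj : (ζ ^ j) ^ m = 1
    · -- the two phases agree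
      have h1 : q ∣ j * m := by
        rw [← pow_mul] at hj
        exact (hζ.pow_eq_one_iff_dvd _).1 hj
      have h2 : (q : ℤ) ∣ (j : ℤ) * ((r : ℤ) - r') := by
        have h3 : ((Nat.gcd q m : ℕ) : ℤ) ∣ (r : ℤ) - r' := Nat.modEq_iff_dvd.1 hrr.symm
        have h4 : (q : ℤ) ∣ (j : ℤ) * (Nat.gcd q m : ℕ) := by
          have h5 := Nat.gcd_eq_gcd_ab q m
          rw [h5, mul_add]
          refine dvd_add ?_ ?_
          · exact ⟨j * Nat.gcdA q m, by ring⟩
          · have h6 : (q : ℤ) ∣ (j : ℤ) * m := by exact_mod_cast h1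
            rw [← mul_assoc]
            exact dvd_mul_of_dvd_left h6 _
        exact h4.trans (mul_dvd_mul_left _ h3)
      have h3 : ζ ^ (j * r) = ζ ^ (j * r') := by
        have h4 : ζ ^ ((j : ℤ) * ((r : ℤ) - r')) = 1 := (hζ.zpow_eq_one_iff_dvd _).2 h2
        rw [mul_sub, zpow_sub₀ hζ0, div_eq_one_iff_eq (zpow_ne_zero _ hζ0)] at h4
        exact_mod_cast h4
      rw [h3, sub_self, zero_mul, norm_zero]
      positivity
    · have h1 : 1 / ((P : ℝ) + 1) ≤ ‖1 - (ζ ^ j) ^ m‖ := by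
        refine root_far hq hqP ?_ hj
        have h7 : ((ζ ^ j) ^ m) ^ q = (ζ ^ q) ^ (j * m) := by ring
        rw [h7, hζ.pow_eq_one, one_pow]
      have h2 := hmain n s C U o hn1 hC hU' F hF (ζ ^ j) (by rw [norm_pow, hζn, one_pow]) h1
        (fun _ b => if b = true then ζ ^ j else 1) ⟨0, hn3⟩ (by
          intro i b
          by_cases hb : b = true
          · rw [if_pos hb, norm_pow, hζn, one_pow]
          · rw [if_neg hb, norm_one]) (by
          intro i _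
          exact ⟨if_neg (by simp), if_pos rfl⟩)
      have h3 : ∀ x : Fin n → Bool, (if F x = true then (1 : ℂ) else 0) *
          ∏ i, (if x i = true then ζ ^ j else 1) =
          (if F x = true then (1 : ℂ) else 0) * (ζ ^ j) ^ ones x := by
        intro x
        rw [prod_theta]
      have h4 : ‖T j‖ ≤ (2 : ℝ) ^ ((1 - δ₀) * (n : ℝ)) := by
        rw [hT]
        simp only [← h3]
        exact h2
      have h5 : ‖(ζ ^ (j * r))⁻¹ - (ζ ^ (j * r'))⁻¹‖ ≤ 2 := by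
        refine (norm_sub_le _ _).trans ?_
        rw [norm_inv, norm_inv, norm_pow, norm_pow, hζn, one_pow, one_pow]
        norm_num
      rw [norm_mul]
      exact mul_le_mul h5 h4 (norm_nonneg _) (by norm_num)
  have hr := card_residue hq hζ (fun x => F x = true) r
  have hr' := card_residue hq hζ (fun x => F x = true) r'
  set A := (univ.filter fun x : Fin n → Bool => F x = true ∧ ones x ≡ r [MOD q]).card with hA
  set A' := (univ.filter fun x : Fin n → Bool => F x = true ∧ ones x ≡ r' [MOD q]).card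
    with hA'
  have h1 : (q : ℂ) * ((A : ℂ) - (A' : ℂ)) =
      ∑ j ∈ range q, ((ζ ^ (j * r))⁻¹ - (ζ ^ (j * r'))⁻¹) * T j := by
    rw [mul_sub, hr, hr', ← Finset.sum_sub_distrib]
    refine Finset.sum_congr rfl fun j _ => ?_
    rw [sub_mul]
  have hq' : (0 : ℝ) < q := by exact_mod_cast hq
  have h2 : (q : ℝ) * |(A : ℝ) - A'| ≤ q * (2 * (2 : ℝ) ^ ((1 - δ₀) * (n : ℝ))) := by
    have h3 : (q : ℝ) * |(A : ℝ) - A'| = ‖(q : ℂ) * ((A : ℂ) - (A' : ℂ))‖ := by
      rw [norm_mul, Complex.norm_natCast]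
      congr 1
      have h4 : ((A : ℂ) - (A' : ℂ)) = (((A : ℝ) - (A' : ℝ) : ℝ) : ℂ) := by push_cast; rfl
      rw [h4, Complex.norm_real, Real.norm_eq_abs]
    rw [h3, h1]
    refine (norm_sum_le _ _).trans ((Finset.sum_le_sum hbound).trans ?_)
    rw [Finset.sum_const, card_range, nsmul_eq_mul]
  have h3 : |(A : ℝ) - A'| ≤ 2 * (2 : ℝ) ^ ((1 - δ₀) * (n : ℝ)) := le_of_mul_le_mul_left h2 hq'
  refine h3.trans ?_
  calc (2 : ℝ) * (2 : ℝ) ^ ((1 - δ₀) * (n : ℝ)) = (2 : ℝ) ^ (1 + (1 - δ₀) * (n : ℝ)) := by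
        rw [Real.rpow_add (by norm_num), Real.rpow_one]
    _ ≤ (2 : ℝ) ^ ((1 - δ₀ / 2) * (n : ℝ)) := by
        apply Real.rpow_le_rpow_of_exponent_le (by norm_num)
        nlinarith

end Pool.Agent.L5helper50.ACC
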