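import Pool.Agent.L5helper50.ACC.MajStrong
import Pool.Agent.L5helper50.ACC.Residues

namespace Pool.Agent.L5helper50.ACC

open Finset

/-- AND of literals (and with `b = true` its negation, so OR and NOT) is a counting gate. -/
theorem isCount_andOr {n s m k : ℕ} (hk : 1 ≤ k) (C : Circuit n s) (g : Fin s)
    (a : Fin n ⊕ Fin s → Bool) (b : Bool)
    (h : ∀ y, C.fn g y = xor b (decide (∀ i ∈ C.ch g, y i = a i))) : C.IsCount m k g := by
  refine ⟨fun _ => 0, a, fun _ j => xor b (decide (j = 0)), fun y => ?_⟩
  rw [h]
  congr 2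
  rw [eq_iff_iff, Nat.min_eq_zero_iff]
  constructor
  · intro h1
    right
    rw [card_eq_zero, filter_eq_empty_iff]
    intro i hi h2
    exact h2 (h1 i hi)
  · rintro (h1 | h1) i hi
    · omega
    · rw [card_eq_zero, filter_eq_empty_iff] at h1
      simpa using h1 hi

/-- A `MOD_m` gate (any weights in `ℤ/m`, any accepting set) is a counting gate. -/
theorem isCount_mod {n s m k : ℕ} (C : Circuit n s) (g : Fin s) (w : Fin n ⊕ Fin s → ZMod m)
    (T : ZMod m → Bool) (h : ∀ y, C.fn g y = T (∑ i ∈ C.ch g, if y i then w i else 0)) :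
    C.IsCount m k g :=
  ⟨w, fun _ => true, fun r _ => T r, h⟩

theorem Sparsely.mono {n m k c d : ℕ} {δ δ' : ℝ} {F : (Fin n → Bool) → Bool} (h : δ ≤ δ')
    (hF : Sparsely m k c d δ F) : Sparsely m k c d δ' F := by
  obtain ⟨s, C, U, o, h1, h2, h3⟩ := hF
  exact ⟨s, C, U, o, h1, h2.trans (mul_le_mul_of_nonneg_right h (Nat.cast_nonneg n)), h3⟩

/-- Errors against a symmetric function which is not `m`-periodic at `l`. -/
theorem symmetric_errors {n m P : ℕ} (hP : 0 < P) {F : (Fin n → Bool) → Bool} {f : ℕ → Bool}
    {l : ℕ} (hln : l + m ≤ n)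
    (h : |(acc F l : ℝ) / n.choose l - acc F (l + m) / n.choose (l + m)| ≤ 1 / P)
    (hf : f l ≠ f (l + m)) :
    (1 - 1 / P) * min (n.choose l : ℝ) (n.choose (l + m)) ≤
      (univ.filter fun x : Fin n → Bool => F x ≠ f (ones x)).card := by
  classical
  have hm0 : m ≠ 0 := by
    rintro rfl
    exact hf rfl
  have hPR : (1 : ℝ) ≤ P := by exact_mod_cast hP
  have hP1 : 1 / (P : ℝ) ≤ 1 := by rw [div_le_one (by linarith)]; exact hPR
  set err : ℕ → ℕ := fun j => (univ.filter fun x : Fin n → Bool =>
    F x ≠ f (ones x) ∧ ones x = j).card with herr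
  have hfalse : ∀ j, f j = false → err j = acc F j := by
    intro j hj
    rw [herr, acc]
    simp only
    congr 1
    ext x
    simp only [mem_filter, mem_univ, true_and]
    constructor
    · rintro ⟨h1, h2⟩
      rw [h2, hj] at h1
      exact ⟨by simpa using h1, h2⟩
    · rintro ⟨h1, h2⟩
      rw [h2, hj]
      exact ⟨by simpa using h1, rfl⟩
  have htrue : ∀ j, f j = true → err j + acc F j = n.choose j := by
    intro j hj
    rw [herr, acc, ← card_ones]
    simp only
    rw [← card_union_of_disjoint]
    · congr 1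
      ext x
      simp only [mem_union, mem_filter, mem_univ, true_and]
      constructor
      · rintro (⟨_, h⟩ | ⟨_, h⟩) <;> exact h
      · intro h2
        rw [h2, hj]
        by_cases h4 : F x = true
        · exact Or.inr ⟨h4, rfl⟩
        · exact Or.inl ⟨h4, rfl⟩
    · rw [disjoint_left]
      intro x hx hx'
      simp only [mem_filter, mem_univ, true_and] at hx hx'
      rw [hx.2, hj] at hx
      exact hx.1 hx'.1
  have hsum : err l + err (l + m) ≤
      (univ.filter fun x : Fin n → Bool => F x ≠ f (ones x)).card := by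
    rw [herr]
    simp only
    rw [← card_union_of_disjoint]
    · apply card_le_card
      intro x hx
      simp only [mem_union, mem_filter, mem_univ, true_and] at hx ⊢
      rcases hx with hx | hx
      · exact hx.1
      · exact hx.1
    · rw [disjoint_left]
      intro x hx hx'
      simp only [mem_filter, mem_univ, true_and] at hx hx'
      omega
  have hc1 : (0 : ℝ) < n.choose l := by exact_mod_cast Nat.choose_pos (by omega : l ≤ n)
  have hc2 : (0 : ℝ) < n.choose (l + m) := by exact_mod_cast Nat.choose_pos hln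
  set p : ℝ := (acc F l : ℝ) / n.choose l with hp
  set p' : ℝ := (acc F (l + m) : ℝ) / n.choose (l + m) with hp'
  have hp0 : 0 ≤ p := by positivity
  have hp'0 : 0 ≤ p' := by positivity
  have hp1 : p ≤ 1 := by
    rw [hp, div_le_one hc1]
    exact_mod_cast acc_le F _
  have hp'1 : p' ≤ 1 := by
    rw [hp', div_le_one hc2]
    exact_mod_cast acc_le F _
  have e1 : (acc F l : ℝ) = p * n.choose l := by rw [hp]; field_simp
  have e2 : (acc F (l + m) : ℝ) = p' * n.choose (l + m) := by rw [hp']; field_simp
  have hab := abs_le.1 h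
  set M := min (n.choose l : ℝ) (n.choose (l + m)) with hM
  have hM1 : M ≤ n.choose l := min_le_left _ _
  have hM2 : M ≤ n.choose (l + m) := min_le_right _ _
  have hM0 : 0 ≤ M := le_min hc1.le hc2.le
  have hsumR : (err l : ℝ) + err (l + m) ≤
      ((univ.filter fun x : Fin n → Bool => F x ≠ f (ones x)).card : ℕ) := by
    exact_mod_cast hsum
  refine le_trans ?_ hsumR
  rcases Bool.eq_false_or_eq_true (f l) with h1 | h1
  · have h2 : f (l + m) = false := by
      rcases Bool.eq_false_or_eq_true (f (l + m)) with h2 | h2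
      · exact absurd (h1.trans h2.symm) hf
      · exact h2
    have h3 : (err l : ℝ) = (1 - p) * n.choose l := by
      have := htrue l h1
      have h4 : (err l : ℝ) + acc F l = n.choose l := by exact_mod_cast this
      rw [e1] at h4
      linarith
    have h4 : (err (l + m) : ℝ) = p' * n.choose (l + m) := by
      rw [hfalse _ h2, e2]
    rw [h3, h4]
    have h5 : (1 - p) * M ≤ (1 - p) * n.choose l := mul_le_mul_of_nonneg_left hM1 (by linarith)
    have h6 : p' * M ≤ p' * n.choose (l + m) := mul_le_mul_of_nonneg_left hM2 hp'0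
    have h7 : (1 - 1 / P) * M ≤ ((1 - p) + p') * M :=
      mul_le_mul_of_nonneg_right (by linarith [hab.2]) hM0
    linarith
  · have h2 : f (l + m) = true := by
      rcases Bool.eq_false_or_eq_true (f (l + m)) with h2 | h2
      · exact h2
      · exact absurd (h1.trans h2.symm) hf
    have h3 : (err l : ℝ) = p * n.choose l := by rw [hfalse _ h1, e1]
    have h4 : (err (l + m) : ℝ) = (1 - p') * n.choose (l + m) := by
      have := htrue (l + m) h2
      have h4 : (err (l + m) : ℝ) + acc F (l + m) = n.choose (l + m) := by exact_mod_cast this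
      rw [e2] at h4
      linarith
    rw [h3, h4]
    have h5 : p * M ≤ p * n.choose l := mul_le_mul_of_nonneg_left hM1 hp0
    have h6 : (1 - p') * M ≤ (1 - p') * n.choose (l + m) :=
      mul_le_mul_of_nonneg_left hM2 (by linarith)
    have h7 : (1 - 1 / P) * M ≤ (p + (1 - p')) * M :=
      mul_le_mul_of_nonneg_right (by linarith [hab.1]) hM0
    linarith

end Pool.Agent.L5helper50.ACC
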