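import Pool.Agent.L5helper50.ACC.Elem

namespace Pool.Agent.L5helper50.ACC

open Finset

variable {n s : ℕ}

/-- Data of the locality of the gates outside `Hs`. -/
structure Circuit.Hubs (C : Circuit n s) (Hs : Finset (Fin s)) (R : Finset (Fin n))
    (A : Fin s → Finset (Fin n)) : Prop where
  sub : ∀ g ∉ Hs, A g ⊆ R
  card : ∀ g ∉ Hs, (A g).card ≤ 1
  inp : ∀ g ∉ Hs, ∀ i, Sum.inl i ∈ C.ch g → i ∈ R → i ∈ A g
  gat : ∀ g ∉ Hs, ∀ u ∉ Hs, Sum.inr u ∈ C.ch g → A u ⊆ A g

variable {C : Circuit n s} {Hs : Finset (Fin s)} {R : Finset (Fin n)} {A : Fin s → Finset (Fin n)}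

theorem Circuit.Hubs.loc_ev (h : C.Hubs Hs R A) (P : Finset (Fin s)) (z : Fin n → Bool)
    (g : Fin s) : Loc R z (fun x => C.ev Hs P x g) := by
  by_cases hg : g ∈ Hs
  · refine ⟨∅, empty_subset _, by simp, fun x _ y _ _ => ?_⟩
    beta_reduce
    rw [C.ev_of_mem hg, C.ev_of_mem hg]
  · refine ⟨A g, h.sub g hg, h.card g hg, fun x hx y hy hA => ?_⟩
    rw [mem_cube] at hx hy
    exact C.ev_local h.inp h.gat (fun i hi => (hx i hi).trans (hy i hi).symm) g hg hA

theorem Circuit.Hubs.loc_arg (h : C.Hubs Hs R A) (P : Finset (Fin s)) (z : Fin n → Bool)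
    (i : Fin n ⊕ Fin s) : Loc R z (fun x => Sum.elim x (C.ev Hs P x) i) := by
  rcases i with i | u
  · by_cases hi : i ∈ R
    · exact ⟨{i}, by simpa using hi, by simp, fun x _ y _ hA => hA i (mem_singleton_self i)⟩
    · refine ⟨∅, empty_subset _, by simp, fun x hx y hy _ => ?_⟩
      rw [mem_cube] at hx hy
      exact (hx i hi).trans (hy i hi).symm
  · exact h.loc_ev P z u

/-- The indicator that the gate `g` takes the value `t`. -/
noncomputable def ind (C : Circuit n s) (Hs P : Finset (Fin s)) (g : Fin s) (t : Bool)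
    (x : Fin n → Bool) : ℂ :=
  if C.fn g (Sum.elim x (C.ev Hs P x)) = t then 1 else 0

theorem addChar_sum {m : ℕ} (ψ : AddChar (ZMod m) ℂ) {ι : Type} (J : Finset ι)
    (f : ι → ZMod m) : ψ (∑ i ∈ J, f i) = ∏ i ∈ J, ψ (f i) := by
  classical
  induction J using Finset.induction_on with
  | empty => simp
  | insert a J ha ih => rw [sum_insert ha, prod_insert ha, AddChar.map_add_eq_mul, ih]

section count

variable {m : ℕ} {z : Fin n → Bool}

/-- Indicator of a weighted sum modulo `m`. -/
theorem comb_mod [NeZero m] {ι : Type} (S : Finset ι) (y : ι → (Fin n → Bool) → Bool)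
    (hy : ∀ i ∈ S, Loc R z (y i)) (w : ι → ZMod m) (r : ZMod m) :
    Comb m R z 1 (fun x => if (∑ i ∈ S, if y i x then w i else 0) = r then 1 else 0) := by
  set ψ : AddChar (ZMod m) ℂ := ZMod.stdAddChar with hψ
  set σ : (Fin n → Bool) → ZMod m := fun x => ∑ i ∈ S, if y i x then w i else 0 with hσ
  have hm0 : (m : ℂ) ≠ 0 := by exact_mod_cast NeZero.ne m
  have hm0' : (0 : ℝ) < m := by exact_mod_cast NeZero.pos m
  have hpow : ∀ r : ZMod m, ψ r ^ m = 1 := by
    intro r
    rw [← AddChar.map_nsmul_eq_pow]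
    simp
  have hval : ∀ r : ZMod m, Valid m (ψ r) := fun r => Or.inr (hpow r)
  have hnorm : ∀ r : ZMod m, ‖ψ r‖ = 1 := fun r =>
    Complex.norm_eq_one_of_pow_eq_one (hpow r) (NeZero.ne m)
  refine ⟨ZMod m, univ, fun j => (m : ℂ)⁻¹ * ψ (-(j * r)), fun j x => ψ (j * σ x), ?_, ?_, ?_⟩
  · intro j _
    have h1 : El m R z (fun x => ∏ i ∈ S, ψ (j * if y i x then w i else 0)) := by
      apply El.prod
      intro i hi
      exact El.of_loc (hy i hi) (fun b => ψ (j * if b then w i else 0)) (fun b => hval _)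
    have h2 : (fun x => ψ (j * σ x)) = (fun x => ∏ i ∈ S, ψ (j * if y i x then w i else 0)) := by
      funext x
      rw [hσ]
      simp only
      rw [mul_sum, addChar_sum]
    rw [← h2] at h1
    exact h1
  · simp only [norm_mul, hnorm, mul_one, norm_inv, Complex.norm_natCast, sum_const, card_univ,
      ZMod.card, nsmul_eq_mul]
    rw [mul_inv_cancel₀ hm0'.ne']
  · intro x _
    have h6 : ∀ j : ZMod m, (m : ℂ)⁻¹ * ψ (-(j * r)) * ψ (j * σ x)
        = (m : ℂ)⁻¹ * ψ (j * (σ x - r)) := by
      intro j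
      rw [mul_assoc, ← AddChar.map_add_eq_mul]
      congr 2
      ring
    simp_rw [h6]
    rw [← mul_sum, AddChar.sum_mulShift _ (ZMod.isPrimitive_stdAddChar m), ZMod.card]
    change (if σ x = r then (1 : ℂ) else 0) = _
    by_cases hr : σ x = r
    · simp [hr, hm0]
    · have hr' : ¬ σ x - r = 0 := by rw [sub_eq_zero]; exact hr
      rw [if_neg hr, if_neg hr']
      simp

/-- Indicator of the number of false literals. -/
theorem comb_card [NeZero m] {ι : Type} (S : Finset ι) (y : ι → (Fin n → Bool) → Bool)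
    (hy : ∀ i ∈ S, Loc R z (y i)) (a : ι → Bool) (j : ℕ) :
    Comb m R z (2 ^ j)
      (fun x => if (S.filter fun i => y i x ≠ a i).card = j then 1 else 0) := by
  classical
  set Q : ℕ := S.card + j + 1 with hQ
  have hQ0 : Q ≠ 0 := by omega
  have hQC : (Q : ℂ) ≠ 0 := by exact_mod_cast hQ0
  set ζ : ℂ := Complex.exp (2 * Real.pi * Complex.I / Q) with hζdef
  have hζ : IsPrimitiveRoot ζ Q := Complex.isPrimitiveRoot_exp Q hQ0
  have hζn : ‖ζ‖ = 1 := Complex.norm_eq_one_of_pow_eq_one hζ.pow_eq_one hQ0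
  refine ⟨ℕ, range Q, fun l => (Q : ℂ)⁻¹ * (2 ^ j * (ζ ^ l) ^ (Q - j)),
    fun l x => ∏ i ∈ S, (if y i x ≠ a i then ζ ^ l / 2 else 1), ?_, ?_, ?_⟩
  · intro l _
    apply El.prod
    intro i hi
    apply El.of_loc (hy i hi) (fun b => if b ≠ a i then ζ ^ l / 2 else 1)
    intro b
    split_ifs
    · left
      rw [norm_div, norm_pow, hζn]
      simp
    · exact Valid.one
  · simp only [norm_mul, norm_inv, Complex.norm_natCast, norm_pow, Complex.norm_ofNat, hζn,
      one_pow, mul_one, sum_const, card_range, nsmul_eq_mul]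
    have : (Q : ℝ) ≠ 0 := by exact_mod_cast hQ0
    rw [← mul_assoc, mul_inv_cancel₀ this, one_mul]
  · intro x _
    set c : ℕ := (S.filter fun i => y i x ≠ a i).card with hc
    have hcS : c ≤ S.card := card_filter_le _ _
    have h1 : ∀ l : ℕ, ∏ i ∈ S, (if y i x ≠ a i then ζ ^ l / 2 else (1 : ℂ))
        = (ζ ^ l / 2) ^ c := by
      intro l
      rw [prod_ite, prod_const_one, mul_one, prod_const]
    have h2 : ∀ l : ℕ, (Q : ℂ)⁻¹ * (2 ^ j * (ζ ^ l) ^ (Q - j)) *
        ∏ i ∈ S, (if y i x ≠ a i then ζ ^ l / 2 else (1 : ℂ))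
        = (Q : ℂ)⁻¹ * 2 ^ j / 2 ^ c * (ζ ^ (Q - j + c)) ^ l := by
      intro l
      rw [h1, div_pow, pow_add ζ, mul_pow, ← pow_mul, ← pow_mul, ← pow_mul, ← pow_mul,
        mul_comm (Q - j) l, mul_comm c l]
      ring
    simp_rw [h2]
    rw [← mul_sum]
    by_cases hcj : c = j
    · rw [if_pos hcj, hcj, show Q - j + j = Q by omega, hζ.pow_eq_one]
      simp only [one_pow, sum_const, card_range, nsmul_eq_mul, mul_one]
      have : (2 : ℂ) ^ j ≠ 0 := pow_ne_zero _ two_ne_zero
      field_simp
    · rw [if_neg hcj]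
      have hne : ζ ^ (Q - j + c) ≠ 1 := by
        intro h
        have hdvd := (hζ.pow_eq_one_iff_dvd _).1 h
        obtain ⟨t, ht⟩ := hdvd
        rcases Nat.lt_or_ge c j with h3 | h3
        · have h4 : 0 < Q - j + c := by omega
          have h5 : Q - j + c < Q := by omega
          rw [ht] at h4 h5
          rcases Nat.eq_zero_or_pos t with h6 | h6
          · simp [h6] at h4
          · nlinarith
        · have h4 : Q < Q - j + c := by omega
          have h5 : Q - j + c < 2 * Q := by omega
          rw [ht] at h4 h5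
          have h6 : 1 < t := by
            by_contra h
            push Not at h
            nlinarith
          have h7 : t < 2 := by
            by_contra h
            push Not at h
            nlinarith
          omega
      rw [geom_sum_eq hne, ← pow_mul, mul_comm (Q - j + c) Q, pow_mul, hζ.pow_eq_one, one_pow,
        sub_self, zero_div, mul_zero]

/-- Indicator of a counting gate. -/
theorem comb_count [NeZero m] {ι : Type} (k : ℕ) (S : Finset ι) (y : ι → (Fin n → Bool) → Bool)
    (hy : ∀ i ∈ S, Loc R z (y i)) (w : ι → ZMod m) (a : ι → Bool) (G : ZMod m → ℕ → Bool)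
    (t : Bool) :
    Comb m R z (m * 2 ^ k)
      (fun x => if G (∑ i ∈ S, if y i x then w i else 0)
        (min k (S.filter fun i => y i x ≠ a i).card) = t then 1 else 0) := by
  classical
  set b : ZMod m → ℕ → ℂ := fun r j => if G r j = t then 1 else 0 with hb
  have hbn : ∀ r j j', ‖b r j - b r j'‖ ≤ 1 := by
    intro r j j'
    rw [hb]
    simp only
    split_ifs <;> simp
  have hbn' : ∀ r j, ‖b r j‖ ≤ 1 := by
    intro r j
    rw [hb]
    simp only
    split_ifs <;> simp
  have h1 : ∀ r : ZMod m, Comb m R z (2 ^ k) (fun x =>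
      (if (∑ i ∈ S, if y i x then w i else 0) = r then (1 : ℂ) else 0) *
      (b r k * 1 + ∑ j ∈ range k, (b r j - b r k) *
        (if (S.filter fun i => y i x ≠ a i).card = j then 1 else 0))) := by
    intro r
    have h2 : Comb m R z (2 ^ k) (fun x => b r k * 1 + ∑ j ∈ range k, (b r j - b r k) *
        (if (S.filter fun i => y i x ≠ a i).card = j then 1 else 0)) := by
      have h3 := ((Comb.of_el (El.const Valid.one)).smul (b r k)).add
        (Comb.sum (range k) (fun j x => (b r j - b r k) *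
          (if (S.filter fun i => y i x ≠ a i).card = j then 1 else 0))
          (fun j => ‖b r j - b r k‖ * 2 ^ j)
          (fun j _ => (comb_card (m := m) S y hy a j).smul (b r j - b r k)))
      refine h3.mono ?_
      have h4 : ∑ j ∈ range k, ‖b r j - b r k‖ * (2 : ℝ) ^ j ≤ ∑ j ∈ range k, (2 : ℝ) ^ j := by
        apply sum_le_sum
        intro j _
        have := mul_le_mul_of_nonneg_right (hbn r j k) (show (0 : ℝ) ≤ 2 ^ j by positivity)
        linarith
      have h5 : ∑ j ∈ range k, (2 : ℝ) ^ j = 2 ^ k - 1 := by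
        rw [geom_sum_eq (by norm_num)]
        norm_num
      have h6 := hbn' r k
      linarith
    have h7 := (comb_mod S y hy w r).mul h2 zero_le_one
    rw [one_mul] at h7
    exact h7
  have h8 := Comb.sum (univ : Finset (ZMod m)) _ (fun _ => (2 : ℝ) ^ k) (fun r _ => h1 r)
  rw [sum_const, card_univ, ZMod.card, nsmul_eq_mul] at h8
  refine h8.congr fun x _ => ?_
  beta_reduce
  rw [sum_eq_single (∑ i ∈ S, if y i x then w i else 0)]
  · rw [if_pos rfl, one_mul, mul_one]
    set r := ∑ i ∈ S, (if y i x then w i else 0) with hr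
    set c := (S.filter fun i => y i x ≠ a i).card with hc
    by_cases hck : c < k
    · rw [min_eq_right hck.le]
      have : ∑ j ∈ range k, (b r j - b r k) * (if c = j then (1 : ℂ) else 0) = b r c - b r k := by
        rw [sum_eq_single c]
        · simp
        · intro j _ hj
          rw [if_neg (Ne.symm hj), mul_zero]
        · intro h
          exact absurd (mem_range.2 hck) h
      rw [this, hb]
      simp
    · rw [min_eq_left (not_lt.1 hck)]
      have : ∑ j ∈ range k, (b r j - b r k) * (if c = j then (1 : ℂ) else 0) = 0 := by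
        apply sum_eq_zero
        intro j hj
        rw [mem_range] at hj
        rw [if_neg (by omega), mul_zero]
      rw [this, add_zero, hb]
  · intro r _ hr
    rw [if_neg (Ne.symm hr), zero_mul]
  · intro h
    exact absurd (mem_univ _) h

end count

theorem Circuit.Hubs.ind_gate (h : C.Hubs Hs R A) (P : Finset (Fin s)) (z : Fin n → Bool)
    {m : ℕ} [NeZero m] {k : ℕ} {g : Fin s} (hg : C.IsCount m k g) (t : Bool) :
    Comb m R z (m * 2 ^ k) (ind C Hs P g t) := by
  obtain ⟨w, a, G, hfn⟩ := hg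
  have h1 := comb_count k (C.ch g) (fun i x => Sum.elim x (C.ev Hs P x) i)
    (fun i _ => h.loc_arg P z i) w a G t
  refine h1.congr fun x _ => ?_
  rw [ind, hfn]

end Pool.Agent.L5helper50.ACC
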