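import Pool.Agent.L5helper50.ACC.Struct

namespace Pool.Agent.L5helper50.ACC

open Finset

/-- `2^((1-δ)n)`. -/
theorem two_rpow_eq (δ : ℝ) (n : ℕ) :
    (2 : ℝ) ^ ((1 - δ) * (n : ℝ)) = 2 ^ n * ((2 : ℝ) ^ (-δ)) ^ n := by
  rw [← Real.rpow_natCast ((2 : ℝ) ^ (-δ)) n, ← Real.rpow_mul (by norm_num),
    ← Real.rpow_natCast 2 n, ← Real.rpow_add (by norm_num)]
  congr 1
  ring

theorem card_erase_ge {α : Type} [DecidableEq α] (R : Finset α) (a : α) :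
    R.card ≤ (R.erase a).card + 1 := by
  by_cases h : a ∈ R
  · rw [card_erase_of_mem h]; omega
  · rw [erase_eq_of_notMem h]; omega

theorem Weight.anti {n m : ℕ} {ρ : ℝ} {R R' : Finset (Fin n)} {θ : Fin n → Bool → ℂ}
    (h : Weight m ρ R θ) (hR : R' ⊆ R) : Weight m ρ R' θ :=
  ⟨h.mass, fun i hi => h.small i (hR hi)⟩

/-- The exponential sum bound for a contraction factor `ρ`. -/
theorem core_bound {m : ℕ} (hm : 2 ≤ m) (k c d : ℕ) {ρ : ℝ} (hρ0 : 0 < ρ) (hρ1 : ρ < 1) :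
    ∃ δ : ℝ, 0 < δ ∧ ∀ (n s : ℕ) (C : Circuit n s) (U : Finset (Fin s)) (o : Fin s),
      C.Sparse m k c d U → (U.card : ℝ) ≤ δ * n →
      ∀ F : (Fin n → Bool) → Bool, C.Determines U o F →
      ∀ (θ : Fin n → Bool → ℂ) (i₀ : Fin n), Weight m ρ (univ.erase i₀) θ →
        ‖∑ x : Fin n → Bool, (if F x = true then (1 : ℂ) else 0) * ∏ i, θ i (x i)‖
          ≤ ρ⁻¹ * ((2 : ℝ) ^ (-δ)) ^ n := by
  have : NeZero m := ⟨by omega⟩
  have hW : (1 : ℝ) ≤ 2 * (m * 2 ^ k) := by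
    have h1 : (2 : ℝ) ≤ m := by exact_mod_cast hm
    have h2 : (1 : ℝ) ≤ 2 ^ k := one_le_pow₀ (by norm_num)
    nlinarith
  set τ := Real.sqrt ρ with hτ
  have hτ0 : 0 < τ := Real.sqrt_pos.2 hρ0
  have hτ1 : τ < 1 := by
    rw [hτ, Real.sqrt_lt' one_pos]
    simpa using hρ1
  have hττ : τ * τ = ρ := Real.mul_self_sqrt hρ0.le
  obtain ⟨N, hN, δ₁, hδ₁, hstr⟩ := structure_thm m k c d hW hτ0 hτ1
  have hNR : (0 : ℝ) < N := by exact_mod_cast hN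
  set δ₂ : ℝ := -Real.log τ / (N * Real.log 2) with hδ₂
  have hlogτ : Real.log τ < 0 := Real.log_neg hτ0 hτ1
  have hlog2 : 0 < Real.log 2 := Real.log_pos (by norm_num)
  have hδ₂0 : 0 < δ₂ := by
    rw [hδ₂]
    apply div_pos (by linarith) (by positivity)
  refine ⟨min δ₁ δ₂, lt_min hδ₁ hδ₂0, ?_⟩
  intro n s C U o hC hU F hF θ i₀ hθ
  set δ := min δ₁ δ₂ with hδ
  have hδ0 : 0 < δ := lt_min hδ₁ hδ₂0
  have hn0 : (0 : ℝ) ≤ n := Nat.cast_nonneg n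
  obtain ⟨Hs, R, A, hHub, hUH, hgate, hnR, hsmall⟩ := hstr n s C U hC
    (hU.trans (mul_le_mul_of_nonneg_right (min_le_left _ _) hn0))
  have hHub' := hHub.mono (erase_subset i₀ R)
  have hb := hHub'.bound hgate hρ0.le (hθ.anti (erase_subset_erase i₀ (subset_univ R))) o
    (hF.mono hUH)
  refine hb.trans ?_
  have hRe : R.card ≤ (R.erase i₀).card + 1 := card_erase_ge R i₀
  have h1 : (2 * (m * 2 ^ k) : ℝ) ^ Hs.card * ρ ^ (R.erase i₀).card ≤ ρ⁻¹ * τ ^ R.card := by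
    have h2 : ρ ^ (R.erase i₀).card ≤ ρ⁻¹ * ρ ^ R.card := by
      have h3 : ρ ^ ((R.erase i₀).card + 1) ≤ ρ ^ R.card :=
        pow_le_pow_of_le_one hρ0.le hρ1.le hRe
      calc ρ ^ (R.erase i₀).card = ρ⁻¹ * ρ ^ ((R.erase i₀).card + 1) := by
            rw [pow_succ']; field_simp
        _ ≤ ρ⁻¹ * ρ ^ R.card := mul_le_mul_of_nonneg_left h3 (by positivity)
    calc (2 * (m * 2 ^ k) : ℝ) ^ Hs.card * ρ ^ (R.erase i₀).card
        ≤ (2 * (m * 2 ^ k) : ℝ) ^ Hs.card * (ρ⁻¹ * ρ ^ R.card) :=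
          mul_le_mul_of_nonneg_left h2 (by positivity)
      _ = ((2 * (m * 2 ^ k) : ℝ) ^ Hs.card * τ ^ R.card) * (ρ⁻¹ * τ ^ R.card) := by
          rw [show ρ ^ R.card = τ ^ R.card * τ ^ R.card by rw [← mul_pow, hττ]]; ring
      _ ≤ 1 * (ρ⁻¹ * τ ^ R.card) := mul_le_mul_of_nonneg_right hsmall (by positivity)
      _ = ρ⁻¹ * τ ^ R.card := one_mul _
  refine h1.trans (mul_le_mul_of_nonneg_left ?_ (by positivity))
  have h5 : τ ^ R.card = Real.exp (R.card * Real.log τ) := by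
    rw [mul_comm (R.card : ℝ), ← Real.rpow_natCast, Real.rpow_def_of_pos hτ0]
  have h6 : ((2 : ℝ) ^ (-δ)) ^ n = Real.exp (-(δ * n) * Real.log 2) := by
    rw [← Real.rpow_natCast, ← Real.rpow_mul (by norm_num), Real.rpow_def_of_pos (by norm_num)]
    congr 1
    ring
  rw [h5, h6]
  apply Real.exp_le_exp.2
  have h7 : (n : ℝ) ≤ N * R.card := by exact_mod_cast hnR
  have h8 : R.card * Real.log τ ≤ (n / N : ℝ) * Real.log τ := by
    apply mul_le_mul_of_nonpos_right _ hlogτ.le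
    rw [div_le_iff₀ hNR]
    linarith
  have h9 : (n / N : ℝ) * Real.log τ = -(δ₂ * n) * Real.log 2 := by
    rw [hδ₂]
    field_simp
  have h10 : δ * n ≤ δ₂ * n := mul_le_mul_of_nonneg_right (min_le_right _ _) hn0
  nlinarith

/-- Bound for biased measures. -/
theorem biased_bound {m : ℕ} (hm : 2 ≤ m) (k c d : ℕ) {η P : ℝ} (hη0 : 0 < η) (hη2 : η ≤ 2)
    (hP : 1 ≤ P) :
    ∃ (K δ : ℝ), 0 < K ∧ 0 < δ ∧
      ∀ (n s : ℕ) (C : Circuit n s) (U : Finset (Fin s)) (o : Fin s),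
      0 < n → C.Sparse m k c d U → (U.card : ℝ) ≤ δ * n →
      ∀ F : (Fin n → Bool) → Bool, C.Determines U o F →
      ∀ (ω : ℂ), ‖ω‖ = 1 → η ≤ ‖1 - ω ^ m‖ → ∀ lam : ℝ, 1 ≤ P * lam → lam ≤ P →
        ‖∑ x : Fin n → Bool, (if F x = true then (1 : ℂ) else 0) *
          ∏ i, (if x i = true then (((lam / (1 + lam) : ℝ) : ℂ) * ω)
            else ((1 / (1 + lam) : ℝ) : ℂ))‖ ≤ K * ((2 : ℝ) ^ (-δ)) ^ n := by
  have hρ1 := rho_lt_one hm hη0 hη2 hP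
  have hρ0 : 0 < rho m η P := by
    have h1 := rho_ge hm hη0 hη2 hP
    have h2 := (rho_aux hm hη0 hη2 hP).2.2
    linarith
  obtain ⟨δ, hδ, h⟩ := core_bound hm k c d hρ0 hρ1
  refine ⟨(rho m η P)⁻¹, δ, by positivity, hδ, ?_⟩
  intro n s C U o hn hC hU F hF ω hω hfar lam hl1 hl2
  have hlam : 0 < lam := by
    by_contra h
    push Not at h
    nlinarith
  refine h n s C U o hC hU F hF (fun _ b => if b = true then (((lam / (1 + lam) : ℝ) : ℂ) * ω)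
            else ((1 / (1 + lam) : ℝ) : ℂ)) ⟨0, hn⟩ ⟨?_, ?_⟩
  · intro i
    simp only [Bool.false_eq_true, if_false, if_true]
    rw [norm_mul, hω, mul_one, Complex.norm_real, Complex.norm_real, Real.norm_eq_abs,
      Real.norm_eq_abs, abs_of_pos (by positivity), abs_of_pos (by positivity)]
    apply le_of_eq
    field_simp
  · intro i _ u v hu hv
    simp only [Bool.false_eq_true, if_false, if_true]
    exact far_bound hm hη0 hη2 hP hl1 hl2 hω hfar hu hv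

/-- The main exponential sum bound. -/
theorem main_bound {m : ℕ} (hm : 2 ≤ m) (k c d : ℕ) {η : ℝ} (hη0 : 0 < η) (hη2 : η ≤ 2) :
    ∃ δ : ℝ, 0 < δ ∧ ∃ n₀ : ℕ, ∀ (n s : ℕ) (C : Circuit n s) (U : Finset (Fin s)) (o : Fin s),
      n₀ ≤ n → C.Sparse m k c d U → (U.card : ℝ) ≤ δ * n →
      ∀ F : (Fin n → Bool) → Bool, C.Determines U o F →
      ∀ (ω : ℂ), ‖ω‖ = 1 → η ≤ ‖1 - ω ^ m‖ →
      ∀ (θ : Fin n → Bool → ℂ) (i₀ : Fin n), (∀ i b, ‖θ i b‖ ≤ 1) →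
        (∀ i, i ≠ i₀ → θ i false = 1 ∧ θ i true = ω) →
        ‖∑ x : Fin n → Bool, (if F x = true then (1 : ℂ) else 0) * ∏ i, θ i (x i)‖
          ≤ (2 : ℝ) ^ ((1 - δ) * (n : ℝ)) := by
  have hρ1 := rho_lt_one hm hη0 hη2 (le_refl (1 : ℝ))
  have hρ0 : 3 / 4 ≤ rho m η 1 := by
    have h1 := rho_ge hm hη0 hη2 (le_refl (1 : ℝ))
    linarith
  set ρ := rho m η 1 with hρ
  obtain ⟨δ, hδ, h⟩ := core_bound hm k c d (by linarith : 0 < ρ) hρ1
  refine ⟨δ / 2, by positivity, ⌈1 / (δ / 2)⌉₊, ?_⟩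
  intro n s C U o hn hC hU F hF ω hω hfar θ i₀ hθ1 hθω
  have hn0 : (0 : ℝ) ≤ n := Nat.cast_nonneg n
  have hδn : 1 ≤ δ / 2 * n := by
    have h1 : 1 / (δ / 2) ≤ (n : ℝ) := (Nat.le_ceil _).trans (by exact_mod_cast hn)
    rw [div_le_iff₀ (by positivity)] at h1
    linarith
  have hw : Weight m ρ (univ.erase i₀) (fun i b => (1 / 2 : ℂ) * θ i b) := by
    refine ⟨?_, ?_⟩
    · intro i
      have h1 := hθ1 i false
      have h2 := hθ1 i true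
      simp only [norm_mul, norm_div, norm_one, Complex.norm_ofNat]
      linarith
    · intro i hi u v hu hv
      obtain ⟨h1, h2⟩ := hθω i (ne_of_mem_erase hi)
      have h3 := far_bound hm hη0 hη2 (le_refl (1 : ℝ)) (lam := 1) (by norm_num) (by norm_num)
        hω hfar hu hv
      rw [h1, h2]
      have h4 : u * (1 / 2 * 1) + v * (1 / 2 * ω)
          = u * ((1 / (1 + 1) : ℝ) : ℂ) + v * (((1 / (1 + 1) : ℝ) : ℂ) * ω) := by
        push_cast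
        ring
      rw [h4]
      exact h3
  have h1 := h n s C U o hC (hU.trans (by nlinarith)) F hF _ i₀ hw
  have h2 : ∑ x : Fin n → Bool, (if F x = true then (1 : ℂ) else 0) *
        ∏ i, ((1 / 2 : ℂ) * θ i (x i))
      = (1 / 2) ^ n * ∑ x : Fin n → Bool, (if F x = true then (1 : ℂ) else 0) *
        ∏ i, θ i (x i) := by
    rw [mul_sum]
    apply sum_congr rfl
    intro x _
    rw [prod_mul_distrib, prod_const, card_univ, Fintype.card_fin]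
    ring
  rw [h2, norm_mul, norm_pow, norm_div, norm_one, Complex.norm_ofNat] at h1
  rw [two_rpow_eq]
  have h3 : ρ⁻¹ * ((2 : ℝ) ^ (-δ)) ^ n ≤ ((2 : ℝ) ^ (-(δ / 2))) ^ n := by
    have h4 : ((2 : ℝ) ^ (-δ)) = (2 : ℝ) ^ (-(δ / 2)) * (2 : ℝ) ^ (-(δ / 2)) := by
      rw [← Real.rpow_add (by norm_num)]
      congr 1
      ring
    have h5 : ((2 : ℝ) ^ (-(δ / 2))) ^ n ≤ 1 / 2 := by
      rw [← Real.rpow_natCast, ← Real.rpow_mul (by norm_num)]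
      calc (2 : ℝ) ^ (-(δ / 2) * (n : ℝ)) ≤ (2 : ℝ) ^ (-1 : ℝ) := by
            apply Real.rpow_le_rpow_of_exponent_le (by norm_num)
            linarith
        _ = 1 / 2 := by rw [Real.rpow_neg_one]; norm_num
    have h6 : ρ⁻¹ ≤ 2 := by
      rw [inv_le_comm₀ (by linarith) (by norm_num)]
      linarith
    rw [h4, mul_pow]
    have h7 : 0 ≤ ((2 : ℝ) ^ (-(δ / 2))) ^ n := by positivity
    have h8 : ρ⁻¹ * ((2 : ℝ) ^ (-(δ / 2))) ^ n ≤ 1 := by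
      calc ρ⁻¹ * ((2 : ℝ) ^ (-(δ / 2))) ^ n ≤ 2 * (1 / 2) :=
            mul_le_mul h6 h5 h7 (by norm_num)
        _ = 1 := by norm_num
    calc ρ⁻¹ * (((2 : ℝ) ^ (-(δ / 2))) ^ n * ((2 : ℝ) ^ (-(δ / 2))) ^ n)
        = (ρ⁻¹ * ((2 : ℝ) ^ (-(δ / 2))) ^ n) * ((2 : ℝ) ^ (-(δ / 2))) ^ n := by ring
      _ ≤ 1 * ((2 : ℝ) ^ (-(δ / 2))) ^ n := mul_le_mul_of_nonneg_right h8 h7
      _ = _ := one_mul _
  have h4 := h1.trans h3
  have h5 : (0 : ℝ) < 2 ^ n := by positivity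
  have h6 : ‖∑ x : Fin n → Bool, (if F x = true then (1 : ℂ) else 0) * ∏ i, θ i (x i)‖
      = 2 ^ n * ((1 / 2) ^ n *
        ‖∑ x : Fin n → Bool, (if F x = true then (1 : ℂ) else 0) * ∏ i, θ i (x i)‖) := by
    rw [← mul_assoc, ← mul_pow]
    norm_num
  rw [h6]
  exact mul_le_mul_of_nonneg_left h4 h5.le

end Pool.Agent.L5helper50.ACC
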