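import Mathlib

/-! The hub lemma (helper66 for helper50): in a circuit of bounded depth with linearly many wires there
are linearly many variables and few hub gates such that every other gate sees at most one of these
variables along paths without hubs. -/

set_option autoImplicit false

namespace Pool.Agent.L5helper50.ACC

open Finset

/-- the sequence of thresholds -/
def KK (c E k : ℕ) (N0 : ℕ → ℕ → ℕ → ℕ) : ℕ → ℕ
  | 0 => k
  | i + 1 => KK c E k N0 i + 2 * E * (2 * c * (1 + 4 * c * KK c E k N0 i) + 1) *
      (N0 (2 * c * (1 + 4 * c * KK c E k N0 i)) (2 * E) k + 1)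

theorem KK_mono {c E k : ℕ} {N0 : ℕ → ℕ → ℕ → ℕ} : Monotone (KK c E k N0) :=
  monotone_nat_of_le_succ fun i => by
    rw [KK]
    exact Nat.le_add_right _ _

/-- the pigeonhole principle -/
theorem pigeon {β : Type} (S : Finset β) (w : β → ℕ) (K : ℕ → ℕ) (hK : Monotone K) (c n : ℕ)
    (hS : ∑ g ∈ S, w g ≤ c * n) :
    ∃ i < 4 * c + 1, 4 * ∑ g ∈ S.filter (fun g => K i < w g ∧ w g ≤ K (i + 1)), w g ≤ n := by
  classical
  have h1 : ∑ i ∈ range (4 * c + 1), ∑ g ∈ S.filter (fun g => K i < w g ∧ w g ≤ K (i + 1)), w g ≤ c * n := by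
    have hd : ∀ i ∈ range (4 * c + 1), ∀ j ∈ range (4 * c + 1), i ≠ j →
        Disjoint (S.filter (fun g => K i < w g ∧ w g ≤ K (i + 1)))
          (S.filter (fun g => K j < w g ∧ w g ≤ K (j + 1))) := by
      intro i _ j _ hij
      rw [disjoint_left]
      intro g hg hg'
      rw [mem_filter] at hg hg'
      rcases lt_or_gt_of_ne hij with h | h
      · have := hK (show i + 1 ≤ j by omega)
        omega
      · have := hK (show j + 1 ≤ i by omega)
        omega
    rw [← sum_biUnion hd]
    refine (sum_le_sum_of_subset ?_).trans hS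
    intro g hg
    rw [mem_biUnion] at hg
    obtain ⟨i, _, hi⟩ := hg
    exact (mem_filter.1 hi).1
  by_contra hcon
  push Not at hcon
  have h2 : ∀ i ∈ range (4 * c + 1), c * n + 1 ≤
      (4 * c + 1) * ∑ g ∈ S.filter (fun g => K i < w g ∧ w g ≤ K (i + 1)), w g := by
    intro i hi
    have h3 := hcon i (mem_range.1 hi)
    set s := ∑ g ∈ S.filter (fun g => K i < w g ∧ w g ≤ K (i + 1)), w g
    have h4 : c * n ≤ c * (4 * s) := Nat.mul_le_mul_left c h3.le
    have h5 : 1 ≤ s := by omega
    nlinarith
  have h6 := sum_le_sum h2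
  rw [sum_const, card_range, smul_eq_mul, ← mul_sum] at h6
  have h7 : (4 * c + 1) * ∑ i ∈ range (4 * c + 1),
      ∑ g ∈ S.filter (fun g => K i < w g ∧ w g ≤ K (i + 1)), w g ≤ (4 * c + 1) * (c * n) :=
    Nat.mul_le_mul_left _ h1
  have h8 : (4 * c + 1) * (c * n + 1) ≤ (4 * c + 1) * (c * n) := h6.trans h7
  nlinarith

/-- the choice of the variables for the gates of level zero -/
theorem first {α β : Type} [DecidableEq α] [DecidableEq β] (V : Finset α) (S : Finset β)
    (xs : β → Finset α) (c k1 k2 : ℕ) (hxs : ∀ g ∈ S, xs g ⊆ V)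
    (hS : ∑ g ∈ S, (xs g).card ≤ c * V.card)
    (hM : 4 * ∑ g ∈ S.filter (fun g => k1 < (xs g).card ∧ (xs g).card ≤ k2), (xs g).card ≤ V.card) :
    ∃ R1 : Finset α, R1 ⊆ V ∧ V.card ≤ 2 * (1 + 4 * c * k1) * R1.card ∧
      (∀ g ∈ S, (xs g).card ≤ k1 → (xs g ∩ R1).card ≤ 1) ∧
      (∀ g ∈ S, k1 < (xs g).card → (xs g).card ≤ k2 → xs g ∩ R1 = ∅) := by
  classical
  set M := S.filter (fun g => k1 < (xs g).card ∧ (xs g).card ≤ k2) with hMdef
  set Sm := S.filter (fun g => (xs g).card ≤ k1) with hSm
  set B := V.filter (fun v => 4 * c + 1 ≤ (Sm.filter fun g => v ∈ xs g).card) with hB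
  set V1 := V \ (M.biUnion xs ∪ B) with hV1
  have hBc : 4 * B.card ≤ V.card := by
    have h1 : ∑ v ∈ V, (Sm.filter fun g => v ∈ xs g).card = ∑ g ∈ Sm, (xs g).card := by
      have : ∀ v, (Sm.filter fun g => v ∈ xs g).card = ∑ g ∈ Sm, if v ∈ xs g then 1 else 0 := by
        intro v
        rw [card_filter]
      simp only [this]
      rw [sum_comm]
      refine sum_congr rfl fun g hg => ?_
      rw [← card_filter]
      congr 1
      ext v
      rw [mem_filter]
      exact ⟨fun h => h.2, fun h => ⟨hxs g (mem_filter.1 hg).1 h, h⟩⟩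
    have h2 : B.card * (4 * c + 1) ≤ ∑ v ∈ V, (Sm.filter fun g => v ∈ xs g).card := by
      calc B.card * (4 * c + 1) = ∑ v ∈ B, (4 * c + 1) := by rw [sum_const, smul_eq_mul]
        _ ≤ ∑ v ∈ B, (Sm.filter fun g => v ∈ xs g).card :=
            sum_le_sum fun v hv => (mem_filter.1 hv).2
        _ ≤ _ := sum_le_sum_of_subset (filter_subset _ _)
    have h3 : ∑ g ∈ Sm, (xs g).card ≤ c * V.card :=
      (sum_le_sum_of_subset (filter_subset _ _)).trans hS
    have h4 : B.card * (4 * c + 1) ≤ c * V.card := h2.trans (h1 ▸ h3)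
    rcases Nat.eq_zero_or_pos c with h0 | h0
    · subst h0
      simp at h4
      simp [h4]
    · have : c * (4 * B.card) ≤ c * V.card := by nlinarith
      exact Nat.le_of_mul_le_mul_left this h0
  have hMc : 4 * (M.biUnion xs).card ≤ V.card :=
    (Nat.mul_le_mul_left 4 card_biUnion_le).trans hM
  have hV1c : V.card ≤ 2 * V1.card := by
    have h1 : V.card ≤ V1.card + ((M.biUnion xs).card + B.card) := by
      have h2 : V ⊆ V1 ∪ (M.biUnion xs ∪ B) := by
        intro v hv
        by_cases h : v ∈ M.biUnion xs ∪ B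
        · exact mem_union_right _ h
        · exact mem_union_left _ (mem_sdiff.2 ⟨hv, h⟩)
      exact (card_le_card h2).trans ((card_union_le _ _).trans
        (Nat.add_le_add_left (card_union_le _ _) _))
    omega
  -- a maximal set
  set Q := V1.powerset.filter (fun R => ∀ g ∈ Sm, (xs g ∩ R).card ≤ 1) with hQ
  have hQne : Q.Nonempty := ⟨∅, by
    rw [hQ, mem_filter]
    refine ⟨empty_mem_powerset _, fun g _ => ?_⟩
    simp⟩
  obtain ⟨R1, hR1, hmax⟩ := exists_max_image Q card hQne
  rw [hQ, mem_filter, mem_powerset] at hR1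
  have hcov : V1 ⊆ R1 ∪ R1.biUnion (fun r => (Sm.filter fun g => r ∈ xs g).biUnion xs) := by
    intro v hv
    by_cases hvR : v ∈ R1
    · exact mem_union_left _ hvR
    refine mem_union_right _ ?_
    have hnot : insert v R1 ∉ Q := by
      intro h
      have := hmax _ h
      rw [card_insert_of_notMem hvR] at this
      omega
    rw [hQ, mem_filter, mem_powerset] at hnot
    push Not at hnot
    obtain ⟨g, hg, hgc⟩ := hnot (insert_subset hv hR1.1)
    have h1 := hR1.2 g hg
    have hvg : v ∈ xs g := by
      by_contra h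
      rw [inter_insert_of_notMem h] at hgc
      omega
    have h2 : (xs g ∩ R1).Nonempty := by
      by_contra h
      rw [not_nonempty_iff_eq_empty] at h
      rw [inter_insert_of_mem hvg, h] at hgc
      simp at hgc
    obtain ⟨r, hr⟩ := h2
    rw [mem_inter] at hr
    rw [mem_biUnion]
    refine ⟨r, hr.2, ?_⟩
    rw [mem_biUnion]
    exact ⟨g, mem_filter.2 ⟨hg, hr.1⟩, hvg⟩
  refine ⟨R1, hR1.1.trans (sdiff_subset), ?_, ?_, ?_⟩
  · have h1 : (R1.biUnion (fun r => (Sm.filter fun g => r ∈ xs g).biUnion xs)).card ≤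
        R1.card * (4 * c * k1) := by
      refine (card_biUnion_le).trans ?_
      rw [← smul_eq_mul, ← sum_const]
      refine sum_le_sum fun r hr => ?_
      refine (card_biUnion_le).trans ?_
      have hrV1 := hR1.1 hr
      have hrB : r ∉ B := fun h => (mem_sdiff.1 hrV1).2 (mem_union_right _ h)
      have hrV : r ∈ V := (mem_sdiff.1 hrV1).1
      have h2 : (Sm.filter fun g => r ∈ xs g).card ≤ 4 * c := by
        by_contra h
        exact hrB (mem_filter.2 ⟨hrV, by omega⟩)
      calc ∑ g ∈ Sm.filter (fun g => r ∈ xs g), (xs g).card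
          ≤ ∑ g ∈ Sm.filter (fun g => r ∈ xs g), k1 := by
            refine sum_le_sum fun g hg => ?_
            exact (mem_filter.1 (mem_filter.1 hg).1).2
        _ = (Sm.filter fun g => r ∈ xs g).card * k1 := by rw [sum_const, smul_eq_mul]
        _ ≤ 4 * c * k1 := Nat.mul_le_mul_right _ h2
    have h2 := (card_le_card hcov).trans (card_union_le _ _)
    nlinarith
  · intro g hg hgk
    exact hR1.2 g (mem_filter.2 ⟨hg, hgk⟩)
  · intro g hg h1 h2
    rw [← disjoint_iff_inter_eq_empty, disjoint_right]
    intro v hv hvg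
    have := (mem_sdiff.1 (hR1.1 hv)).2
    exact this (mem_union_left _ (mem_biUnion.2 ⟨g, mem_filter.2 ⟨hg, h1, h2⟩, hvg⟩))

/-- Hub lemma.  `V`: finite set of variables, `S`: finite set of gates, `xs g`: variables wired to
`g`, `cs g`: gates wired to `g`, `lev`: level function; linear number of wires. -/
theorem hub_lemma (d : ℕ) : ∀ (c E k : ℕ), ∃ N : ℕ, 0 < N ∧
    ∀ (α β : Type) [DecidableEq α] [DecidableEq β] (V : Finset α) (S : Finset β)
      (xs : β → Finset α) (cs : β → Finset β) (lev : β → ℕ),
      (∀ g ∈ S, xs g ⊆ V) →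
      (∀ g ∈ S, cs g ⊆ S) →
      (∀ g ∈ S, ∀ u ∈ cs g, lev u < lev g) →
      (∀ g ∈ S, lev g < d) →
      ∑ g ∈ S, ((xs g).card + (cs g).card) ≤ c * V.card →
      ∃ R : Finset α, R ⊆ V ∧ V.card ≤ N * R.card ∧
        ∃ H : Finset β, H ⊆ S ∧ H.card * E ≤ R.card ∧
          (∀ g ∈ H, k < (xs g).card + (cs g).card) ∧
          ∃ A : β → Finset α, ∀ g ∈ S, g ∉ H →
            (A g).card ≤ 1 ∧ A g ⊆ R ∧ R ∩ xs g ⊆ A g ∧ ∀ u ∈ cs g, u ∉ H → A u ⊆ A g := by
  induction d with
  | zero =>
    intro c E k
    refine ⟨1, one_pos, ?_⟩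
    intro α β _ _ V S xs cs lev _ _ _ hlev _
    refine ⟨V, Subset.refl _, by rw [one_mul], ∅, empty_subset _, by simp, by simp,
      fun _ => ∅, fun g hg => ?_⟩
    exact absurd (hlev g hg) (Nat.not_lt_zero _)
  | succ d ih =>
    choose N0 hN0pos hN0 using ih
    intro c E k
    set K := KK c E k N0 with hK
    have hKm : Monotone K := KK_mono
    refine ⟨1 + ∑ i ∈ range (4 * c + 1), 2 * (1 + 4 * c * K i) *
      N0 (2 * c * (1 + 4 * c * K i)) (2 * E) k, by omega, ?_⟩
    intro α β _ _ V S xs cs lev hxs hcs hlt hlev hsum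
    set S0 := S.filter (fun g => lev g = 0) with hS0
    have hsum1 : ∑ g ∈ S, (xs g).card ≤ c * V.card :=
      (sum_le_sum fun g _ => Nat.le_add_right _ _).trans hsum
    have hsum0 : ∑ g ∈ S0, (xs g).card ≤ c * V.card :=
      (sum_le_sum_of_subset (filter_subset _ _)).trans hsum1
    obtain ⟨i, hi, hiM⟩ := pigeon S0 (fun g => (xs g).card) K hKm c V.card hsum0
    obtain ⟨R1, hR1V, hR1c, hsmall, hmed⟩ := first V S0 xs c (K i) (K (i + 1))
      (fun g hg => hxs g (mem_filter.1 hg).1) hsum0 hiM
    set c1 := 2 * c * (1 + 4 * c * K i) with hc1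
    set N1 := N0 c1 (2 * E) k with hN1
    set S' := S.filter (fun g => 0 < lev g) with hS'
    set small : β → Prop := fun u => lev u = 0 ∧ (xs u).card ≤ K i with hsm
    have hcn : c * V.card ≤ c1 * R1.card := by
      calc c * V.card ≤ c * (2 * (1 + 4 * c * K i) * R1.card) := Nat.mul_le_mul_left _ hR1c
        _ = c1 * R1.card := by rw [hc1]; ring
    obtain ⟨R, hRR1, hRc, H', hH'S, hH'c, hH'k, A', hA'⟩ := hN0 c1 (2 * E) k α β R1 S'
      (fun g => (xs g ∩ R1) ∪ ((cs g).filter small).biUnion (fun u => xs u ∩ R1))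
      (fun g => (cs g).filter (fun u => 0 < lev u)) (fun g => lev g - 1)
      (by
        intro g hg v hv
        rw [mem_union] at hv
        rcases hv with hv | hv
        · exact (mem_inter.1 hv).2
        · rw [mem_biUnion] at hv
          obtain ⟨u, _, hu⟩ := hv
          exact (mem_inter.1 hu).2)
      (by
        intro g hg u hu
        rw [mem_filter] at hu hg ⊢
        exact ⟨hcs g hg.1 hu.1, hu.2⟩)
      (by
        intro g hg u hu
        rw [mem_filter] at hu hg
        have := hlt g hg.1 u hu.1
        show lev u - 1 < lev g - 1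
        omega)
      (by
        intro g hg
        rw [mem_filter] at hg
        have := hlev g hg.1
        show lev g - 1 < d
        omega)
      (by
        refine le_trans ?_ (hsum.trans hcn)
        refine le_trans ?_ (sum_le_sum_of_subset (filter_subset (fun g => 0 < lev g) S))
        refine sum_le_sum fun g hg => ?_
        have hgS := (mem_filter.1 hg).1
        have h1 : ((xs g ∩ R1) ∪ ((cs g).filter small).biUnion (fun u => xs u ∩ R1)).card ≤
            (xs g).card + ((cs g).filter small).card := by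
          refine (card_union_le _ _).trans (Nat.add_le_add (card_le_card inter_subset_left) ?_)
          refine card_biUnion_le.trans ?_
          rw [card_eq_sum_ones]
          refine sum_le_sum fun u hu => ?_
          rw [mem_filter] at hu
          exact hsmall u (mem_filter.2 ⟨hcs g hgS hu.1, hu.2.1⟩) hu.2.2
        have h2 : ((cs g).filter small).card + ((cs g).filter (fun u => 0 < lev u)).card ≤
            (cs g).card := by
          rw [← card_union_of_disjoint]
          · exact card_le_card (union_subset (filter_subset _ _) (filter_subset _ _))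
          · rw [disjoint_left]
            intro u hu hu'
            rw [mem_filter] at hu hu'
            have := hu.2.1
            omega
        show ((xs g ∩ R1) ∪ ((cs g).filter small).biUnion (fun u => xs u ∩ R1)).card +
          ((cs g).filter (fun u => 0 < lev u)).card ≤ _
        omega)
    -- fan-in of the gates of positive level
    have hfan : ∀ g ∈ S', ((xs g ∩ R1) ∪ ((cs g).filter small).biUnion (fun u => xs u ∩ R1)).card +
          ((cs g).filter (fun u => 0 < lev u)).card ≤ (xs g).card + (cs g).card := by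
      intro g hg
      have hgS := (mem_filter.1 hg).1
      have h1 : ((xs g ∩ R1) ∪ ((cs g).filter small).biUnion (fun u => xs u ∩ R1)).card ≤
          (xs g).card + ((cs g).filter small).card := by
        refine (card_union_le _ _).trans (Nat.add_le_add (card_le_card inter_subset_left) ?_)
        refine card_biUnion_le.trans ?_
        rw [card_eq_sum_ones]
        refine sum_le_sum fun u hu => ?_
        rw [mem_filter] at hu
        exact hsmall u (mem_filter.2 ⟨hcs g hgS hu.1, hu.2.1⟩) hu.2.2
      have h2 : ((cs g).filter small).card + ((cs g).filter (fun u => 0 < lev u)).card ≤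
          (cs g).card := by
        rw [← card_union_of_disjoint]
        · exact card_le_card (union_subset (filter_subset _ _) (filter_subset _ _))
        · rw [disjoint_left]
          intro u hu hu'
          rw [mem_filter] at hu hu'
          have := hu.2.1
          omega
      omega
    set H0 := S0.filter (fun g => K (i + 1) < (xs g).card) with hH0
    have hH0c : H0.card * (2 * E) ≤ R.card := by
      have h1 : H0.card * K (i + 1) ≤ c1 * R1.card := by
        calc H0.card * K (i + 1) = ∑ g ∈ H0, K (i + 1) := by rw [sum_const, smul_eq_mul]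
          _ ≤ ∑ g ∈ H0, (xs g).card := sum_le_sum fun g hg => (mem_filter.1 hg).2.le
          _ ≤ ∑ g ∈ S0, (xs g).card := sum_le_sum_of_subset (filter_subset _ _)
          _ ≤ _ := hsum0.trans hcn
      have h2 : c1 * R1.card ≤ c1 * (N1 * R.card) := Nat.mul_le_mul_left _ hRc
      have h3 : 2 * E * (c1 + 1) * (N1 + 1) ≤ K (i + 1) := by
        rw [hK, KK]
        exact Nat.le_add_left _ _
      have h4 : H0.card * (2 * E * (c1 + 1) * (N1 + 1)) ≤ c1 * (N1 * R.card) :=
        (Nat.mul_le_mul_left _ h3).trans (h1.trans h2)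
      have h5 : (c1 + 1) * (N1 + 1) * (H0.card * (2 * E)) ≤ (c1 + 1) * (N1 + 1) * R.card := by
        calc (c1 + 1) * (N1 + 1) * (H0.card * (2 * E))
            = H0.card * (2 * E * (c1 + 1) * (N1 + 1)) := by ring
          _ ≤ c1 * (N1 * R.card) := h4
          _ ≤ (c1 + 1) * ((N1 + 1) * R.card) :=
              Nat.mul_le_mul (Nat.le_succ _) (Nat.mul_le_mul_right _ (Nat.le_succ _))
          _ = (c1 + 1) * (N1 + 1) * R.card := by ring
      exact Nat.le_of_mul_le_mul_left h5 (by positivity)
    have hkK : k ≤ K (i + 1) := by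
      have : K 0 ≤ K (i + 1) := hKm (Nat.zero_le _)
      rwa [hK, KK] at this
    refine ⟨R, hRR1.trans hR1V, ?_, H' ∪ H0, ?_, ?_, ?_, fun g => if lev g = 0 then xs g ∩ R else A' g, ?_⟩
    · have h1 : 2 * (1 + 4 * c * K i) * N1 ≤ 1 + ∑ i ∈ range (4 * c + 1), 2 * (1 + 4 * c * K i) *
          N0 (2 * c * (1 + 4 * c * K i)) (2 * E) k := by
        refine le_trans ?_ (Nat.le_add_left _ _)
        exact single_le_sum (f := fun i => 2 * (1 + 4 * c * K i) *
          N0 (2 * c * (1 + 4 * c * K i)) (2 * E) k) (fun _ _ => Nat.zero_le _) (mem_range.2 hi)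
      calc V.card ≤ 2 * (1 + 4 * c * K i) * R1.card := hR1c
        _ ≤ 2 * (1 + 4 * c * K i) * (N1 * R.card) := Nat.mul_le_mul_left _ hRc
        _ = 2 * (1 + 4 * c * K i) * N1 * R.card := by ring
        _ ≤ _ := Nat.mul_le_mul_right _ h1
    · refine union_subset (hH'S.trans (filter_subset _ _)) ?_
      exact (filter_subset _ _).trans (filter_subset _ _)
    · have h1 := card_union_le H' H0
      have h2 : (H' ∪ H0).card * E ≤ (H'.card + H0.card) * E := Nat.mul_le_mul_right _ h1
      nlinarith
    · intro g hg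
      rw [mem_union] at hg
      rcases hg with hg | hg
      · exact (hH'k g hg).trans_le (hfan g (hH'S hg))
      · have := (mem_filter.1 hg).2
        omega
    · intro g hg hgH
      rw [mem_union, not_or] at hgH
      rcases Nat.eq_zero_or_pos (lev g) with h0 | h0
      · have hgS0 : g ∈ S0 := mem_filter.2 ⟨hg, h0⟩
        simp only [h0, if_true]
        refine ⟨?_, inter_subset_right, ?_, ?_⟩
        · by_cases h1 : (xs g).card ≤ K i
          · exact (card_le_card (inter_subset_inter_left hRR1)).trans (hsmall g hgS0 h1)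
          · have h2 : (xs g).card ≤ K (i + 1) := by
              by_contra h
              exact hgH.2 (mem_filter.2 ⟨hgS0, by omega⟩)
            have h3 := hmed g hgS0 (by omega) h2
            have h4 : xs g ∩ R = ∅ := by
              rw [← subset_empty, ← h3]
              exact inter_subset_inter_left hRR1
            rw [h4]
            simp
        · rw [inter_comm]
        · intro u hu _
          have := hlt g hg u hu
          omega
      · have hgS' : g ∈ S' := mem_filter.2 ⟨hg, h0⟩
        obtain ⟨a1, a2, a3, a4⟩ := hA' g hgS' hgH.1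
        have hne : ¬ lev g = 0 := by omega
        simp only [hne, if_false]
        refine ⟨a1, a2, ?_, ?_⟩
        · intro v hv
          rw [mem_inter] at hv
          exact a3 (mem_inter.2 ⟨hv.1, mem_union_left _ (mem_inter.2 ⟨hv.2, hRR1 hv.1⟩)⟩)
        · intro u hu huH
          rw [mem_union, not_or] at huH
          have huS := hcs g hg hu
          by_cases hu0 : lev u = 0
          · simp only [hu0, if_true]
            have huS0 : u ∈ S0 := mem_filter.2 ⟨huS, hu0⟩
            intro v hv
            rw [mem_inter] at hv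
            by_cases h1 : (xs u).card ≤ K i
            · refine a3 (mem_inter.2 ⟨hv.2, mem_union_right _ ?_⟩)
              rw [mem_biUnion]
              exact ⟨u, mem_filter.2 ⟨hu, hu0, h1⟩, mem_inter.2 ⟨hv.1, hRR1 hv.2⟩⟩
            · have h2 : (xs u).card ≤ K (i + 1) := by
                by_contra h
                exact huH.2 (mem_filter.2 ⟨huS0, by omega⟩)
              have h3 := hmed u huS0 (by omega) h2
              have h4 : v ∈ xs u ∩ R1 := mem_inter.2 ⟨hv.1, hRR1 hv.2⟩
              rw [h3] at h4
              exact absurd h4 (notMem_empty _)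
          · simp only [hu0, if_false]
            exact a4 u (mem_filter.2 ⟨hu, Nat.pos_of_ne_zero hu0⟩) huH.1

end Pool.Agent.L5helper50.ACC
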