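import Mathlib

/-!
# Kernel lemma
-/

set_option autoImplicit false

namespace Pool.Agent.L5helper50.ACC

open Finset Complex

section

variable {Q : ℕ} [NeZero Q]

/-- the additive character -/
noncomputable def ps (x : ZMod Q) : ℂ := ZMod.stdAddChar x

lemma ps_norm (x : ZMod Q) : ‖ps x‖ = 1 := AddChar.norm_apply _ _

lemma ps_add (x y : ZMod Q) : ps (x + y) = ps x * ps y := AddChar.map_add_eq_mul _ _ _

lemma ps_zero : ps (0 : ZMod Q) = 1 := AddChar.map_zero_eq_one _

lemma ps_neg (x : ZMod Q) : ps (-x) = (starRingEnd ℂ) (ps x) := AddChar.map_neg_eq_conj _ _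

lemma ps_sum (x : ZMod Q) : ∑ a : ZMod Q, ps (a * x) = if x = 0 then (Q : ℂ) else 0 := by
  have h := AddChar.sum_mulShift (R' := ℂ) x (ZMod.isPrimitive_stdAddChar Q)
  rw [ZMod.card] at h
  unfold ps
  exact_mod_cast h

lemma ps_pow (x : ZMod Q) (n : ℕ) : ps (x * (n : ZMod Q)) = ps x ^ n := by
  unfold ps
  rw [mul_comm, ← nsmul_eq_mul, AddChar.map_nsmul_eq_pow]

lemma ps_val (a l : ZMod Q) : ps (a * l) = ps a ^ l.val := by
  rw [← ps_pow, ZMod.natCast_zmod_val]

lemma ps_powQ (a : ZMod Q) : ps a ^ Q = 1 := by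
  rw [← ps_pow, ZMod.natCast_self, mul_zero, ps_zero]

/-- the transform -/
noncomputable def DD (c : ZMod Q → ℂ) (l : ZMod Q) : ℂ := ∑ s, c s * ps (s * l)

lemma planch (c : ZMod Q → ℂ) : ∑ l, ‖DD c l‖ ^ 2 = Q * ∑ s, ‖c s‖ ^ 2 := by
  have h : ((∑ l, ‖DD c l‖ ^ 2 : ℝ) : ℂ) = ((Q * ∑ s, ‖c s‖ ^ 2 : ℝ) : ℂ) := by
    push_cast
    have e1 : ∀ l : ZMod Q, ((‖DD c l‖ : ℂ)) ^ 2 = ∑ s, ∑ t, c s * (starRingEnd ℂ) (c t) * ps (l * (s - t)) := by
      intro l
      rw [← Complex.mul_conj']
      unfold DD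
      rw [map_sum, Finset.sum_mul_sum]
      refine Finset.sum_congr rfl fun s _ => Finset.sum_congr rfl fun t _ => ?_
      rw [map_mul, ← ps_neg, show l * (s - t) = s * l + -(t * l) by ring, ps_add]
      ring
    simp only [e1]
    rw [Finset.sum_comm]
    rw [Finset.mul_sum]
    refine Finset.sum_congr rfl fun s _ => ?_
    rw [Finset.sum_comm]
    rw [Finset.sum_eq_single s]
    · rw [← Finset.mul_sum, ps_sum, sub_self, if_pos rfl, Complex.mul_conj']
      ring
    · intro t _ ht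
      rw [← Finset.mul_sum, ps_sum, if_neg (sub_ne_zero.2 ht.symm), mul_zero]
    · exact fun h => absurd (Finset.mem_univ s) h
  exact_mod_cast h

lemma cs (f g : ZMod Q → ℂ) : ∑ l, ‖f l * g l‖ ≤ √(∑ l, ‖f l‖ ^ 2) * √(∑ l, ‖g l‖ ^ 2) := by
  simp only [norm_mul]
  exact Real.sum_mul_le_sqrt_mul_sqrt _ _ _

/-- the Fourier coefficients -/
noncomputable def hh (h : ZMod Q → ℂ) (a : ZMod Q) : ℂ := ∑ l, h l * ps (a * l)

lemma inv_hh (h : ZMod Q → ℂ) (x : ZMod Q) : ∑ a, ps (-(a * x)) * hh h a = Q * h x := by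
  unfold hh
  simp only [Finset.mul_sum]
  rw [Finset.sum_comm]
  rw [Finset.sum_eq_single x]
  · have : ∀ a : ZMod Q, ps (-(a * x)) * (h x * ps (a * x)) = h x := by
      intro a
      rw [mul_left_comm, ← ps_add, neg_add_cancel, ps_zero, mul_one]
    simp only [this]
    rw [Finset.sum_const, Finset.card_univ, ZMod.card, nsmul_eq_mul]
  · intro l _ hl
    have : ∀ a : ZMod Q, ps (-(a * x)) * (h l * ps (a * l)) = h l * ps (a * (l - x)) := by
      intro a
      rw [mul_left_comm, ← ps_add]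
      congr 2
      ring
    simp only [this]
    rw [← Finset.mul_sum, ps_sum, if_neg (sub_ne_zero.2 hl), mul_zero]
  · exact fun h => absurd (Finset.mem_univ x) h

lemma conv_id (h c d : ZMod Q → ℂ) (x : ZMod Q) : ∑ l, h l * (DD c (l - x) * DD d (l - x)) =
    ∑ a, (∑ s, c s * d (a - s)) * (ps (-(a * x)) * hh h a) := by
  have e1 : ∀ l, h l * (DD c (l - x) * DD d (l - x)) = ∑ a, ∑ s, c s * d (a - s) * (ps (-(a * x)) * (h l * ps (a * l))) := by
    intro l
    unfold DD
    rw [Finset.sum_mul_sum, Finset.mul_sum, Finset.sum_comm]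
    refine Finset.sum_congr rfl fun s _ => ?_
    rw [Finset.mul_sum]
    rw [← Equiv.sum_comp (Equiv.subRight s)]
    refine Finset.sum_congr rfl fun a _ => ?_
    simp only [Equiv.subRight_apply]
    have e2 : ps (s * (l - x)) * ps ((a - s) * (l - x)) = ps (-(a * x)) * ps (a * l) := by
      rw [← ps_add, ← ps_add]
      congr 1
      ring
    calc h l * (c s * ps (s * (l - x)) * (d (a - s) * ps ((a - s) * (l - x))))
        = h l * (c s * d (a - s)) * (ps (s * (l - x)) * ps ((a - s) * (l - x))) := by ring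
      _ = _ := by rw [e2]; ring
  simp only [e1]
  rw [Finset.sum_comm]
  refine Finset.sum_congr rfl fun a _ => ?_
  rw [Finset.sum_comm, Finset.sum_mul]
  refine Finset.sum_congr rfl fun s _ => ?_
  unfold hh
  rw [Finset.mul_sum, Finset.mul_sum]

end

/-- Kernel lemma: a bounded function on `ZMod Q` whose Fourier coefficients are small at all
frequencies `ω` with `ω ^ m` not close to `1` is almost `m`-periodic. -/
theorem kernel_lemma (m : ℕ) (hm : 0 < m) : ∃ η : ℝ, 0 < η ∧
    ∀ (Q : ℕ) [NeZero Q] (h : ZMod Q → ℂ) (b B : ℝ), (∀ l, ‖h l‖ ≤ b) →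
      (∀ ω : ℂ, ω ^ Q = 1 → η ≤ ‖1 - ω ^ m‖ → ‖∑ l : ZMod Q, h l * ω ^ l.val‖ ≤ B) →
      0 ≤ B →
      ∀ l : ZMod Q, ‖h l - h (l + (m : ZMod Q))‖ ≤ 2 * B + b / 4 := by
  classical
  have hm0 : (0 : ℝ) < m := by exact_mod_cast hm
  have hm1 : (1 : ℝ) ≤ m := by exact_mod_cast hm
  refine ⟨1 / (1000 * m), by positivity, fun Q _ h b B hb hB hB0 x => ?_⟩
  set η : ℝ := 1 / (1000 * m) with hη
  have hη0 : 0 < η := by positivity
  have hb0 : 0 ≤ b := (norm_nonneg _).trans (hb 0)
  have hQ0 : (0 : ℝ) < Q := by exact_mod_cast NeZero.pos Q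
  have hQC : (Q : ℂ) ≠ 0 := by exact_mod_cast (NeZero.ne Q)
  set S : Finset (ZMod Q) := Finset.univ.filter fun a => ‖1 - ps (a * (m : ZMod Q))‖ ≤ η with hS
  set T : Finset (ZMod Q) := Finset.univ.filter fun a => ‖1 - ps (a * (m : ZMod Q))‖ ≤ 2 * η with hT
  have hSm : ∀ a, a ∈ S ↔ ‖1 - ps (a * (m : ZMod Q))‖ ≤ η := fun a => by simp [hS]
  have hTm : ∀ a, a ∈ T ↔ ‖1 - ps (a * (m : ZMod Q))‖ ≤ 2 * η := fun a => by simp [hT]
  have h0S : (0 : ZMod Q) ∈ S := by
    rw [hSm, zero_mul, ps_zero, sub_self, norm_zero]; exact hη0.le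
  have hSc : (0 : ℝ) < S.card := by exact_mod_cast Finset.card_pos.2 ⟨0, h0S⟩
  have hScC : (S.card : ℂ) ≠ 0 := by exact_mod_cast hSc.ne'
  -- the size of `S`
  have hScard : η * Q / (2 * Real.pi * m) ≤ S.card := by
    set y : ℝ := η * Q / (2 * Real.pi * m) with hy
    have hpi := Real.pi_gt_three
    have hy0 : 0 ≤ y := by positivity
    have hyQ : y < Q := by
      rw [hy, div_lt_iff₀ (by positivity)]
      have h1 : η ≤ 1 := by
        rw [hη, div_le_one (by positivity)]; linarith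
      have h2 : 1 < 2 * Real.pi * m := by nlinarith
      nlinarith
    have hinj : Set.InjOn (fun n : ℕ => (n : ZMod Q)) (Finset.range (⌊y⌋₊ + 1) : Finset ℕ) := by
      intro a ha c hc hac
      rw [Finset.coe_range, Set.mem_Iio] at ha hc
      have hf : (⌊y⌋₊ : ℝ) ≤ y := Nat.floor_le hy0
      have hfQ : ⌊y⌋₊ < Q := by
        have : (⌊y⌋₊ : ℝ) < Q := lt_of_le_of_lt hf hyQ
        exact_mod_cast this
      have h1 := (ZMod.natCast_eq_natCast_iff' a c Q).1 hac
      rwa [Nat.mod_eq_of_lt (by omega), Nat.mod_eq_of_lt (by omega)] at h1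
    have hsub : (Finset.range (⌊y⌋₊ + 1)).image (fun n : ℕ => (n : ZMod Q)) ⊆ S := by
      intro a ha
      rw [Finset.mem_image] at ha
      obtain ⟨n, hn, rfl⟩ := ha
      rw [Finset.mem_range] at hn
      have hn1 : (n : ℝ) ≤ y := by
        have h1 : (n : ℝ) ≤ ⌊y⌋₊ := by exact_mod_cast (by omega : n ≤ ⌊y⌋₊)
        exact h1.trans (Nat.floor_le hy0)
      rw [hSm]
      have e1 : ps ((n : ZMod Q) * (m : ZMod Q)) = Complex.exp (I * ((2 * Real.pi * (n * m) / Q : ℝ) : ℂ)) := by
        unfold ps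
        have h2 := ZMod.stdAddChar_coe (N := Q) ((n * m : ℕ) : ℤ)
        have h3 : (((n * m : ℕ) : ℤ) : ZMod Q) = (n : ZMod Q) * (m : ZMod Q) := by push_cast; ring
        rw [h3] at h2
        rw [h2]
        congr 1
        push_cast
        ring
      rw [e1, norm_sub_rev]
      refine (Real.norm_exp_I_mul_ofReal_sub_one_le).trans ?_
      rw [Real.norm_eq_abs, abs_of_nonneg (by positivity), div_le_iff₀ hQ0]
      have h4 : y * (2 * Real.pi * m) = η * Q := by
        rw [hy]; field_simp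
      nlinarith [mul_le_mul_of_nonneg_right hn1 (by positivity : 0 ≤ 2 * Real.pi * (m : ℝ))]
    have h5 := Finset.card_le_card hsub
    rw [Finset.card_image_of_injOn hinj, Finset.card_range] at h5
    have h6 : ((⌊y⌋₊ + 1 : ℕ) : ℝ) ≤ S.card := by exact_mod_cast h5
    have h7 := (Nat.lt_floor_add_one y).le
    push_cast at h6
    linarith
  -- the coefficients
  set c : ZMod Q → ℂ := fun s => if s ∈ S then 1 else 0 with hc
  set d : ZMod Q → ℂ := fun s => if s ∈ T then 1 else 0 with hd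
  set W : ZMod Q → ℂ := fun a => ∑ s, c s * d (a - s) with hW
  have hWc : ∀ a, W a = ((S.filter fun s => a - s ∈ T).card : ℂ) := by
    intro a
    simp only [hW, hc, hd, ite_mul, one_mul, zero_mul]
    rw [Finset.sum_ite_mem, Finset.univ_inter, Finset.sum_boole]
  have hW1 : ∀ a, ‖1 - W a / S.card‖ ≤ 1 := by
    intro a
    rw [hWc]
    have h1 : ((S.filter fun s => a - s ∈ T).card : ℝ) ≤ S.card := by exact_mod_cast Finset.card_filter_le _ _
    have h2 : (1 : ℂ) - ((S.filter fun s => a - s ∈ T).card : ℂ) / S.card =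
        ((1 - ((S.filter fun s => a - s ∈ T).card : ℝ) / S.card : ℝ) : ℂ) := by push_cast; ring
    rw [h2, Complex.norm_real, Real.norm_eq_abs]
    have h3 : ((S.filter fun s => a - s ∈ T).card : ℝ) / S.card ≤ 1 := (div_le_one hSc).2 h1
    have h4 : 0 ≤ ((S.filter fun s => a - s ∈ T).card : ℝ) / S.card := by positivity
    rw [abs_le]; constructor <;> linarith
  have hW0 : ∀ a, ‖1 - ps (a * (m : ZMod Q))‖ < η → 1 - W a / S.card = 0 := by
    intro a ha
    rw [hWc]
    have h1 : (S.filter fun s => a - s ∈ T) = S := by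
      rw [Finset.filter_eq_self]
      intro s hs
      rw [hTm]
      have h2 : 1 - ps ((a - s) * (m : ZMod Q)) =
          ps (-(s * (m : ZMod Q))) * ((ps (s * (m : ZMod Q)) - 1) + (1 - ps (a * (m : ZMod Q)))) := by
        have h3 : ps (-(s * (m : ZMod Q))) * ps (s * (m : ZMod Q)) = 1 := by
          rw [← ps_add, neg_add_cancel, ps_zero]
        have h4 : ps ((a - s) * (m : ZMod Q)) = ps (-(s * (m : ZMod Q))) * ps (a * (m : ZMod Q)) := by
          rw [← ps_add]; congr 1; ring
        rw [h4]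
        linear_combination -h3
      rw [h2, norm_mul, ps_norm, one_mul]
      refine (norm_add_le _ _).trans ?_
      rw [norm_sub_rev]
      have h5 := (hSm s).1 hs
      linarith
    rw [h1, div_self hScC, sub_self]
  -- step (1)
  have hstep : ∀ y : ZMod Q, ‖h y - (∑ l, h l * (DD c (l - y) * DD d (l - y))) / (Q * S.card)‖ ≤ B := by
    intro y
    have e1 : h y - (∑ l, h l * (DD c (l - y) * DD d (l - y))) / (Q * S.card) =
        (∑ a, (1 - W a / S.card) * (ps (-(a * y)) * hh h a)) / Q := by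
      rw [conv_id, eq_div_iff hQC]
      simp only [sub_mul, one_mul]
      rw [Finset.sum_sub_distrib, inv_hh]
      have e2 : ∑ a, W a / S.card * (ps (-(a * y)) * hh h a) = (∑ a, W a * (ps (-(a * y)) * hh h a)) / S.card := by
        rw [Finset.sum_div]
        exact Finset.sum_congr rfl fun a _ => by ring
      rw [e2]
      have e3 : ∑ a, (∑ s, c s * d (a - s)) * (ps (-(a * y)) * hh h a) = ∑ a, W a * (ps (-(a * y)) * hh h a) := rfl
      rw [e3]
      field_simp
    rw [e1, norm_div, Complex.norm_natCast, div_le_iff₀ hQ0]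
    refine (norm_sum_le _ _).trans ?_
    have e2 : B * (Q : ℝ) = ∑ _a : ZMod Q, B := by
      rw [Finset.sum_const, Finset.card_univ, ZMod.card, nsmul_eq_mul]; ring
    rw [e2]
    refine Finset.sum_le_sum fun a _ => ?_
    rw [norm_mul, norm_mul, ps_norm, one_mul]
    rcases lt_or_ge ‖1 - ps (a * (m : ZMod Q))‖ η with h1 | h1
    · rw [hW0 a h1, norm_zero, zero_mul]; exact hB0
    · have h2 : ‖hh h a‖ ≤ B := by
        have h3 := hB (ps a) (ps_powQ a) (by rw [← ps_pow]; exact h1)
        unfold hh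
        simp only [ps_val]
        exact h3
      calc ‖1 - W a / S.card‖ * ‖hh h a‖ ≤ 1 * B := mul_le_mul (hW1 a) h2 (norm_nonneg _) zero_le_one
        _ = B := one_mul _
  -- the norms of the coefficients
  have hcs : ∑ s, ‖c s‖ ^ 2 = S.card := by
    simp only [hc]
    have : ∀ s, ‖(if s ∈ S then (1 : ℂ) else 0)‖ ^ 2 = if s ∈ S then (1 : ℝ) else 0 := by
      intro s; split_ifs <;> simp
    simp only [this]
    rw [Finset.sum_ite_mem, Finset.univ_inter, Finset.sum_const, nsmul_eq_mul, mul_one]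
  have hds : ∑ s, ‖d s‖ ^ 2 = T.card := by
    simp only [hd]
    have : ∀ s, ‖(if s ∈ T then (1 : ℂ) else 0)‖ ^ 2 = if s ∈ T then (1 : ℝ) else 0 := by
      intro s; split_ifs <;> simp
    simp only [this]
    rw [Finset.sum_ite_mem, Finset.univ_inter, Finset.sum_const, nsmul_eq_mul, mul_one]
  -- differences
  have hdiff : ∀ (f : ZMod Q → ℂ) (l : ZMod Q), DD f l - DD f (l - m) = DD (fun s => f s * (1 - ps (-(s * (m : ZMod Q))))) l := by
    intro f l
    unfold DD
    rw [← Finset.sum_sub_distrib]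
    refine Finset.sum_congr rfl fun s _ => ?_
    rw [show s * (l - (m : ZMod Q)) = s * l + -(s * (m : ZMod Q)) by ring, ps_add]
    ring
  have hconj : ∀ z : ZMod Q, ‖1 - ps (-z)‖ = ‖1 - ps z‖ := by
    intro z
    rw [ps_neg, show (1 : ℂ) - (starRingEnd ℂ) (ps z) = (starRingEnd ℂ) (1 - ps z) by simp, RCLike.norm_conj]
  have hcd : ∑ s, ‖c s * (1 - ps (-(s * (m : ZMod Q))))‖ ^ 2 ≤ S.card * η ^ 2 := by
    calc ∑ s, ‖c s * (1 - ps (-(s * (m : ZMod Q))))‖ ^ 2 ≤ ∑ s, ‖c s‖ ^ 2 * η ^ 2 := by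
          refine Finset.sum_le_sum fun s _ => ?_
          rw [norm_mul, mul_pow, hconj]
          by_cases hs : s ∈ S
          · exact mul_le_mul_of_nonneg_left (pow_le_pow_left₀ (norm_nonneg _) ((hSm s).1 hs) 2) (by positivity)
          · simp only [hc, if_neg hs]; simp
      _ = S.card * η ^ 2 := by rw [← Finset.sum_mul, hcs]
  have hdd : ∑ s, ‖d s * (1 - ps (-(s * (m : ZMod Q))))‖ ^ 2 ≤ T.card * (2 * η) ^ 2 := by
    calc ∑ s, ‖d s * (1 - ps (-(s * (m : ZMod Q))))‖ ^ 2 ≤ ∑ s, ‖d s‖ ^ 2 * (2 * η) ^ 2 := by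
          refine Finset.sum_le_sum fun s _ => ?_
          rw [norm_mul, mul_pow, hconj]
          by_cases hs : s ∈ T
          · exact mul_le_mul_of_nonneg_left (pow_le_pow_left₀ (norm_nonneg _) ((hTm s).1 hs) 2) (by positivity)
          · simp only [hd, if_neg hs]; simp
      _ = T.card * (2 * η) ^ 2 := by rw [← Finset.sum_mul, hds]
  have hTQ : (T.card : ℝ) ≤ Q := by
    have := Finset.card_le_univ T
    rw [ZMod.card] at this
    exact_mod_cast this
  -- the total variation
  have hshift : ∑ l : ZMod Q, ‖DD c (l - m)‖ ^ 2 = ∑ l : ZMod Q, ‖DD c l‖ ^ 2 :=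
    Equiv.sum_comp (Equiv.subRight (m : ZMod Q)) (fun l => ‖DD c l‖ ^ 2)
  have hTV : ∑ l : ZMod Q, ‖DD c l * DD d l - DD c (l - m) * DD d (l - m)‖ ≤ 3 * η * (Q * √(S.card * T.card)) := by
    have a1 : ∀ l : ZMod Q, ‖DD c l * DD d l - DD c (l - m) * DD d (l - m)‖ ≤
        ‖(DD c l - DD c (l - m)) * DD d l‖ + ‖DD c (l - m) * (DD d l - DD d (l - m))‖ := by
      intro l
      have : DD c l * DD d l - DD c (l - m) * DD d (l - m) =
          (DD c l - DD c (l - m)) * DD d l + DD c (l - m) * (DD d l - DD d (l - m)) := by ring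
      rw [this]
      exact norm_add_le _ _
    refine (Finset.sum_le_sum fun l _ => a1 l).trans ?_
    rw [Finset.sum_add_distrib]
    have b1 : ∑ l : ZMod Q, ‖(DD c l - DD c (l - m)) * DD d l‖ ≤ η * (Q * √(S.card * T.card)) := by
      refine (cs _ _).trans ?_
      simp only [hdiff]
      rw [planch, planch, hds]
      calc √(Q * ∑ s, ‖c s * (1 - ps (-(s * (m : ZMod Q))))‖ ^ 2) * √(Q * T.card)
          ≤ √(Q * (S.card * η ^ 2)) * √(Q * T.card) := by gcongr
        _ = √((Q * (S.card * η ^ 2)) * (Q * T.card)) := (Real.sqrt_mul (by positivity) _).symm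
        _ = √((η * Q) ^ 2 * (S.card * T.card)) := by congr 1; ring
        _ = η * Q * √(S.card * T.card) := by rw [Real.sqrt_mul (by positivity), Real.sqrt_sq (by positivity)]
        _ = _ := by ring
    have b2 : ∑ l : ZMod Q, ‖DD c (l - m) * (DD d l - DD d (l - m))‖ ≤ 2 * η * (Q * √(S.card * T.card)) := by
      refine (cs _ _).trans ?_
      simp only [hdiff]
      rw [hshift, planch, planch, hcs]
      calc √(Q * S.card) * √(Q * ∑ s, ‖d s * (1 - ps (-(s * (m : ZMod Q))))‖ ^ 2)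
          ≤ √(Q * S.card) * √(Q * (T.card * (2 * η) ^ 2)) := by gcongr
        _ = √((Q * S.card) * (Q * (T.card * (2 * η) ^ 2))) := (Real.sqrt_mul (by positivity) _).symm
        _ = √((2 * η * Q) ^ 2 * (S.card * T.card)) := by congr 1; ring
        _ = 2 * η * Q * √(S.card * T.card) := by rw [Real.sqrt_mul (by positivity), Real.sqrt_sq (by positivity)]
        _ = _ := by ring
    linarith
  have hfin : 3 * η * (Q * √(S.card * T.card)) / (Q * S.card) ≤ 1 / 4 := by
    have c1 : √((S.card : ℝ) * T.card) ≤ S.card * √(2 * Real.pi * m / η) := by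
      have c2 : (T.card : ℝ) ≤ S.card * (2 * Real.pi * m / η) := by
        refine hTQ.trans ?_
        have c3 : (Q : ℝ) = (η * Q / (2 * Real.pi * m)) * (2 * Real.pi * m / η) := by
          have := Real.pi_pos
          field_simp
        rw [c3]
        have := Real.pi_pos
        gcongr
      calc √((S.card : ℝ) * T.card) ≤ √((S.card : ℝ) * (S.card * (2 * Real.pi * m / η))) := by gcongr
        _ = √((S.card : ℝ) ^ 2 * (2 * Real.pi * m / η)) := by congr 1; ring
        _ = S.card * √(2 * Real.pi * m / η) := by rw [Real.sqrt_mul (by positivity), Real.sqrt_sq hSc.le]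
    have c4 : 3 * η * (Q * √(S.card * T.card)) / (Q * S.card) ≤ 3 * η * √(2 * Real.pi * m / η) := by
      rw [div_le_iff₀ (by positivity)]
      calc 3 * η * (Q * √(S.card * T.card)) ≤ 3 * η * (Q * (S.card * √(2 * Real.pi * m / η))) := by gcongr
        _ = _ := by ring
    refine c4.trans ?_
    have c5 : 3 * η * √(2 * Real.pi * m / η) = √(9 * (2 * Real.pi * m * η)) := by
      have : 9 * (2 * Real.pi * m * η) = (3 * η) ^ 2 * (2 * Real.pi * m / η) := by field_simp; ring
      rw [this, Real.sqrt_mul (by positivity), Real.sqrt_sq (by positivity)]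
    rw [c5]
    have c6 : 9 * (2 * Real.pi * m * η) ≤ (1 / 4) ^ 2 := by
      have : 2 * Real.pi * m * η = 2 * Real.pi / 1000 := by rw [hη]; field_simp
      rw [this]
      have := Real.pi_lt_d2
      norm_num
      linarith
    calc √(9 * (2 * Real.pi * m * η)) ≤ √((1 / 4) ^ 2) := Real.sqrt_le_sqrt c6
      _ = 1 / 4 := Real.sqrt_sq (by norm_num)
  -- the end
  set A : ZMod Q → ℂ := fun y => (∑ l, h l * (DD c (l - y) * DD d (l - y))) / (Q * S.card) with hA
  have hAA : ‖A x - A (x + m)‖ ≤ b / 4 := by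
    simp only [hA]
    rw [← sub_div, norm_div, norm_mul, Complex.norm_natCast, Complex.norm_natCast, ← Finset.sum_sub_distrib]
    have d1 : ‖∑ l, (h l * (DD c (l - x) * DD d (l - x)) - h l * (DD c (l - (x + m)) * DD d (l - (x + m))))‖ ≤
        b * (3 * η * (Q * √(S.card * T.card))) := by
      refine (norm_sum_le _ _).trans ?_
      calc ∑ l, ‖h l * (DD c (l - x) * DD d (l - x)) - h l * (DD c (l - (x + m)) * DD d (l - (x + m)))‖
          ≤ ∑ l, b * ‖DD c (l - x) * DD d (l - x) - DD c (l - x - m) * DD d (l - x - m)‖ := by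
            refine Finset.sum_le_sum fun l _ => ?_
            rw [← mul_sub, norm_mul, sub_sub]
            exact mul_le_mul_of_nonneg_right (hb l) (norm_nonneg _)
        _ = b * ∑ l, ‖DD c (l - x) * DD d (l - x) - DD c (l - x - m) * DD d (l - x - m)‖ := by rw [Finset.mul_sum]
        _ = b * ∑ l, ‖DD c l * DD d l - DD c (l - m) * DD d (l - m)‖ := by
            exact congrArg (fun t => b * t)
              (Equiv.sum_comp (Equiv.subRight x) (fun l => ‖DD c l * DD d l - DD c (l - m) * DD d (l - m)‖))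
        _ ≤ _ := mul_le_mul_of_nonneg_left hTV hb0
    calc _ ≤ b * (3 * η * (Q * √(S.card * T.card))) / (Q * S.card) := by gcongr
      _ = b * (3 * η * (Q * √(S.card * T.card)) / (Q * S.card)) := by ring
      _ ≤ b * (1 / 4) := mul_le_mul_of_nonneg_left hfin hb0
      _ = b / 4 := by ring
  have e1 := hstep x
  have e2 := hstep (x + m)
  have e3 : h x - h (x + m) = (h x - A x) - (h (x + m) - A (x + m)) + (A x - A (x + m)) := by ring
  rw [e3]
  refine (norm_add_le _ _).trans ?_
  have e4 := norm_sub_le (h x - A x) (h (x + m) - A (x + m))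
  have e5 : ‖h x - A x‖ ≤ B := e1
  have e6 : ‖h (x + m) - A (x + m)‖ ≤ B := e2
  linarith

end Pool.Agent.L5helper50.ACC
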