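import Pool.Agent.L5helper50.ACC.Global

namespace Pool.Agent.L5helper50.ACC

open Finset

theorem ones_cons {n : ℕ} (b : Bool) (y : Fin n → Bool) :
    ones (Fin.cons b y : Fin (n + 1) → Bool) = (if b then 1 else 0) + ones y := by
  unfold ones
  rw [card_filter, Fin.sum_univ_succ, card_filter]
  simp

/-- Sum over the cube of a function of the number of ones. -/
theorem sum_ones (n : ℕ) (G : ℕ → ℂ) :
    ∑ y : Fin n → Bool, G (ones y) = ∑ j ∈ range (n + 1), (n.choose j : ℂ) * G j := by
  have h := sum_powerset_apply_card (fun j => G j) (x := (univ : Finset (Fin n)))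
  rw [card_univ, Fintype.card_fin] at h
  simp only [nsmul_eq_mul] at h
  rw [← h]
  refine sum_nbij' (fun y => univ.filter fun i => y i = true) (fun S i => decide (i ∈ S))
    ?_ ?_ ?_ ?_ ?_
  · intro y _
    simp
  · intro S _
    simp
  · intro y _
    funext i
    simp
  · intro S _
    ext i
    simp
  · intro y _
    rfl

theorem prod_ones {n : ℕ} (ω : ℂ) (y : Fin n → Bool) :
    ∏ i, (if y i = true then ω else 1) = ω ^ ones y := by
  unfold ones
  rw [prod_ite, prod_const_one, mul_one, prod_const]

theorem threshold_sum (n t : ℕ) (ht : 1 ≤ t) (ω : ℂ) :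
    ∑ x : Fin (n + 1) → Bool, (if t ≤ ones x then (1 : ℂ) else 0) *
      ∏ i, (if i = 0 then (if x i = true then (1 : ℂ) else -1) else (if x i = true then ω else 1))
      = (n.choose (t - 1) : ℂ) * ω ^ (t - 1) := by
  rw [← Fintype.sum_equiv (Fin.consEquiv (fun _ => Bool)) (fun p : Bool × (Fin n → Bool) =>
      (if t ≤ (if p.1 then 1 else 0) + ones p.2 then (1 : ℂ) else 0) *
        ((if p.1 = true then (1 : ℂ) else -1) * ω ^ ones p.2))]
  · rw [Fintype.sum_prod_type, Fintype.sum_bool, ← sum_add_distrib]
    have h1 : ∀ y : Fin n → Bool,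
        ((if t ≤ (if (true, y).1 then 1 else 0) + ones (true, y).2 then (1 : ℂ) else 0) *
          ((if (true, y).1 = true then (1 : ℂ) else -1) * ω ^ ones (true, y).2)) +
        ((if t ≤ (if (false, y).1 then 1 else 0) + ones (false, y).2 then (1 : ℂ) else 0) *
          ((if (false, y).1 = true then (1 : ℂ) else -1) * ω ^ ones (false, y).2))
        = (fun j => if j = t - 1 then ω ^ j else 0) (ones y) := by
      intro y
      simp only [if_true, Bool.false_eq_true, if_false, one_mul, zero_add]
      by_cases h : t ≤ ones y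
      · have h2 : t ≤ 1 + ones y := by omega
        have h3 : ¬ ones y = t - 1 := by omega
        simp [h, h2, h3]
      · by_cases h4 : ones y = t - 1
        · have h2 : t ≤ 1 + ones y := by omega
          rw [if_pos h2, if_neg h, if_pos h4]
          ring
        · have h2 : ¬ t ≤ 1 + ones y := by omega
          rw [if_neg h2, if_neg h, if_neg h4]
          ring
    rw [sum_congr rfl fun y _ => h1 y, sum_ones n (fun j => if j = t - 1 then ω ^ j else 0)]
    by_cases h5 : t - 1 < n + 1
    · rw [sum_eq_single (t - 1)]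
      · simp
      · intro j _ hj
        simp [hj]
      · intro h6
        exact absurd (mem_range.2 h5) h6
    · rw [Nat.choose_eq_zero_of_lt (by omega), Nat.cast_zero, zero_mul]
      apply sum_eq_zero
      intro j hj
      rw [mem_range] at hj
      have : ¬ j = t - 1 := by omega
      simp [this]
  · rintro ⟨b, y⟩
    have h1 : (Fin.consEquiv (fun _ => Bool)) (b, y) = (Fin.cons b y : Fin (n + 1) → Bool) := rfl
    rw [h1, ones_cons, Fin.prod_univ_succ]
    simp only [Fin.cons_zero, Fin.cons_succ, Fin.succ_ne_zero, if_false, if_true, prod_ones]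

theorem exp_pi_div {m : ℕ} (hm : m ≠ 0) :
    ‖Complex.exp (Real.pi / m * Complex.I)‖ = 1 ∧
      Complex.exp (Real.pi / m * Complex.I) ^ m = -1 := by
  have hm' : (m : ℂ) ≠ 0 := by exact_mod_cast hm
  constructor
  · have : (Real.pi / m * Complex.I : ℂ) = ((Real.pi / m : ℝ) : ℂ) * Complex.I := by
      push_cast; rfl
    rw [this, Complex.norm_exp_ofReal_mul_I]
  · rw [← Complex.exp_nat_mul]
    have : (m : ℂ) * (Real.pi / m * Complex.I) = Real.pi * Complex.I := by
      field_simp
    rw [this, Complex.exp_pi_mul_I]

end Pool.Agent.L5helper50.ACC
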