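import Pool.Agent.L5helper50.ACC.Global
import Pool.Agent.L5helper50.ACC.KernelEps
import Pool.Agent.L5helper50.ACC.Maj

namespace Pool.Agent.L5helper50.ACC

open Finset

theorem card_ones (n l : ℕ) : (univ.filter fun x : Fin n → Bool => ones x = l).card
    = n.choose l := by
  have h := sum_ones n (fun j => if j = l then 1 else 0)
  have h1 : ((univ.filter fun x : Fin n → Bool => ones x = l).card : ℂ) = n.choose l := by
    rw [card_filter]
    push_cast
    rw [h]
    by_cases hl : l < n + 1
    · rw [sum_eq_single l]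
      · simp
      · intro j _ hj
        simp [hj]
      · intro h'
        exact absurd (mem_range.2 hl) h'
    · rw [Nat.choose_eq_zero_of_lt (by omega), Nat.cast_zero]
      apply sum_eq_zero
      intro j hj
      rw [mem_range] at hj
      have : ¬ j = l := by omega
      simp [this]
  exact_mod_cast h1

theorem acc_le {n : ℕ} (F : (Fin n → Bool) → Bool) (l : ℕ) : acc F l ≤ n.choose l := by
  rw [← card_ones]
  apply card_le_card
  intro x hx
  rw [mem_filter] at hx ⊢
  exact ⟨hx.1, hx.2.2⟩

theorem ones_le {n : ℕ} (x : Fin n → Bool) : ones x ≤ n := by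
  unfold ones
  refine (card_filter_le _ _).trans ?_
  rw [card_univ, Fintype.card_fin]

theorem sum_acc {n : ℕ} (F : (Fin n → Bool) → Bool) (G : ℕ → ℂ) :
    ∑ l ∈ range (n + 1), (acc F l : ℂ) * G l
      = ∑ x : Fin n → Bool, (if F x = true then (1 : ℂ) else 0) * G (ones x) := by
  have h1 : ∀ l ∈ range (n + 1), (acc F l : ℂ) * G l
      = ∑ x : Fin n → Bool, (if ones x = l then
          (if F x = true then (1 : ℂ) else 0) * G (ones x) else 0) := by
    intro l _
    rw [acc, card_filter]
    push_cast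
    rw [sum_mul]
    apply sum_congr rfl
    intro x _
    by_cases h2 : ones x = l <;> by_cases h3 : F x = true <;> simp [h2, h3]
  rw [sum_congr rfl h1, sum_comm]
  apply sum_congr rfl
  intro x _
  rw [sum_ite_eq, if_pos (mem_range.2 (Nat.lt_succ_of_le (ones_le x)))]

theorem prod_two {n : ℕ} (a b : ℂ) (x : Fin n → Bool) :
    ∏ i, (if x i = true then a else b) = a ^ ones x * b ^ (n - ones x) := by
  unfold ones
  rw [prod_ite, prod_const, prod_const]
  congr 2
  have h := card_filter_add_card_filter_not (s := (univ : Finset (Fin n)))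
    (fun i => x i = true)
  rw [card_univ, Fintype.card_fin] at h
  omega

/-- exponential decay beats the polynomial -/
theorem exists_decay' {δ : ℝ} (hδ : 0 < δ) (K : ℝ) : ∃ n₀ : ℕ, ∀ n : ℕ, n₀ ≤ n →
    K * (n + 1) * ((2 : ℝ) ^ (-δ)) ^ n ≤ 1 := by
  have hr0 : (0 : ℝ) ≤ (2 : ℝ) ^ (-δ) := by positivity
  have hr1 : (2 : ℝ) ^ (-δ) < 1 := Real.rpow_lt_one_of_one_lt_of_neg (by norm_num) (by linarith)
  have h1 := tendsto_self_mul_const_pow_of_lt_one hr0 hr1
  have h2 := tendsto_pow_atTop_nhds_zero_of_lt_one hr0 hr1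
  have h3 := (h1.add h2).const_mul K
  rw [add_zero, mul_zero] at h3
  obtain ⟨n₀, hn₀⟩ := Filter.eventually_atTop.1 (h3.eventually_lt_const zero_lt_one)
  refine ⟨n₀, fun n hn => ?_⟩
  have h4 := hn₀ n hn
  have h6 : K * (n + 1) * ((2 : ℝ) ^ (-δ)) ^ n
      = K * (n * ((2 : ℝ) ^ (-δ)) ^ n + ((2 : ℝ) ^ (-δ)) ^ n) := by ring
  rw [h6]
  exact h4.le

section mode

variable {n l : ℕ} {lam : ℝ}

theorem mode_up (hl : 0 < l) (hln : l < n) (hlam : lam * (n - l) = l) {j : ℕ} (hj : l ≤ j) :
    (n.choose (j + 1) : ℝ) * lam ^ (j + 1) ≤ n.choose j * lam ^ j := by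
  have hnl : (0 : ℝ) < n - l := by
    have : (l : ℝ) < n := by exact_mod_cast hln
    linarith
  have hl0 : (0 : ℝ) < l := by exact_mod_cast hl
  have hlam0 : 0 < lam := by
    by_contra h
    push Not at h
    nlinarith
  rcases Nat.lt_or_ge j n with hjn | hjn
  · have h1 : (n.choose (j + 1) : ℝ) * (j + 1) = n.choose j * (n - j) := by
      have := Nat.choose_succ_right_eq n j
      have h2 : ((n.choose (j + 1) * (j + 1) : ℕ) : ℝ) = ((n.choose j * (n - j) : ℕ) : ℝ) := by
        rw [this]
      push_cast [Nat.cast_sub hjn.le] at h2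
      exact h2
    have h3 : (n - j : ℝ) * lam ≤ j + 1 := by
      have hjl : (l : ℝ) ≤ j := by exact_mod_cast hj
      have h4 : (n - j : ℝ) * lam * (n - l) ≤ (j + 1) * (n - l) := by
        calc (n - j : ℝ) * lam * (n - l) = (n - j) * l := by rw [mul_assoc, hlam]
          _ ≤ (j + 1) * (n - l) := by nlinarith
      exact le_of_mul_le_mul_right h4 hnl
    have h5 : (n.choose (j + 1) : ℝ) * lam * (j + 1) ≤ n.choose j * (j + 1) := by
      calc (n.choose (j + 1) : ℝ) * lam * (j + 1) = n.choose j * ((n - j) * lam) := by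
            rw [mul_right_comm, h1]; ring
        _ ≤ n.choose j * (j + 1) := mul_le_mul_of_nonneg_left h3 (by positivity)
    have h6 : (n.choose (j + 1) : ℝ) * lam ≤ n.choose j :=
      le_of_mul_le_mul_right h5 (by positivity)
    calc (n.choose (j + 1) : ℝ) * lam ^ (j + 1) = (n.choose (j + 1) * lam) * lam ^ j := by
          rw [pow_succ]; ring
      _ ≤ n.choose j * lam ^ j := mul_le_mul_of_nonneg_right h6 (by positivity)
  · rw [Nat.choose_eq_zero_of_lt (by omega : n < j + 1)]
    simp only [Nat.cast_zero, zero_mul]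
    positivity

theorem mode_down (hl : 0 < l) (hln : l < n) (hlam : lam * (n - l) = l) {j : ℕ} (hj : j < l) :
    (n.choose j : ℝ) * lam ^ j ≤ n.choose (j + 1) * lam ^ (j + 1) := by
  have hnl : (0 : ℝ) < n - l := by
    have : (l : ℝ) < n := by exact_mod_cast hln
    linarith
  have hl0 : (0 : ℝ) < l := by exact_mod_cast hl
  have hlam0 : 0 < lam := by
    by_contra h
    push Not at h
    nlinarith
  have h1 : (n.choose (j + 1) : ℝ) * (j + 1) = n.choose j * (n - j) := by
    have := Nat.choose_succ_right_eq n j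
    have h2 : ((n.choose (j + 1) * (j + 1) : ℕ) : ℝ) = ((n.choose j * (n - j) : ℕ) : ℝ) := by
      rw [this]
    push_cast [Nat.cast_sub (by omega : j ≤ n)] at h2
    exact h2
  have h3 : (j + 1 : ℝ) ≤ (n - j) * lam := by
    have hjl : (j + 1 : ℝ) ≤ l := by exact_mod_cast hj
    have hjl' : (j : ℝ) ≤ l := by linarith
    have h4 : (j + 1 : ℝ) * (n - l) ≤ (n - j) * lam * (n - l) := by
      calc (j + 1 : ℝ) * (n - l) ≤ l * (n - l) := mul_le_mul_of_nonneg_right hjl hnl.le
        _ ≤ (n - j) * l := by nlinarith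
        _ = (n - j : ℝ) * lam * (n - l) := by rw [mul_assoc, hlam]
    exact le_of_mul_le_mul_right h4 hnl
  have h5 : (n.choose j : ℝ) * (j + 1) ≤ n.choose (j + 1) * lam * (j + 1) := by
    calc (n.choose j : ℝ) * (j + 1) ≤ n.choose j * ((n - j) * lam) :=
          mul_le_mul_of_nonneg_left h3 (by positivity)
      _ = n.choose (j + 1) * lam * (j + 1) := by
          rw [mul_right_comm, h1]; ring
  have h6 : (n.choose j : ℝ) ≤ n.choose (j + 1) * lam :=
    le_of_mul_le_mul_right h5 (by positivity)
  calc (n.choose j : ℝ) * lam ^ j ≤ (n.choose (j + 1) * lam) * lam ^ j :=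
        mul_le_mul_of_nonneg_right h6 (by positivity)
    _ = n.choose (j + 1) * lam ^ (j + 1) := by rw [pow_succ]; ring

/-- The mode of the binomial distribution. -/
theorem mode (hl : 0 < l) (hln : l < n) (hlam : lam * (n - l) = l) (j : ℕ) :
    (n.choose j : ℝ) * lam ^ j ≤ n.choose l * lam ^ l := by
  rcases le_total l j with h | h
  · induction j, h using Nat.le_induction with
    | base => exact le_rfl
    | succ j hj ih => exact (mode_up hl hln hlam hj).trans ih
  · have key : ∀ t : ℕ, t ≤ l → (n.choose (l - t) : ℝ) * lam ^ (l - t) ≤ n.choose l * lam ^ l := by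
      intro t
      induction t with
      | zero => intro _; exact le_rfl
      | succ t ih =>
        intro ht
        have h1 := mode_down hl hln hlam (j := l - (t + 1)) (by omega)
        rw [show l - (t + 1) + 1 = l - t by omega] at h1
        exact h1.trans (ih (by omega))
    have h2 := key (l - j) (by omega)
    rwa [show l - (l - j) = j by omega] at h2

theorem mode_large (hl : 0 < l) (hln : l < n) (hlam : lam * (n - l) = l) :
    (1 + lam) ^ n ≤ (n + 1) * (n.choose l * lam ^ l) := by
  rw [add_comm, add_pow]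
  calc ∑ j ∈ range (n + 1), lam ^ j * 1 ^ (n - j) * (n.choose j : ℝ)
      ≤ ∑ j ∈ range (n + 1), (n.choose l : ℝ) * lam ^ l := by
        apply sum_le_sum
        intro j _
        rw [one_pow, mul_one, mul_comm]
        exact mode hl hln hlam j
    _ = (n + 1) * (n.choose l * lam ^ l) := by
        rw [sum_const, card_range, nsmul_eq_mul]
        push_cast
        ring

/-- The weights of the layers after the mode decrease slowly. -/
theorem ratio (hl : 0 < l) (hln : l < n) (hlam : lam * (n - l) = l) {m : ℕ} {ε : ℝ}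
    (hε0 : 0 ≤ ε) (hε1 : ε ≤ 1) (h1 : (m : ℝ) ≤ ε * l) (h2 : (m : ℝ) ≤ ε * (n - l))
    (hm : l + m ≤ n) (i : ℕ) (hi : i ≤ m) :
    (1 - ε) ^ (2 * i) * (n.choose l * lam ^ l) ≤ n.choose (l + i) * lam ^ (l + i) := by
  have hnl : (0 : ℝ) < n - l := by
    have : (l : ℝ) < n := by exact_mod_cast hln
    linarith
  have hl0 : (0 : ℝ) < l := by exact_mod_cast hl
  have hlam0 : 0 < lam := by
    by_contra h
    push Not at h
    nlinarith
  induction i with
  | zero => simp
  | succ i ih =>
    have ih' := ih (by omega)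
    have h3 : (n.choose (l + i + 1) : ℝ) * (l + i + 1) = n.choose (l + i) * (n - (l + i)) := by
      have := Nat.choose_succ_right_eq n (l + i)
      have h4 : ((n.choose (l + i + 1) * (l + i + 1) : ℕ) : ℝ)
          = ((n.choose (l + i) * (n - (l + i)) : ℕ) : ℝ) := by
        rw [this]
      push_cast [Nat.cast_sub (by omega : l + i ≤ n)] at h4
      exact h4
    have him : (i : ℝ) + 1 ≤ m := by exact_mod_cast hi
    have hi0 : (0 : ℝ) ≤ i := Nat.cast_nonneg i
    -- the two factors
    have h5 : (1 - ε) * (n - l) ≤ n - (l + i : ℝ) := by nlinarith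
    have h6 : (1 - ε) * (l + i + 1) ≤ (l : ℝ) := by
      have : ε * (i + 1) ≥ 0 := by positivity
      nlinarith
    have h7 : (1 - ε) ^ 2 * (l + i + 1) ≤ (n - (l + i : ℝ)) * lam := by
      have h8 : (1 - ε) ^ 2 * (l + i + 1) * (n - l) ≤ (n - (l + i : ℝ)) * lam * (n - l) := by
        calc (1 - ε) ^ 2 * (l + i + 1) * (n - l)
            = ((1 - ε) * (n - l)) * ((1 - ε) * (l + i + 1)) := by ring
          _ ≤ (n - (l + i : ℝ)) * l := by
              apply mul_le_mul h5 h6
              · have : 0 ≤ 1 - ε := by linarith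
                positivity
              · have : 0 ≤ (1 - ε) * (n - l : ℝ) := mul_nonneg (by linarith) hnl.le
                linarith
          _ = (n - (l + i : ℝ)) * lam * (n - l) := by rw [mul_assoc, hlam]
      exact le_of_mul_le_mul_right h8 hnl
    have h9 : (1 - ε) ^ 2 * (n.choose (l + i) : ℝ) ≤ n.choose (l + i + 1) * lam := by
      have h10 : (1 - ε) ^ 2 * (n.choose (l + i) : ℝ) * (l + i + 1)
          ≤ n.choose (l + i + 1) * lam * (l + i + 1) := by
        calc (1 - ε) ^ 2 * (n.choose (l + i) : ℝ) * (l + i + 1)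
            = n.choose (l + i) * ((1 - ε) ^ 2 * (l + i + 1)) := by ring
          _ ≤ n.choose (l + i) * ((n - (l + i : ℝ)) * lam) :=
              mul_le_mul_of_nonneg_left h7 (by positivity)
          _ = n.choose (l + i + 1) * lam * (l + i + 1) := by
              rw [mul_right_comm, h3]; ring
      exact le_of_mul_le_mul_right h10 (by positivity)
    calc (1 - ε) ^ (2 * (i + 1)) * (n.choose l * lam ^ l)
        = (1 - ε) ^ 2 * ((1 - ε) ^ (2 * i) * (n.choose l * lam ^ l)) := by
          rw [mul_add, pow_add]; ring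
      _ ≤ (1 - ε) ^ 2 * (n.choose (l + i) * lam ^ (l + i)) :=
          mul_le_mul_of_nonneg_left ih' (by positivity)
      _ = ((1 - ε) ^ 2 * n.choose (l + i)) * lam ^ (l + i) := by ring
      _ ≤ (n.choose (l + i + 1) * lam) * lam ^ (l + i) :=
          mul_le_mul_of_nonneg_right h9 (by positivity)
      _ = n.choose (l + (i + 1)) * lam ^ (l + (i + 1)) := by
          rw [← add_assoc, pow_succ lam (l + i)]; ring

end mode

end Pool.Agent.L5helper50.ACC
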