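import Pool.Agent.L5helper50.ACC.Layer

namespace Pool.Agent.L5helper50.ACC

open Finset

/-- The acceptance probability on a layer is almost `m`-periodic. -/
theorem layers {m : ℕ} (hm : 2 ≤ m) (k c d P : ℕ) (hP : 0 < P) :
    ∃ δ : ℝ, 0 < δ ∧ ∃ n₀ : ℕ, ∀ (n s : ℕ) (C : Circuit n s) (U : Finset (Fin s)) (o : Fin s),
      n₀ ≤ n → C.Sparse m k c d U → (U.card : ℝ) ≤ δ * n →
      ∀ F : (Fin n → Bool) → Bool, C.Determines U o F →
      ∀ l : ℕ, n ≤ P * l → P * (l + m) + n ≤ P * n →
        |(acc F l : ℝ) / n.choose l - acc F (l + m) / n.choose (l + m)| ≤ 1 / P := by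
  have hPR : (1 : ℝ) ≤ P := by exact_mod_cast hP
  have hmR : (2 : ℝ) ≤ m := by exact_mod_cast hm
  obtain ⟨η₀, hη₀, hker⟩ := kernel_lemma_eps m (by omega) (1 / (2 * P)) (by positivity) (by
    rw [div_le_one (by positivity)]; linarith)
  have hη0 : 0 < min η₀ 2 := lt_min hη₀ (by norm_num)
  obtain ⟨K, δ, hK, hδ, hmain⟩ := biased_bound hm k c d hη0 (min_le_right _ _) hPR
  obtain ⟨n₁, hn₁⟩ := exists_decay' hδ (8 * P * K)
  refine ⟨δ, hδ, n₁ + 8 * m ^ 2 * P ^ 2 + 1, ?_⟩
  intro n s C U o hn hC hU F hF l hl1 hl2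
  have hn0 : 0 < n := by omega
  have hn8 : 8 * m ^ 2 * P ^ 2 ≤ n := by omega
  have hdec := hn₁ n (by omega)
  -- the position of `l`
  have hl0 : 0 < l := by
    rcases Nat.eq_zero_or_pos l with h | h
    · subst h; omega
    · exact h
  have hlmn : l + m < n := by
    by_contra h
    push Not at h
    have := Nat.mul_le_mul_left P h
    omega
  have hln : l < n := by omega
  have hl0R : (0 : ℝ) < l := by exact_mod_cast hl0
  have hnl : (0 : ℝ) < n - l := by
    have : (l : ℝ) < n := by exact_mod_cast hln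
    linarith
  have hl1R : (n : ℝ) ≤ P * l := by exact_mod_cast hl1
  have hl2R : (P : ℝ) * (l + m) + n ≤ P * n := by exact_mod_cast hl2
  set lam : ℝ := l / (n - l) with hlamdef
  have hlam : lam * (n - l) = l := by rw [hlamdef]; field_simp
  have hlam0 : 0 < lam := by positivity
  have hlamP1 : 1 ≤ P * lam := by
    rw [hlamdef, ← mul_div_assoc, le_div_iff₀ hnl]
    nlinarith
  have hlamP2 : lam ≤ P := by
    rw [hlamdef, div_le_iff₀ hnl]
    nlinarith
  set S : ℝ := (1 + lam) ^ n with hS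
  have hS0 : 0 < S := by positivity
  -- the weights
  set w : ℕ → ℝ := fun j => lam ^ j / S with hw
  have hw0 : ∀ j, 0 < w j := fun j => by rw [hw]; positivity
  set b : ℝ := n.choose l * w l with hb
  have hcl0 : (0 : ℝ) < n.choose l := by exact_mod_cast Nat.choose_pos hln.le
  have hcm0 : (0 : ℝ) < n.choose (l + m) := by exact_mod_cast Nat.choose_pos hlmn.le
  have hb0 : 0 < b := by positivity
  have hbmode : ∀ j, (n.choose j : ℝ) * w j ≤ b := by
    intro j
    rw [hb, hw]
    simp only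
    rw [← mul_div_assoc, ← mul_div_assoc]
    exact div_le_div_of_nonneg_right (mode hl0 hln hlam j) hS0.le
  have hblarge : 1 ≤ (n + 1) * b := by
    rw [hb, hw]
    simp only
    have h1 := mode_large hl0 hln hlam
    rw [← mul_div_assoc, ← mul_div_assoc, le_div_iff₀ hS0, one_mul]
    exact h1
  set B : ℝ := K * ((2 : ℝ) ^ (-δ)) ^ n with hB
  have hB0 : 0 ≤ B := by positivity
  set h : ZMod (n + 1) → ℂ := fun j => ((acc F j.val * w j.val : ℝ) : ℂ) with hh
  have hhb : ∀ j, ‖h j‖ ≤ b := by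
    intro j
    rw [hh]
    simp only
    rw [Complex.norm_real, Real.norm_eq_abs, abs_of_nonneg (mul_nonneg (by positivity) (hw0 _).le)]
    refine le_trans ?_ (hbmode j.val)
    apply mul_le_mul_of_nonneg_right _ (hw0 _).le
    exact_mod_cast acc_le F _
  have hfour : ∀ ω : ℂ, ω ^ (n + 1) = 1 → η₀ ≤ ‖1 - ω ^ m‖ →
      ‖∑ j : ZMod (n + 1), h j * ω ^ j.val‖ ≤ B := by
    intro ω hω hfar
    have hωn : ‖ω‖ = 1 := Complex.norm_eq_one_of_pow_eq_one hω (by omega)
    have h1 : ∑ j : ZMod (n + 1), h j * ω ^ j.val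
        = ∑ x : Fin n → Bool, (if F x = true then (1 : ℂ) else 0) *
          ∏ i, (if x i = true then (((lam / (1 + lam) : ℝ) : ℂ) * ω)
            else ((1 / (1 + lam) : ℝ) : ℂ)) := by
      have h3 := Fin.sum_univ_eq_sum_range
        (fun j => (acc F j : ℂ) * (((w j : ℝ) : ℂ) * ω ^ j)) (n + 1)
      rw [sum_acc F (fun j => ((w j : ℝ) : ℂ) * ω ^ j)] at h3
      have h4 : ∑ j : ZMod (n + 1), h j * ω ^ j.val
          = ∑ j : Fin (n + 1), (acc F j : ℂ) * (((w j : ℝ) : ℂ) * ω ^ (j : ℕ)) := by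
        change ∑ j : Fin (n + 1), _ = _
        apply sum_congr rfl
        intro j _
        rw [hh]
        simp only
        push_cast
        rw [mul_assoc]
        rfl
      rw [h4, h3]
      apply sum_congr rfl
      intro x _
      congr 1
      rw [prod_two, hw]
      simp only
      have hx := ones_le x
      have hSC : ((1 : ℂ) + lam) ≠ 0 := by
        have : (1 + lam : ℝ) ≠ 0 := by positivity
        exact_mod_cast this
      rw [hS]
      push_cast
      rw [mul_pow, div_pow, div_pow, one_pow]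
      have h5 : ((1 : ℂ) + lam) ^ n = (1 + lam) ^ ones x * (1 + lam) ^ (n - ones x) := by
        rw [← pow_add]
        congr 1
        omega
      rw [h5]
      field_simp
    rw [h1]
    exact hmain n s C U o hn0 hC hU F hF ω hωn ((min_le_left _ _).trans hfar) lam hlamP1 hlamP2
  have hfin := hker (n + 1) h b B hhb hfour hB0 ((l : ℕ) : ZMod (n + 1))
  have hv1 : (((l : ℕ) : ZMod (n + 1))).val = l := ZMod.val_natCast_of_lt (by omega)
  have hv2 : (((l : ℕ) : ZMod (n + 1)) + (m : ZMod (n + 1))).val = l + m := by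
    rw [← Nat.cast_add]
    exact ZMod.val_natCast_of_lt (by omega)
  rw [hh] at hfin
  simp only at hfin
  rw [hv1, hv2, ← Complex.ofReal_sub, Complex.norm_real, Real.norm_eq_abs] at hfin
  -- the ratio of the weights
  set ε : ℝ := 1 / (8 * m * P) with hε
  have hε0 : 0 < ε := by positivity
  have hε1 : ε ≤ 1 := by
    rw [hε, div_le_one (by positivity)]
    nlinarith
  have hn8R : (8 : ℝ) * m ^ 2 * P ^ 2 ≤ n := by exact_mod_cast hn8
  have hm0 : (0 : ℝ) < m := by linarith
  have hP0 : (0 : ℝ) < P := by linarith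
  have hε2 : (m : ℝ) ≤ ε * l := by
    rw [hε, one_div, inv_mul_eq_div, le_div_iff₀ (by positivity)]
    have h1 : (P : ℝ) * (m * (8 * m * P)) ≤ P * l := by nlinarith
    exact le_of_mul_le_mul_left h1 hP0
  have hε3 : (m : ℝ) ≤ ε * (n - l) := by
    rw [hε, one_div, inv_mul_eq_div, le_div_iff₀ (by positivity)]
    have h1 : (P : ℝ) * (m * (8 * m * P)) ≤ P * (n - l) := by nlinarith
    exact le_of_mul_le_mul_left h1 hP0
  have hratio := ratio hl0 hln hlam hε0.le hε1 hε2 hε3 (by omega) m le_rfl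
  have hbern : 1 - 1 / (4 * P) ≤ (1 - ε) ^ (2 * m) := by
    have h1 := one_add_mul_le_pow (a := -ε) (by linarith) (2 * m)
    have h2 : 1 + ((2 * m : ℕ) : ℝ) * -ε = 1 - 1 / (4 * P) := by
      rw [hε]
      push_cast
      field_simp
      ring
    rw [h2] at h1
    rwa [← sub_eq_add_neg] at h1
  set p : ℝ := acc F l / n.choose l with hp
  set p' : ℝ := acc F (l + m) / n.choose (l + m) with hp'
  set κ : ℝ := n.choose (l + m) * w (l + m) / b with hκ
  have hκ1 : κ ≤ 1 := by
    rw [hκ, div_le_one hb0]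
    exact hbmode _
  have hκ0 : 1 - 1 / (4 * P) ≤ κ := by
    rw [hκ, le_div_iff₀ hb0]
    calc (1 - 1 / (4 * P)) * b ≤ (1 - ε) ^ (2 * m) * b := mul_le_mul_of_nonneg_right hbern hb0.le
      _ = (1 - ε) ^ (2 * m) * (n.choose l * lam ^ l) / S := by
          rw [hb, hw]; ring
      _ ≤ n.choose (l + m) * lam ^ (l + m) / S := div_le_div_of_nonneg_right hratio hS0.le
      _ = n.choose (l + m) * w (l + m) := by rw [hw]; ring
  have hp'0 : 0 ≤ p' := by positivity
  have hp'1 : p' ≤ 1 := by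
    rw [hp', div_le_one hcm0]
    exact_mod_cast acc_le F _
  have e1 : acc F l * w l = p * b := by
    rw [hp, hb]; field_simp
  have e2 : acc F (l + m) * w (l + m) = p' * κ * b := by
    rw [hp', hκ]; field_simp
  rw [e1, e2] at hfin
  have h1 : |p * b - p' * κ * b| = |p - p' * κ| * b := by
    rw [← sub_mul, abs_mul, abs_of_pos hb0]
  rw [h1] at hfin
  have h2 : |p - p' * κ| ≤ 2 * B * (n + 1) + 1 / (2 * P) := by
    have h3 : |p - p' * κ| * b ≤ (2 * B * (n + 1) + 1 / (2 * P)) * b := by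
      calc |p - p' * κ| * b ≤ 2 * B + b * (1 / (2 * P)) := hfin
        _ ≤ 2 * B * ((n + 1) * b) + b * (1 / (2 * P)) := by
            have : 2 * B * 1 ≤ 2 * B * ((n + 1) * b) :=
              mul_le_mul_of_nonneg_left hblarge (by positivity)
            linarith
        _ = _ := by ring
    exact le_of_mul_le_mul_right h3 hb0
  have h4 : 2 * B * (n + 1) ≤ 1 / (4 * P) := by
    rw [le_div_iff₀ (by positivity), hB]
    calc 2 * (K * ((2 : ℝ) ^ (-δ)) ^ n) * (n + 1) * (4 * P)
        = 8 * P * K * (n + 1) * ((2 : ℝ) ^ (-δ)) ^ n := by ring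
      _ ≤ 1 := hdec
  have h5 : |p - p'| ≤ |p - p' * κ| + |p' * κ - p'| := abs_sub_le _ _ _
  have h6 : |p' * κ - p'| ≤ 1 / (4 * P) := by
    have h7 : p' * κ - p' = -(p' * (1 - κ)) := by ring
    rw [h7, abs_neg, abs_of_nonneg (mul_nonneg hp'0 (by linarith))]
    calc p' * (1 - κ) ≤ 1 * (1 / (4 * P)) := by
          apply mul_le_mul hp'1 (by linarith) (by linarith) zero_le_one
      _ = _ := one_mul _
  have h8 : 1 / (4 * P : ℝ) + 1 / (2 * P) + 1 / (4 * P) = 1 / P := by
    field_simp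
    norm_num
  linarith

end Pool.Agent.L5helper50.ACC
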