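import Pool.Agent.L5helper50.ACC.Layers

namespace Pool.Agent.L5helper50.ACC

open Finset

theorem choose_near (L : ℕ) : ∃ n₀ : ℕ, ∀ n, n₀ ≤ n → ∀ j, n / 2 ≤ j → j ≤ n / 2 + L →
    (n.choose (n / 2) : ℝ) ≤ 2 * n.choose j := by
  refine ⟨16 * (L + 1) ^ 2 + 16, ?_⟩
  intro n hn j hj1 hj2
  set l := n / 2 with hl
  have hL2 : L + 1 ≤ (L + 1) ^ 2 := by nlinarith
  have hl0 : 0 < l := by omega
  have hln : l < n := by omega
  have hl0R : (0 : ℝ) < l := by exact_mod_cast hl0
  have hnl : (0 : ℝ) < n - l := by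
    have : (l : ℝ) < n := by exact_mod_cast hln
    linarith
  set lam : ℝ := l / (n - l) with hlamdef
  have hlam : lam * (n - l) = l := by rw [hlamdef]; field_simp
  have hlam0 : 0 < lam := by positivity
  have hll : (l : ℝ) ≤ n - l := by
    have : l + l ≤ n := by omega
    have : (l : ℝ) + l ≤ n := by exact_mod_cast this
    linarith
  have hlam1 : lam ≤ 1 := by
    rw [hlamdef, div_le_one hnl]
    exact hll
  set ε : ℝ := 1 / (4 * (L + 1)) with hε
  have hε0 : 0 ≤ ε := by positivity
  have hε1 : ε ≤ 1 := by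
    rw [hε, div_le_one (by positivity)]
    have : (0 : ℝ) ≤ L := Nat.cast_nonneg L
    linarith
  have h8 : (4 : ℝ) * (L + 1) ^ 2 ≤ l := by
    have : 4 * (L + 1) ^ 2 ≤ l := by omega
    exact_mod_cast this
  have hLε : (L : ℝ) ≤ ε * l := by
    rw [hε, one_div, inv_mul_eq_div, le_div_iff₀ (by positivity)]
    nlinarith
  have hLε' : (L : ℝ) ≤ ε * (n - l) := hLε.trans (mul_le_mul_of_nonneg_left hll hε0)
  have h1 := ratio hl0 hln hlam hε0 hε1 hLε hLε' (by omega) (j - l) (by omega)
  rw [show l + (j - l) = j by omega] at h1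
  have h2 : (1 / 2 : ℝ) ≤ (1 - ε) ^ (2 * (j - l)) := by
    have h3 := one_add_mul_le_pow (a := -ε) (by linarith) (2 * (j - l))
    have h4 : ((2 * (j - l) : ℕ) : ℝ) * ε ≤ 1 / 2 := by
      have h5 : ((2 * (j - l) : ℕ) : ℝ) ≤ 2 * L := by
        have : 2 * (j - l) ≤ 2 * L := by omega
        exact_mod_cast this
      calc ((2 * (j - l) : ℕ) : ℝ) * ε ≤ 2 * L * ε := mul_le_mul_of_nonneg_right h5 hε0
        _ ≤ 1 / 2 := by
          rw [hε, ← mul_div_assoc, div_le_iff₀ (by positivity)]
          have : (0 : ℝ) ≤ L := Nat.cast_nonneg L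
          linarith
    rw [← sub_eq_add_neg] at h3
    linarith
  have hpl : 0 < lam ^ l := by positivity
  have h6 : (1 / 2 : ℝ) * (n.choose l * lam ^ l) ≤ n.choose j * lam ^ l := by
    calc (1 / 2 : ℝ) * (n.choose l * lam ^ l)
        ≤ (1 - ε) ^ (2 * (j - l)) * (n.choose l * lam ^ l) :=
          mul_le_mul_of_nonneg_right h2 (by positivity)
      _ ≤ n.choose j * lam ^ j := h1
      _ ≤ n.choose j * lam ^ l := by
          apply mul_le_mul_of_nonneg_left _ (by positivity)
          exact pow_le_pow_of_le_one hlam0.le hlam1 hj1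
  have h7 : (1 / 2 : ℝ) * n.choose l * lam ^ l ≤ n.choose j * lam ^ l := by linarith
  have h9 := le_of_mul_le_mul_right h7 hpl
  linarith

/-- Iterating the almost periodicity. -/
theorem layers_iter {n : ℕ} (F : (Fin n → Bool) → Bool) {m P : ℕ} (hP : 0 < P)
    (h : ∀ l : ℕ, n ≤ P * l → P * (l + m) + n ≤ P * n →
      |(acc F l : ℝ) / n.choose l - acc F (l + m) / n.choose (l + m)| ≤ 1 / P)
    (K l : ℕ) (hl1 : n ≤ P * l) (hl2 : P * (l + K * m) + n ≤ P * n) :
    |(acc F l : ℝ) / n.choose l - acc F (l + K * m) / n.choose (l + K * m)| ≤ K / P := by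
  induction K with
  | zero => simp
  | succ K ih =>
    have h0 : l + (K + 1) * m = (l + K * m) + m := by ring
    rw [h0] at hl2 ⊢
    have h00 : P * (l + K * m) ≤ P * (l + K * m + m) := Nat.mul_le_mul_left P (by omega)
    have h01 : P * l ≤ P * (l + K * m) := Nat.mul_le_mul_left P (by omega)
    have h1 := ih (by omega)
    have h2 := h (l + K * m) (by omega) hl2
    have h3 := abs_sub_le ((acc F l : ℝ) / n.choose l)
      (acc F (l + K * m) / n.choose (l + K * m))
      (acc F (l + K * m + m) / n.choose (l + K * m + m))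
    have h4 : (((K + 1 : ℕ) : ℝ)) / P = K / P + 1 / P := by
      push_cast
      ring
    rw [h4]
    linarith

/-- MAJORITY: many errors. -/
theorem majority_error_strong {m : ℕ} (hm : 2 ≤ m) (k c d P : ℕ) :
    ∃ δ : ℝ, 0 < δ ∧ ∃ n₀ : ℕ, ∀ (n s : ℕ) (C : Circuit n s) (U : Finset (Fin s)) (o : Fin s),
      n₀ ≤ n → C.Sparse m k c d U → (U.card : ℝ) ≤ δ * n →
      ∀ F : (Fin n → Bool) → Bool, C.Determines U o F →
        P * n.choose (n / 2) ≤
          (univ.filter fun x : Fin n → Bool => F x ≠ decide (n ≤ 2 * ones x)).card := by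
  classical
  rcases Nat.eq_zero_or_pos P with rfl | hP
  · exact ⟨1, one_pos, 0, fun n s C U o _ _ _ F _ => by simp⟩
  set K := 2 * P with hK
  obtain ⟨δ, hδ, n₀, hlay⟩ := layers hm k c d (8 * K) (by omega)
  set L := K * m with hL
  obtain ⟨r₀, hr₀⟩ := choose_near (L + 1)
  refine ⟨δ, hδ, n₀ + r₀ + 8 * (L + m + 2), ?_⟩
  intro n s C U o hn hC hU F hF
  have hlay' := hlay n s C U o (by omega) hC hU F hF
  have hnear := hr₀ n (by omega)
  set J := (n + 1) / 2 with hJ
  set b := n.choose (n / 2) with hb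
  set err : ℕ → ℕ := fun l => (univ.filter fun x : Fin n → Bool =>
    F x ≠ decide (n ≤ 2 * ones x) ∧ ones x = l).card with herr
  have hlow : ∀ l, l < J → err l = acc F l := by
    intro l hl
    rw [herr, acc]
    simp only
    congr 1
    ext x
    simp only [mem_filter, mem_univ, true_and]
    constructor
    · rintro ⟨h1, h2⟩
      have h3 : ¬ n ≤ 2 * ones x := by omega
      rw [decide_eq_false h3] at h1
      exact ⟨by simpa using h1, h2⟩
    · rintro ⟨h1, h2⟩
      have h3 : ¬ n ≤ 2 * ones x := by omega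
      rw [decide_eq_false h3]
      exact ⟨by simpa using h1, h2⟩
  have hhigh : ∀ l, J ≤ l → err l + acc F l = n.choose l := by
    intro l hl
    rw [herr, acc, ← card_ones]
    simp only
    rw [← card_union_of_disjoint]
    · congr 1
      ext x
      simp only [mem_union, mem_filter, mem_univ, true_and]
      constructor
      · rintro (⟨_, h⟩ | ⟨_, h⟩) <;> exact h
      · intro h2
        have h3 : n ≤ 2 * ones x := by omega
        rw [decide_eq_true h3]
        by_cases h4 : F x = true
        · exact Or.inr ⟨h4, h2⟩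
        · exact Or.inl ⟨h4, h2⟩
    · rw [disjoint_left]
      intro x hx hx'
      simp only [mem_filter, mem_univ, true_and] at hx hx'
      have h3 : n ≤ 2 * ones x := by omega
      rw [decide_eq_true h3] at hx
      exact hx.1 hx'.1
  have hpair : ∀ l, J ≤ l + L → l < J → (7 / 16 : ℝ) * b ≤ err l + err (l + L) := by
    intro l hl1 hl2
    have hP8 : 16 ≤ 8 * K := by omega
    have hlow1 : n ≤ 8 * K * l := by
      have h1 : n ≤ 16 * l := by omega
      exact h1.trans (Nat.mul_le_mul_right l hP8)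
    have hhigh1 : 8 * K * (l + L) + n ≤ 8 * K * n := by
      have h1 : l + L + (n - (l + L)) = n := by omega
      have h2 : n ≤ 16 * (n - (l + L)) := by omega
      have h3 : 16 * (n - (l + L)) ≤ 8 * K * (n - (l + L)) := Nat.mul_le_mul_right _ hP8
      calc 8 * K * (l + L) + n ≤ 8 * K * (l + L) + 8 * K * (n - (l + L)) := by omega
        _ = 8 * K * n := by rw [← mul_add, h1]
    have h1 := layers_iter F (by omega : 0 < 8 * K) hlay' K l hlow1 hhigh1
    have hKR : (0 : ℝ) < K := by
      have : 0 < K := by omega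
      exact_mod_cast this
    have h2 : ((K : ℕ) : ℝ) / ((8 * K : ℕ) : ℝ) = 1 / 8 := by
      push_cast
      field_simp
    rw [h2, ← hL] at h1
    have hc1 : (b : ℝ) ≤ 2 * n.choose l := by
      have h3 := hnear (n - l) (by omega) (by omega)
      rwa [Nat.choose_symm (by omega)] at h3
    have hc2 : (b : ℝ) ≤ 2 * n.choose (l + L) := hnear (l + L) (by omega) (by omega)
    have hcl0 : (0 : ℝ) < n.choose l := by exact_mod_cast Nat.choose_pos (by omega : l ≤ n)
    have hcm0 : (0 : ℝ) < n.choose (l + L) := by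
      exact_mod_cast Nat.choose_pos (by omega : l + L ≤ n)
    set p : ℝ := (acc F l : ℝ) / n.choose l with hp
    set p' : ℝ := (acc F (l + L) : ℝ) / n.choose (l + L) with hp'
    have hp0 : 0 ≤ p := by positivity
    have hp'1 : p' ≤ 1 := by
      rw [hp', div_le_one hcm0]
      exact_mod_cast acc_le F _
    have e1 : (err l : ℝ) = p * n.choose l := by
      rw [hlow l hl2, hp]; field_simp
    have e2 : (err (l + L) : ℝ) = (1 - p') * n.choose (l + L) := by
      have h4 : ((err (l + L) : ℕ) : ℝ) + (acc F (l + L) : ℕ) = (n.choose (l + L) : ℕ) := by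
        exact_mod_cast hhigh (l + L) hl1
      rw [hp']
      field_simp
      linarith
    rw [e1, e2]
    have h5 := abs_le.1 h1
    have hb0 : (0 : ℝ) ≤ b := Nat.cast_nonneg b
    have h6 : p * (b / 2) ≤ p * n.choose l := mul_le_mul_of_nonneg_left (by linarith) hp0
    have h7 : (1 - p') * (b / 2) ≤ (1 - p') * n.choose (l + L) :=
      mul_le_mul_of_nonneg_left (by linarith) (by linarith)
    have h8 : (7 / 8 : ℝ) * (b / 2) ≤ (p + (1 - p')) * (b / 2) :=
      mul_le_mul_of_nonneg_right (by linarith [h5.1]) (by linarith)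
    linarith
  -- summing up
  have hsum : ∑ l ∈ Ico (J - L) J, (err l + err (l + L)) ≤
      (univ.filter fun x : Fin n → Bool => F x ≠ decide (n ≤ 2 * ones x)).card := by
    have h1 : ∑ l ∈ Ico (J - L) J, err (l + L) = ∑ l ∈ Ico (J - L + L) (J + L), err l := by
      rw [← sum_Ico_add']
    rw [sum_add_distrib, h1]
    have hJL : J - L + L = J := by omega
    rw [hJL, sum_Ico_consecutive err (by omega) (by omega)]
    have h2 : ∀ l ∈ Ico (J - L) (J + L), err l = ((univ.filter fun x : Fin n → Bool =>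
        F x ≠ decide (n ≤ 2 * ones x)).filter fun x => ones x = l).card := by
      intro l _
      rw [filter_filter]
    rw [sum_congr rfl h2]
    exact sum_card_filter_le_card_of_eq _ _
  have hlast : (L : ℝ) * (7 / 16 * b) ≤ ((∑ l ∈ Ico (J - L) J, (err l + err (l + L)) : ℕ) : ℝ) := by
    push_cast
    have h1 : ∑ l ∈ Ico (J - L) J, (7 / 16 * b : ℝ)
        ≤ ∑ l ∈ Ico (J - L) J, ((err l : ℝ) + err (l + L)) := by
      apply sum_le_sum
      intro l hl
      rw [mem_Ico] at hl
      exact hpair l (by omega) hl.2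
    rw [sum_const, Nat.card_Ico, nsmul_eq_mul] at h1
    have h2 : J - (J - L) = L := by omega
    rwa [h2] at h1
  have hL4 : (4 : ℝ) * P ≤ L := by
    have : 4 * P ≤ L := by
      rw [hL, hK]
      nlinarith
    exact_mod_cast this
  have hb0 : (0 : ℝ) ≤ b := Nat.cast_nonneg b
  have hPR : (0 : ℝ) ≤ P := Nat.cast_nonneg P
  have h9 : (4 * P : ℝ) * (7 / 16 * b) ≤ L * (7 / 16 * b) :=
    mul_le_mul_of_nonneg_right hL4 (by positivity)
  have h10 : ((∑ l ∈ Ico (J - L) J, (err l + err (l + L)) : ℕ) : ℝ) ≤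
      ((univ.filter fun x : Fin n → Bool => F x ≠ decide (n ≤ 2 * ones x)).card : ℕ) := by
    exact_mod_cast hsum
  have h11 : (P : ℝ) * b ≤
      ((univ.filter fun x : Fin n → Bool => F x ≠ decide (n ≤ 2 * ones x)).card : ℕ) := by
    have h12 : 0 ≤ (P : ℝ) * b := by positivity
    linarith
  exact_mod_cast h11
where
  sum_card_filter_le_card_of_eq {α : Type} [DecidableEq α] {f : α → ℕ} (S : Finset α)
      (I : Finset ℕ) : ∑ l ∈ I, (S.filter fun x => f x = l).card ≤ S.card := by
    rw [← card_biUnion]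
    · apply card_le_card
      intro x hx
      rw [mem_biUnion] at hx
      obtain ⟨l, _, h⟩ := hx
      exact (mem_filter.1 h).1
    · intro i _ j _ hij
      change Disjoint _ _
      rw [disjoint_left]
      intro x hx hx'
      rw [mem_filter] at hx hx'
      exact hij (hx.2.symm.trans hx'.2)

end Pool.Agent.L5helper50.ACC
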