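import Mathlib

/-!
# Circuits with a linear number of wires: the model
-/

namespace Pool.Agent.L5helper50.ACC

variable {n s : ℕ}

/-- A circuit with `n` input bits and `s` gates of unbounded fan-in.  `ch g` is the set of input
bits and gates which are wired to the gate `g`; `fn g` is the function of the gate (it reads only
what is wired to `g`); `val g x` is the value of the gate `g` on the input `x`. -/
structure Circuit (n s : ℕ) where
  ch : Fin s → Finset (Fin n ⊕ Fin s)
  fn : Fin s → (Fin n ⊕ Fin s → Bool) → Bool
  dep : ∀ g y y', (∀ i ∈ ch g, y i = y' i) → fn g y = fn g y'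
  acyclic : ∀ g u, Sum.inr u ∈ ch g → u < g
  val : Fin s → (Fin n → Bool) → Bool
  val_eq : ∀ g x, val g x = fn g (Sum.elim x (fun u => val u x))

/-- The gate `g` is a counting gate: its value depends only on a weighted sum modulo `m` of its
inputs and on the number of its inputs which differ from given bits `a i`, counted up to `k`.  For
`k ≥ 1` the AND, OR, NOT and `MOD_m` gates, with some inputs negated or not, are such gates. -/
def Circuit.IsCount (C : Circuit n s) (m k : ℕ) (g : Fin s) : Prop :=
  ∃ (w : Fin n ⊕ Fin s → ZMod m) (a : Fin n ⊕ Fin s → Bool) (G : ZMod m → ℕ → Bool),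
    ∀ y, C.fn g y = G (∑ i ∈ C.ch g, if y i then w i else 0)
      (min k ((C.ch g).filter fun i => y i ≠ a i).card)

/-- Every gate outside `U` is a counting gate or an arbitrary gate of fan-in at most `k`; at most
`c * n` wires lead into the gates outside `U`; every path which avoids `U` has at most `d` gates.
The gates of `U` are counting gates with any number of wires at any place. -/
structure Circuit.Sparse (C : Circuit n s) (m k c d : ℕ) (U : Finset (Fin s)) : Prop where
  free : ∀ g ∈ U, C.IsCount m k g
  gate : ∀ g ∉ U, C.IsCount m k g ∨ (C.ch g).card ≤ k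
  wires : ∑ g ∈ Uᶜ, (C.ch g).card ≤ c * n
  depth : ∃ lev : Fin s → ℕ, (∀ g ∉ U, lev g < d) ∧
    ∀ g ∉ U, ∀ u ∉ U, Sum.inr u ∈ C.ch g → lev u < lev g

/-- `F x` depends only on the values of the gates in `U` and of the gate `o` on `x`. -/
def Circuit.Determines (C : Circuit n s) (U : Finset (Fin s)) (o : Fin s)
    (F : (Fin n → Bool) → Bool) : Prop :=
  ∀ x x', (∀ g ∈ U, C.val g x = C.val g x') → C.val o x = C.val o x' → F x = F x'

/-- `F` is a function of the values of at most `δ n` counting gates (the gates of `U`) and of one
more gate of a sparse circuit. -/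
def Sparsely (m k c d : ℕ) (δ : ℝ) (F : (Fin n → Bool) → Bool) : Prop :=
  ∃ (s : ℕ) (C : Circuit n s) (U : Finset (Fin s)) (o : Fin s),
    C.Sparse m k c d U ∧ (U.card : ℝ) ≤ δ * n ∧ C.Determines U o F

/-- The number of ones of `x`. -/
def ones (x : Fin n → Bool) : ℕ := (Finset.univ.filter fun i => x i = true).card

/-- The number of inputs with `l` ones accepted by `F`. -/
def acc (F : (Fin n → Bool) → Bool) (l : ℕ) : ℕ :=
  (Finset.univ.filter fun x : Fin n → Bool => F x = true ∧ ones x = l).card

end Pool.Agent.L5helper50.ACC
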