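import Pool.Agent.L5helper50.ACC.Far
import Pool.Agent.L5helper50.ACC.Hub

namespace Pool.Agent.L5helper50.ACC

open Finset

/-- Structure of sparse circuits. -/
theorem structure_thm (m k c d : ℕ) {W : ℝ} (hW : 1 ≤ W) {τ : ℝ} (hτ0 : 0 < τ) (hτ1 : τ < 1) :
    ∃ N : ℕ, 0 < N ∧ ∃ δ : ℝ, 0 < δ ∧ ∀ (n s : ℕ) (C : Circuit n s) (U : Finset (Fin s)),
      C.Sparse m k c d U → (U.card : ℝ) ≤ δ * n →
      ∃ (Hs : Finset (Fin s)) (R : Finset (Fin n)) (A : Fin s → Finset (Fin n)),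
        C.Hubs Hs R A ∧ U ⊆ Hs ∧ (∀ g ∈ Hs, C.IsCount m k g) ∧ n ≤ N * R.card ∧
        W ^ Hs.card * τ ^ R.card ≤ 1 := by
  classical
  have hτinv : 1 < τ⁻¹ := (one_lt_inv₀ hτ0).2 hτ1
  obtain ⟨E, hE⟩ := pow_unbounded_of_one_lt (W ^ 2) hτinv
  obtain ⟨N, hN, hub⟩ := hub_lemma d c (E + 1) k
  refine ⟨N, hN, 1 / (N * (E + 1)), by positivity, ?_⟩
  intro n s C U hC hU
  obtain ⟨lev, hlev, hdec⟩ := hC.depth
  set xs : Fin s → Finset (Fin n) := fun g => univ.filter fun i => Sum.inl i ∈ C.ch g with hxs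
  set cs : Fin s → Finset (Fin s) := fun g => univ.filter fun u => u ∉ U ∧ Sum.inr u ∈ C.ch g
    with hcs
  have hcard : ∀ g, (xs g).card + (cs g).card ≤ (C.ch g).card := by
    intro g
    rw [← card_disjSum]
    apply card_le_card
    intro i hi
    rw [mem_disjSum] at hi
    rcases hi with ⟨a, ha, rfl⟩ | ⟨a, ha, rfl⟩
    · exact (mem_filter.1 ha).2
    · exact (mem_filter.1 ha).2.2
  obtain ⟨R, _, hnR, H, hHS, hHE, hHk, A, hA⟩ := hub (Fin n) (Fin s) univ Uᶜ xs cs lev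
    (fun g _ => subset_univ _)
    (fun g _ u hu => by
      rw [hcs, mem_filter] at hu
      exact mem_compl.2 hu.2.1)
    (fun g hg u hu => by
      rw [hcs, mem_filter] at hu
      exact hdec g (mem_compl.1 hg) u hu.2.1 hu.2.2)
    (fun g hg => hlev g (mem_compl.1 hg))
    (by
      rw [card_univ, Fintype.card_fin]
      exact (sum_le_sum fun g _ => hcard g).trans hC.wires)
  rw [card_univ, Fintype.card_fin] at hnR
  have hmem : ∀ g, g ∉ H ∪ U → g ∈ Uᶜ ∧ g ∉ H := by
    intro g hg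
    rw [mem_union, not_or] at hg
    exact ⟨mem_compl.2 hg.2, hg.1⟩
  refine ⟨H ∪ U, R, A, ⟨?_, ?_, ?_, ?_⟩, subset_union_right, ?_, hnR, ?_⟩
  · intro g hg
    exact (hA g (hmem g hg).1 (hmem g hg).2).2.1
  · intro g hg
    exact (hA g (hmem g hg).1 (hmem g hg).2).1
  · intro g hg i hi hiR
    exact (hA g (hmem g hg).1 (hmem g hg).2).2.2.1
      (mem_inter.2 ⟨hiR, mem_filter.2 ⟨mem_univ _, hi⟩⟩)
  · intro g hg u hu hgu
    exact (hA g (hmem g hg).1 (hmem g hg).2).2.2.2 u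
      (mem_filter.2 ⟨mem_univ _, mem_compl.1 (hmem u hu).1, hgu⟩) (hmem u hu).2
  · intro g hg
    by_cases hgU : g ∈ U
    · exact hC.free g hgU
    · have hgH : g ∈ H := by
        rcases mem_union.1 hg with h | h
        · exact h
        · exact absurd h hgU
      rcases hC.gate g hgU with h | h
      · exact h
      · exact absurd h (not_le.2 ((hHk g hgH).trans_le (hcard g)))
  · have hUE : U.card * (E + 1) ≤ R.card := by
      have h1 : (U.card : ℝ) * (E + 1) ≤ R.card := by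
        have hnR' : (n : ℝ) ≤ N * R.card := by exact_mod_cast hnR
        have hNpos : (0 : ℝ) < N := by exact_mod_cast hN
        have hEpos : (0 : ℝ) < E + 1 := by positivity
        calc (U.card : ℝ) * (E + 1) ≤ (1 / (N * (E + 1)) * n) * (E + 1) := by
              exact mul_le_mul_of_nonneg_right hU hEpos.le
          _ = n / N := by field_simp
          _ ≤ R.card := by
              rw [div_le_iff₀ hNpos]
              linarith
      exact_mod_cast h1
    have hcardU : (H ∪ U).card ≤ H.card + U.card := card_union_le _ _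
    have key : ∀ j : ℕ, j * (E + 1) ≤ R.card → (W ^ 2) ^ j ≤ τ⁻¹ ^ R.card := by
      intro j hj
      calc (W ^ 2) ^ j ≤ (τ⁻¹ ^ E) ^ j := by
            apply pow_le_pow_left₀ (by positivity) hE.le
        _ = τ⁻¹ ^ (E * j) := by rw [← pow_mul]
        _ ≤ τ⁻¹ ^ R.card := by
            apply pow_le_pow_right₀ hτinv.le
            nlinarith
    have h3 : (W ^ (H ∪ U).card) ^ 2 ≤ (τ⁻¹ ^ R.card) ^ 2 := by
      calc (W ^ (H ∪ U).card) ^ 2 = (W ^ 2) ^ (H ∪ U).card := by
            rw [← pow_mul, ← pow_mul, mul_comm (H ∪ U).card 2]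
        _ ≤ (W ^ 2) ^ (H.card + U.card) := by
            apply pow_le_pow_right₀ _ hcardU
            exact one_le_pow₀ hW
        _ = (W ^ 2) ^ H.card * (W ^ 2) ^ U.card := pow_add _ _ _
        _ ≤ τ⁻¹ ^ R.card * τ⁻¹ ^ R.card := by
            apply mul_le_mul (key _ hHE) (key _ hUE) (by positivity) (by positivity)
        _ = (τ⁻¹ ^ R.card) ^ 2 := by ring
    have h4 : W ^ (H ∪ U).card ≤ τ⁻¹ ^ R.card :=
      (pow_le_pow_iff_left₀ (by positivity) (by positivity) two_ne_zero).1 h3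
    calc W ^ (H ∪ U).card * τ ^ R.card ≤ τ⁻¹ ^ R.card * τ ^ R.card :=
          mul_le_mul_of_nonneg_right h4 (by positivity)
      _ = 1 := by rw [← mul_pow, inv_mul_cancel₀ hτ0.ne', one_pow]

end Pool.Agent.L5helper50.ACC
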