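import Pool.Agent.L5helper50.ACC.Residues

/-!
# Votes of circuits
-/

set_option linter.all false

namespace Pool.Agent.L5helper50.ACC

open Finset

/-- the circuit with one gate, whose value is `true` -/
def constCircuit (n : ℕ) : Circuit n 1 where
  ch _ := ∅
  fn _ _ := true
  dep _ _ _ _ := rfl
  acyclic _ _ h := absurd h (Finset.notMem_empty _)
  val _ _ := true
  val_eq _ _ := rfl

theorem constCircuit_sparse (n m k c d : ℕ) : (constCircuit n).Sparse m k c d univ where
  free := fun g _ => ⟨fun _ => 0, fun _ => true, fun _ _ => true, fun _ => rfl⟩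
  gate := fun g hg => absurd (mem_univ g) hg
  wires := by
    rw [compl_univ, sum_empty]
    exact Nat.zero_le _
  depth := ⟨fun _ => 0, fun g hg => absurd (mem_univ g) hg, fun g hg => absurd (mem_univ g) hg⟩

theorem exists_res (q e a : ℕ) (hq : 0 < q) : ∃ c < q, a + c ≡ e [MOD q] := by
  refine ⟨(e + (q - 1) * a) % q, Nat.mod_lt _ hq, ?_⟩
  have h1 : a + (e + (q - 1) * a) % q ≡ a + (e + (q - 1) * a) [MOD q] :=
    Nat.ModEq.add_left a (Nat.mod_modEq _ _)
  refine h1.trans ?_
  have h2 : a + (e + (q - 1) * a) = e + q * a := by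
    obtain ⟨b, rfl⟩ : ∃ b, q = b + 1 := ⟨q - 1, by omega⟩
    rw [Nat.add_sub_cancel]
    ring
  rw [h2]
  exact (Nat.modEq_iff_dvd' (Nat.le_add_right e _)).2 ⟨a, by omega⟩ |>.symm

/-- every residue class of the number of ones has at least `2 ^ (n - q)` points -/
theorem class_large {n q : ℕ} (hq : 0 < q) (hqn : q ≤ n) (e : ℕ) :
    2 ^ n ≤ 2 ^ q * (univ.filter fun x : Fin n → Bool => ones x ≡ e [MOD q]).card := by
  classical
  -- the coordinates `< q`
  have hc : ∀ x : Fin n → Bool, ∃ c < q,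
      (univ.filter fun i : Fin n => q ≤ i.val ∧ x i = true).card + c ≡ e [MOD q] :=
    fun x => exists_res q e _ hq
  choose c hcq hce using hc
  let Φ : (Fin n → Bool) → (Fin n → Bool) := fun x i => if q ≤ i.val then x i else decide (i.val < c x)
  have hones : ∀ x, ones (Φ x) = (univ.filter fun i : Fin n => q ≤ i.val ∧ x i = true).card + c x := by
    intro x
    have h1 : (univ.filter fun i : Fin n => Φ x i = true) =
        (univ.filter fun i : Fin n => q ≤ i.val ∧ x i = true) ∪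
          (univ.filter fun i : Fin n => i.val < c x) := by
      ext i
      simp only [mem_filter, mem_univ, true_and, mem_union, Φ]
      by_cases h : q ≤ i.val
      · rw [if_pos h]
        constructor
        · exact fun h2 => Or.inl ⟨h, h2⟩
        · rintro (h2 | h2)
          · exact h2.2
          · have := hcq x; omega
      · rw [if_neg h]
        constructor
        · intro h2
          exact Or.inr (by simpa using h2)
        · rintro (h2 | h2)
          · exact absurd h2.1 h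
          · simpa using h2
    unfold ones
    rw [h1, card_union_of_disjoint]
    · congr 1
      have h2 : (univ.filter fun i : Fin n => i.val < c x) = (univ : Finset (Fin (c x))).map
          (Fin.castLEEmb ((hcq x).le.trans hqn)) := by
        ext i
        simp only [mem_filter, mem_univ, true_and, mem_map]
        constructor
        · intro h3
          exact ⟨⟨i.val, h3⟩, Fin.ext rfl⟩
        · rintro ⟨y, rfl⟩
          exact y.2
      rw [h2, card_map, card_univ, Fintype.card_fin]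
    · rw [disjoint_left]
      intro i h2 h3
      have h4 := (mem_filter.1 h2).2.1
      have h5 := (mem_filter.1 h3).2
      have := hcq x
      omega
  have hmaps : ∀ x ∈ (univ : Finset (Fin n → Bool)),
      Φ x ∈ (univ.filter fun x : Fin n → Bool => ones x ≡ e [MOD q]) := by
    intro x _
    rw [mem_filter]
    refine ⟨mem_univ _, ?_⟩
    rw [hones]
    exact hce x
  have hfib : ∀ y ∈ (univ.filter fun x : Fin n → Bool => ones x ≡ e [MOD q]),
      (univ.filter fun x : Fin n → Bool => Φ x = y).card ≤ 2 ^ q := by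
    intro y _
    have h1 : ((univ : Finset (Fin q → Bool)).card) = 2 ^ q := by
      rw [card_univ, Fintype.card_fun, Fintype.card_bool, Fintype.card_fin]
    rw [← h1]
    refine card_le_card_of_injOn (fun x => fun i : Fin q => x (Fin.castLE hqn i))
      (fun _ _ => mem_univ _) ?_
    intro x hx x' hx' hxx'
    have hx1 := (mem_filter.1 (mem_coe.1 hx)).2
    have hx2 := (mem_filter.1 (mem_coe.1 hx')).2
    funext i
    by_cases h : q ≤ i.val
    · have h2 : Φ x i = Φ x' i := by rw [hx1, hx2]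
      simp only [Φ, if_pos h] at h2
      exact h2
    · have h2 := congrFun hxx' ⟨i.val, by omega⟩
      exact h2
  have h := card_le_mul_card_image_of_maps_to hmaps (2 ^ q) hfib
  rw [card_univ, Fintype.card_fun, Fintype.card_bool, Fintype.card_fin] at h
  exact h

theorem vote {m : ℕ} (hm : 2 ≤ m) (k c d P : ℕ) :
    ∃ δ : ℝ, 0 < δ ∧ ∃ n₀ : ℕ, ∀ n, n₀ ≤ n →
      ∀ (T : ℕ) (F : Fin T → (Fin n → Bool) → Bool) (w : Fin T → ℤ) (t : ℤ),
      (∀ j, Sparsely m k c d δ (F j)) →
      ((∑ j, |w j| : ℤ) : ℝ) ≤ (2 : ℝ) ^ (δ * (n : ℝ)) →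
      ∀ q : ℕ, 0 < q → q ≤ P → ¬ q ∣ m →
        ∃ x : Fin n → Bool, ¬ (q ∣ ones x ↔ t ≤ ∑ j, if F j x = true then w j else 0) := by
  classical
  obtain ⟨δ₀, hδ₀, n₀, hres⟩ := residues hm k c d P
  refine ⟨δ₀ / 2, by positivity, max (max n₀ (⌈1 / δ₀⌉₊ + 1)) (max P (⌈(P + 3) / (δ₀ / 2)⌉₊ + 1)), ?_⟩
  intro n hn T F w t hF hW q hq hqP hqm
  choose s C U o hC hU hD using hF
  by_contra hcon
  push Not at hcon
  have hn1 : n₀ ≤ n := (le_max_left _ _).trans ((le_max_left _ _).trans hn)
  have hn2 : ⌈1 / δ₀⌉₊ + 1 ≤ n := (le_max_right _ _).trans ((le_max_left _ _).trans hn)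
  have hn3 : P ≤ n := (le_max_left _ _).trans ((le_max_right _ _).trans hn)
  have hn4 : ⌈(P + 3) / (δ₀ / 2)⌉₊ + 1 ≤ n := (le_max_right _ _).trans ((le_max_right _ _).trans hn)
  have hn0 : (0 : ℝ) ≤ n := Nat.cast_nonneg n
  have hb1 : 1 ≤ δ₀ * n := by
    have h1 : 1 / δ₀ ≤ (n : ℝ) := (Nat.le_ceil _).trans (by exact_mod_cast (Nat.le_succ _).trans hn2)
    rw [div_le_iff₀ hδ₀] at h1
    linarith
  have hb2 : (P : ℝ) + 3 ≤ δ₀ / 2 * n := by
    have h1 : ((P : ℝ) + 3) / (δ₀ / 2) ≤ (n : ℝ) :=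
      (Nat.le_ceil _).trans (by exact_mod_cast (Nat.le_succ _).trans hn4)
    rw [div_le_iff₀ (by positivity)] at h1
    linarith
  have hqn : q ≤ n := hqP.trans hn3
  -- the second class
  set e := Nat.gcd q m with he
  have he0 : 0 < e := Nat.gcd_pos_of_pos_left m hq
  have heq : e < q := by
    refine lt_of_le_of_ne (Nat.gcd_le_left m hq) fun h => hqm ?_
    rw [← h]
    exact Nat.gcd_dvd_right q m
  have h0e : (0 : ℕ) ≡ e [MOD Nat.gcd q m] := by
    rw [← he]
    exact (Nat.modEq_zero_iff_dvd.2 dvd_rfl).symm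
  set ε : ℝ := (2 : ℝ) ^ ((1 - δ₀) * (n : ℝ)) with hε
  have hε0 : 0 < ε := by positivity
  set A : Finset (Fin n → Bool) := univ.filter fun x => ones x ≡ 0 [MOD q] with hA
  set B : Finset (Fin n → Bool) := univ.filter fun x => ones x ≡ e [MOD q] with hB
  set V : (Fin n → Bool) → ℤ := fun x => ∑ j, if F j x = true then w j else 0 with hV
  have hVA : ∀ x ∈ A, t ≤ V x := by
    intro x hx
    exact (hcon x).1 (Nat.modEq_zero_iff_dvd.1 (mem_filter.1 hx).2)
  have hVB : ∀ x ∈ B, V x ≤ t - 1 := by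
    intro x hx
    have h1 : ¬ q ∣ ones x := by
      intro h
      have h2 : e ≡ 0 [MOD q] := ((mem_filter.1 hx).2.symm).trans (Nat.modEq_zero_iff_dvd.2 h)
      exact absurd (Nat.le_of_dvd he0 (Nat.modEq_zero_iff_dvd.1 h2)) (not_le.2 heq)
    have h2 : ¬ t ≤ V x := fun h => h1 ((hcon x).2 h)
    omega
  set W : ℤ := ∑ j, |w j| with hWdef
  have hVW : ∀ x, |V x| ≤ W := by
    intro x
    refine (Finset.abs_sum_le_sum_abs _ _).trans (Finset.sum_le_sum fun j _ => ?_)
    split_ifs
    · exact le_rfl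
    · rw [abs_zero]
      exact abs_nonneg _
  have hBcard : 2 ^ n ≤ 2 ^ q * B.card := class_large hq hqn e
  have hAcard : 2 ^ n ≤ 2 ^ q * A.card := class_large hq hqn 0
  have hBne : B.Nonempty := by
    rw [← card_pos]
    by_contra h
    have h1 : B.card = 0 := by omega
    rw [h1, mul_zero] at hBcard
    exact absurd hBcard (not_le.2 (by positivity))
  have hAne : A.Nonempty := by
    rw [← card_pos]
    by_contra h
    have h1 : A.card = 0 := by omega
    rw [h1, mul_zero] at hAcard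
    exact absurd hAcard (not_le.2 (by positivity))
  have ht : |t| ≤ W + 1 := by
    obtain ⟨x, hx⟩ := hAne
    obtain ⟨y, hy⟩ := hBne
    have h1 := hVA x hx
    have h2 := hVB y hy
    have h3 := abs_le.1 (hVW x)
    have h4 := abs_le.1 (hVW y)
    rw [abs_le]
    constructor <;> omega
  -- the differences
  have hdiff : ∀ j, |(((A.filter fun x => F j x = true).card : ℝ) -
      (B.filter fun x => F j x = true).card)| ≤ ε := by
    intro j
    have h1 := hres n (s j) (C j) (U j) (o j) hn1 (hC j) ((hU j).trans (by nlinarith)) (F j) (hD j)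
      q 0 e hq hqP h0e
    have e1 : (A.filter fun x => F j x = true) =
        univ.filter fun x : Fin n → Bool => F j x = true ∧ ones x ≡ 0 [MOD q] := by
      ext x
      simp only [hA, mem_filter, mem_univ, true_and]
      exact and_comm
    have e2 : (B.filter fun x => F j x = true) =
        univ.filter fun x : Fin n → Bool => F j x = true ∧ ones x ≡ e [MOD q] := by
      ext x
      simp only [hB, mem_filter, mem_univ, true_and]
      exact and_comm
    rw [e1, e2]
    exact h1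
  have hAB : |((A.card : ℝ) - B.card)| ≤ ε := by
    have h1 := hres n 1 (constCircuit n) univ 0 hn1 (constCircuit_sparse n m k c d)
      (by
        rw [card_univ, Fintype.card_fin]
        push_cast
        exact hb1) (fun _ => true) (fun _ _ _ _ => rfl) q 0 e hq hqP h0e
    have e1 : A =
        univ.filter fun x : Fin n → Bool => (true = true) ∧ ones x ≡ 0 [MOD q] := by
      ext x
      simp only [hA, mem_filter, mem_univ, true_and]
    have e2 : B =
        univ.filter fun x : Fin n → Bool => (true = true) ∧ ones x ≡ e [MOD q] := by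
      ext x
      simp only [hB, mem_filter, mem_univ, true_and]
    rw [e1, e2]
    exact h1
  -- sums over the classes
  have hsum : ∀ D : Finset (Fin n → Bool), ((∑ x ∈ D, V x : ℤ) : ℝ) =
      ∑ j, (w j : ℝ) * ((D.filter fun x => F j x = true).card : ℝ) := by
    intro D
    have h1 : ∑ x ∈ D, V x = ∑ j, w j * ((D.filter fun x => F j x = true).card : ℤ) := by
      rw [hV, Finset.sum_comm]
      refine Finset.sum_congr rfl fun j _ => ?_
      rw [← Finset.sum_filter, Finset.sum_const, nsmul_eq_mul, mul_comm]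
    rw [h1]
    push_cast
    rfl
  have hA1 : (t : ℝ) * A.card ≤ ((∑ x ∈ A, V x : ℤ) : ℝ) := by
    have h1 : (A.card : ℤ) * t ≤ ∑ x ∈ A, V x := by
      rw [← nsmul_eq_mul]
      exact Finset.card_nsmul_le_sum A V t hVA
    have h2 : (((A.card : ℤ) * t : ℤ) : ℝ) ≤ ((∑ x ∈ A, V x : ℤ) : ℝ) := by exact_mod_cast h1
    push_cast at h2 ⊢
    linarith
  have hB1 : ((∑ x ∈ B, V x : ℤ) : ℝ) ≤ ((t : ℝ) - 1) * B.card := by
    have h1 : ∑ x ∈ B, V x ≤ (B.card : ℤ) * (t - 1) := by
      rw [← nsmul_eq_mul]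
      exact Finset.sum_le_card_nsmul B V (t - 1) hVB
    have h2 : ((∑ x ∈ B, V x : ℤ) : ℝ) ≤ (((B.card : ℤ) * (t - 1) : ℤ) : ℝ) := by exact_mod_cast h1
    push_cast at h2 ⊢
    linarith
  have hkey : ((∑ x ∈ A, V x : ℤ) : ℝ) - ((∑ x ∈ B, V x : ℤ) : ℝ) ≤ (W : ℝ) * ε := by
    rw [hsum A, hsum B, ← Finset.sum_sub_distrib, hWdef]
    push_cast
    rw [Finset.sum_mul]
    refine Finset.sum_le_sum fun j _ => ?_
    rw [← mul_sub]
    calc (w j : ℝ) * (((A.filter fun x => F j x = true).card : ℝ) -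
          (B.filter fun x => F j x = true).card)
        ≤ |(w j : ℝ) * (((A.filter fun x => F j x = true).card : ℝ) -
          (B.filter fun x => F j x = true).card)| := le_abs_self _
      _ = |(w j : ℝ)| * |(((A.filter fun x => F j x = true).card : ℝ) -
          (B.filter fun x => F j x = true).card)| := abs_mul _ _
      _ ≤ |(w j : ℝ)| * ε := mul_le_mul_of_nonneg_left (hdiff j) (abs_nonneg _)
  have htR : |(t : ℝ)| ≤ W + 1 := by exact_mod_cast ht
  have hfinal : (B.card : ℝ) ≤ (2 * W + 1) * ε := by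
    have h1 : (t : ℝ) * (A.card - B.card) + B.card ≤ W * ε := by nlinarith
    have h2 : -((W + 1) * ε) ≤ (t : ℝ) * (A.card - B.card) := by
      have h3 : |(t : ℝ) * (A.card - B.card)| ≤ (W + 1) * ε := by
        rw [abs_mul]
        exact mul_le_mul htR hAB (abs_nonneg _) (by linarith [abs_nonneg (t : ℝ)])
      exact (abs_le.1 h3).1
    nlinarith
  -- comparison
  have hWε : (2 * (W : ℝ) + 1) * ε ≤ 3 * (2 : ℝ) ^ ((1 - δ₀ / 2) * (n : ℝ)) := by
    have h1 : (1 : ℝ) ≤ (2 : ℝ) ^ (δ₀ / 2 * (n : ℝ)) :=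
      Real.one_le_rpow (by norm_num) (by positivity)
    have h2 : (2 * (W : ℝ) + 1) ≤ 3 * (2 : ℝ) ^ (δ₀ / 2 * (n : ℝ)) := by linarith
    calc (2 * (W : ℝ) + 1) * ε ≤ 3 * (2 : ℝ) ^ (δ₀ / 2 * (n : ℝ)) * ε :=
          mul_le_mul_of_nonneg_right h2 hε0.le
      _ = 3 * ((2 : ℝ) ^ (δ₀ / 2 * (n : ℝ)) * (2 : ℝ) ^ ((1 - δ₀) * (n : ℝ))) := by rw [hε]; ring
      _ = 3 * (2 : ℝ) ^ ((1 - δ₀ / 2) * (n : ℝ)) := by
          rw [← Real.rpow_add (by norm_num)]
          congr 2
          ring
  have hlow : (2 : ℝ) ^ (n : ℝ) ≤ (2 : ℝ) ^ (P : ℝ) * (3 * (2 : ℝ) ^ ((1 - δ₀ / 2) * (n : ℝ))) := by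
    have h1 : ((2 : ℝ) ^ n) ≤ 2 ^ q * B.card := by exact_mod_cast hBcard
    have h2 : (2 : ℝ) ^ q ≤ (2 : ℝ) ^ P := pow_le_pow_right₀ (by norm_num) hqP
    rw [Real.rpow_natCast, Real.rpow_natCast]
    refine h1.trans ?_
    exact mul_le_mul h2 (hfinal.trans hWε) (Nat.cast_nonneg _) (by positivity)
  have hup : (2 : ℝ) ^ (P : ℝ) * (3 * (2 : ℝ) ^ ((1 - δ₀ / 2) * (n : ℝ))) < (2 : ℝ) ^ (n : ℝ) := by
    have h1 : (3 : ℝ) < (2 : ℝ) ^ (2 : ℝ) := by
      rw [show (2 : ℝ) ^ (2 : ℝ) = 4 by norm_num]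
      norm_num
    calc (2 : ℝ) ^ (P : ℝ) * (3 * (2 : ℝ) ^ ((1 - δ₀ / 2) * (n : ℝ)))
        < (2 : ℝ) ^ (P : ℝ) * ((2 : ℝ) ^ (2 : ℝ) * (2 : ℝ) ^ ((1 - δ₀ / 2) * (n : ℝ))) := by
          apply mul_lt_mul_of_pos_left _ (by positivity)
          exact mul_lt_mul_of_pos_right h1 (by positivity)
      _ = (2 : ℝ) ^ ((P : ℝ) + (2 + (1 - δ₀ / 2) * (n : ℝ))) := by
          rw [Real.rpow_add (by norm_num), Real.rpow_add (by norm_num)]
      _ ≤ (2 : ℝ) ^ (n : ℝ) := by
          apply Real.rpow_le_rpow_of_exponent_le (by norm_num)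
          nlinarith
  exact absurd hlow (not_le.2 hup)

end Pool.Agent.L5helper50.ACC
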